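import Pool.Agent.Nas.Sq

/-! Quasi-primitive solvable linear groups. -/

set_option autoImplicit false

namespace Pool.Agent.Nas

open Pool.Agent.Nan

section
variable {p : ℕ} [Fact p.Prime] {L W : Type} [Group L] [Finite L] [AddCommGroup W]
  [Module (ZMod p) W] [Finite W] [Nontrivial W] {ρ : Representation (ZMod p) L W}
  {U : Subgroup L}

-- BEGIN st1
/-- (st1, size 1) PROOF. `fld` for `z = ρ n - 1`; then `fai`. -/
theorem qp_fpf (h : QP ρ U) (N : Subgroup L) (hN : Ab N) (n : L) (hn : n ∈ N) (w : W)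
    (hw : w ≠ 0) (hf : ρ n w = w) : n = 1 := by
  have hmem : ρ n - 1 ∈ AA ρ N :=
    (AA ρ N).sub_mem (Algebra.subset_adjoin ⟨n, hn, rfl⟩) (AA ρ N).one_mem
  rcases h.fld N hN (ρ n - 1) hmem with h0 | h0
  · apply h.fai n
    intro v
    rw [sub_eq_zero.1 h0]
    rfl
  · refine absurd (h0 w ?_) hw
    rw [LinearMap.sub_apply, hf, Module.End.one_apply, sub_self]
-- END st1

-- BEGIN st2
private theorem st2_mem {a : L} (ha : a ∈ U) : ρ a ∈ AA ρ U :=
  Algebra.subset_adjoin ⟨a, ha, rfl⟩

private theorem st2_rho (h : QP ρ U) {a b : L} (hab : ∀ w, ρ a w = ρ b w) : a = b := by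
  have h1 : b⁻¹ * a = 1 := by
    refine h.fai _ fun w => ?_
    rw [map_mul, Module.End.mul_apply, hab w, ← Module.End.mul_apply, ← map_mul, inv_mul_cancel,
      map_one, Module.End.one_apply]
  exact (inv_mul_eq_one.1 h1).symm

/-- (st2, size 4) The field. PROOF. `K` = `AA ρ U` as a type: a commutative (`aa_comm`) finite ring without zero
divisors (`fld`), so a field (compare `irf` in Nan/Fv.lean); `W` is a module over it (`Module.End`
acts); `χ u = ρ u` (a unit, `fai` gives injectivity); `σ g` = conjugation `cj ρ g` (`aa_cj`, `cj_mul`,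
`cj_app`); `σ g = 1` iff `ρ g` commutes with all `ρ u` iff `g` commutes with all `u` (`fai`). `K` is generated as
a ring by the `χ u` (the prime field consists of multiples of one). `card K = p ^ a`. -/
theorem qp_fld (h : QP ρ U) :
    ∃ (K : Type) (_ : Field K) (_ : Finite K) (_ : CharP K p) (_ : Module K W) (χ : U →* Kˣ)
      (σ : L →* (K ≃+* K)), Function.Injective χ ∧ (∀ (u : U) (w : W), ρ (u : L) w =
        ((χ u : Kˣ) : K) • w) ∧ (∀ (g : L) (c : K) (w : W), ρ g (c • w) = (σ g c) • ρ g w) ∧
      (∀ g : L, σ g = 1 ↔ ∀ u ∈ U, g * u = u * g) ∧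
      ∀ K₁ : Subring K, (∀ u, ((χ u : Kˣ) : K) ∈ K₁) → K₁ = ⊤ := by
  classical
  have hA : Ab U := h.ab
  have hfE : Finite (Module.End (ZMod p) W) :=
    Finite.of_injective (fun (z : Module.End (ZMod p) W) => (z : W → W)) DFunLike.coe_injective
  let S := AA ρ U
  let instS : CommRing S :=
    { (inferInstance : Ring S) with
      mul_comm := fun a b => Subtype.ext
        (show (a : Module.End (ZMod p) W) * (b : Module.End (ZMod p) W) = b * a from
          aa_comm hA _ _ a.2 b.2) }
  have hfS : Finite S := Subtype.finite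
  obtain ⟨v, hv⟩ := exists_ne (0 : W)
  have hdom : IsDomain S := by
    have h1 : NoZeroDivisors S := by
      refine ⟨fun {a b} hab => ?_⟩
      by_contra hcon
      push Not at hcon
      have ha : ∀ w, (a : Module.End (ZMod p) W) w = 0 → w = 0 :=
        (h.fld U hA a a.2).resolve_left fun h0 => hcon.1 (Subtype.ext h0)
      have hb : ∀ w, (b : Module.End (ZMod p) W) w = 0 → w = 0 :=
        (h.fld U hA b b.2).resolve_left fun h0 => hcon.2 (Subtype.ext h0)
      apply hv
      apply hb
      apply ha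
      have h2 : ((a * b : S) : Module.End (ZMod p) W) = 0 := by rw [hab]; rfl
      exact LinearMap.congr_fun h2 v
    have h2 : Nontrivial S := by
      refine ⟨0, 1, fun h => ?_⟩
      apply hv
      have h3 : ((0 : S) : Module.End (ZMod p) W) = ((1 : S) : Module.End (ZMod p) W) := by rw [h]
      exact (LinearMap.congr_fun h3 v).symm
    exact NoZeroDivisors.to_isDomain S
  let iF : Field S := (Finite.isField_of_domain S).toField
  let iM : Module S W :=
    { smul := fun z w => (z : Module.End (ZMod p) W) w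
      one_smul := fun w => rfl
      mul_smul := fun a b w => rfl
      smul_zero := fun z => map_zero (z : Module.End (ZMod p) W)
      smul_add := fun z a b => map_add (z : Module.End (ZMod p) W) a b
      add_smul := fun a b w => rfl
      zero_smul := fun w => rfl }
  have hpS : (p : S) = 0 := by
    apply Subtype.ext
    have h1 : ((p : S) : Module.End (ZMod p) W) = (p : Module.End (ZMod p) W) :=
      map_natCast S.subtype p
    rw [h1]
    have h2 : ((p : ZMod p) : ZMod p) = 0 := CharP.cast_eq_zero (ZMod p) p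
    have h3 : (algebraMap (ZMod p) (Module.End (ZMod p) W) (p : ZMod p)) =
        (p : Module.End (ZMod p) W) := map_natCast _ _
    rw [← h3, h2, map_zero]
    rfl
  have hchar : CharP S p :=
    ringChar.of_eq (CharP.ringChar_of_prime_eq_zero (Fact.out : p.Prime) hpS)
  let χ₀ : U →* S :=
    { toFun := fun u => ⟨ρ (u : L), st2_mem u.2⟩
      map_one' := Subtype.ext (map_one ρ)
      map_mul' := fun a b => Subtype.ext (map_mul ρ (a : L) (b : L)) }
  let χ : U →* Sˣ := MonoidHom.toHomUnits χ₀
  have hχ : ∀ u, ((χ u : Sˣ) : S) = ⟨ρ (u : L), st2_mem u.2⟩ := fun u => rfl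
  let c : L → S → S := fun g z => ⟨cj ρ g (z : Module.End (ZMod p) W),
    aa_cj (ρ := ρ) (A := U) hA g (z : Module.End (ZMod p) W) z.2⟩
  have hc : ∀ g g' z, c (g * g') z = c g (c g' z) := fun g g' z =>
    Subtype.ext (cj_mul (ρ := ρ) g g' (z : Module.End (ZMod p) W))
  have hc1 : ∀ z, c 1 z = z := fun z =>
    Subtype.ext (cj_one (ρ := ρ) (z : Module.End (ZMod p) W))
  let σ₀ : L → (S ≃+* S) := fun g =>
    { toFun := c g
      invFun := c g⁻¹
      left_inv := fun z => by rw [← hc, inv_mul_cancel, hc1]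
      right_inv := fun z => by rw [← hc, mul_inv_cancel, hc1]
      map_mul' := fun z w => Subtype.ext (cj_hom (ρ := ρ) g (z : Module.End (ZMod p) W) w)
      map_add' := fun z w => Subtype.ext (cj_add (ρ := ρ) g (z : Module.End (ZMod p) W) w) }
  let σ : L →* (S ≃+* S) :=
    { toFun := σ₀
      map_one' := RingEquiv.ext fun z => hc1 z
      map_mul' := fun g g' => RingEquiv.ext fun z => hc g g' z }
  have hσ : ∀ g z, σ g z = c g z := fun g z => rfl
  have hgen : ∀ K₁ : Subring S, (∀ u, ((χ u : Sˣ) : S) ∈ K₁) → K₁ = ⊤ := by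
    intro K₁ hK₁
    rw [eq_top_iff]
    rintro ⟨z, hz⟩ -
    refine Algebra.adjoin_induction (p := fun z hz => (⟨z, hz⟩ : S) ∈ K₁) ?_ ?_ ?_ ?_ hz
    · rintro _ ⟨a, ha, rfl⟩
      exact hK₁ ⟨a, ha⟩
    · intro r
      have h1 : (⟨algebraMap (ZMod p) (Module.End (ZMod p) W) r, S.algebraMap_mem r⟩ : S) =
          ((r.val : ℕ) : S) := by
        apply Subtype.ext
        have h2 : (((r.val : ℕ) : S) : Module.End (ZMod p) W) =
            ((r.val : ℕ) : Module.End (ZMod p) W) := map_natCast S.subtype _
        rw [h2]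
        show algebraMap (ZMod p) (Module.End (ZMod p) W) r = _
        conv_lhs => rw [← ZMod.natCast_zmod_val r]
        exact map_natCast _ _
      rw [h1]
      exact natCast_mem K₁ _
    · intro x y hx hy h1 h2
      exact K₁.add_mem h1 h2
    · intro x y hx hy h1 h2
      exact K₁.mul_mem h1 h2
  refine ⟨S, iF, hfS, hchar, iM, χ, σ, ?_, fun u w => rfl, fun g z w =>
    cj_app (ρ := ρ) g (z : Module.End (ZMod p) W) w, ?_, hgen⟩
  · intro a b hab
    have h1 : ((χ a : Sˣ) : S) = ((χ b : Sˣ) : S) := by rw [hab]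
    rw [hχ, hχ] at h1
    have h2 := congrArg Subtype.val h1
    exact Subtype.ext (st2_rho h fun w => LinearMap.congr_fun h2 w)
  · intro g
    constructor
    · intro hg u hu
      have h1 : c g ⟨ρ u, st2_mem hu⟩ = ⟨ρ u, st2_mem hu⟩ := by
        rw [← hσ, hg]
        rfl
      have h2 : cj ρ g (ρ u) = ρ u := congrArg Subtype.val h1
      have h3 : ρ (g * u * g⁻¹) = ρ u := by
        rw [← h2, cj, map_mul, map_mul]
      have h4 : g * u * g⁻¹ = u := st2_rho h fun w => by rw [h3]
      exact mul_inv_eq_iff_eq_mul.1 h4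
    · intro hg
      let K₁ : Subring S :=
        { carrier := {z | σ g z = z}
          mul_mem' := by
            intro a b ha hb
            show σ g (a * b) = a * b
            rw [map_mul, show σ g a = a from ha, show σ g b = b from hb]
          one_mem' := map_one (σ g)
          add_mem' := by
            intro a b ha hb
            show σ g (a + b) = a + b
            rw [map_add, show σ g a = a from ha, show σ g b = b from hb]
          zero_mem' := map_zero (σ g)
          neg_mem' := by
            intro a ha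
            show σ g (-a) = -a
            rw [map_neg, show σ g a = a from ha] }
      have h1 : K₁ = ⊤ := by
        apply hgen
        intro u
        show c g _ = _
        apply Subtype.ext
        show cj ρ g (ρ (u : L)) = ρ (u : L)
        rw [cj, ← map_mul, ← map_mul, hg u u.2, mul_inv_cancel_right]
      refine RingEquiv.ext fun z => ?_
      have h2 : z ∈ K₁ := by rw [h1]; trivial
      exact h2
-- END st2

-- BEGIN st3
/-- (st3, size 2) PROOF. Finite subgroup of `Kˣ` (`qp_fld`). -/
theorem qp_cyc (h : QP ρ U) : IsCyclic U := by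
  obtain ⟨K, _, _, _, _, χ, _, hχ, -⟩ := qp_fld h
  refine isCyclic_of_injective_ringHom ((Units.coeHom K).comp χ) ?_
  intro a b hab
  exact hχ (Units.ext hab)
-- END st3

-- BEGIN st4
/-- (st4, size 3) PROOF. `K`, `σ` from `qp_fld`, `K` has `p ^ a` elements, `a > 0`; the automorphism group of `K` is
cyclic of order `a` (Frobenius; Mathlib: `card (K ≃ₐ[ZMod p] K) = finrank`, Galois), it contains
`L / centralizer U` (kernel of `σ`). Fixed points: let `x` be outside the centralizer with `x ^ l = 1`, `τ = σ x`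
has order `l`. Fixed field `K₀`, `[K : K₀] = l`. The fixed vectors `C` of `x` are a `K₀`-subspace;
vectors of `C` which are independent over `K₀` are independent over `K` (shortest relation
`∑ c_i w_i = 0` with `c_1 = 1`, apply `x` and subtract), so `card W ≥ card K ^ d = (card K₀ ^ d) ^ l = card C ^ l`. -/
theorem qp_gal (h : QP ρ U) :
    ∃ a : ℕ, 0 < a ∧ Nat.card U ∣ p ^ a - 1 ∧
      (Subgroup.centralizer (U : Set L)).index ∣ a ∧ Nat.card (AA ρ U) = p ^ a ∧
      (∃ d : ℕ, 0 < d ∧ Nat.card W = (p ^ a) ^ d) ∧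
      ∀ (l : ℕ) (x : L), l.Prime → x ^ l = 1 → x ∉ Subgroup.centralizer (U : Set L) →
        Nat.card {w : W // ρ x w = w} ^ l ≤ Nat.card W := by
  classical
  obtain ⟨K, iF, iFin, iCh, iMod, χ, σ, hχ, hχρ, hσρ, hσ, hgen⟩ := qp_fld h
  have : Fintype K := Fintype.ofFinite K
  obtain ⟨a, _, ha⟩ := FiniteField.card K p
  have hK : Nat.card K = p ^ (a : ℕ) := by rw [Nat.card_eq_fintype_card, ha]
  refine ⟨a, a.pos, ?_, ?_, ?_, ?_, ?_⟩
  · have h1 : Nat.card U ∣ Nat.card Kˣ := Subgroup.card_dvd_of_injective χ hχ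
    rwa [Nat.card_units, hK] at h1
  · have hker : Subgroup.centralizer (U : Set L) = σ.ker := by
      ext g
      rw [MonoidHom.mem_ker, hσ, Subgroup.mem_centralizer_iff]
      exact ⟨fun h1 u hu => (h1 u hu).symm, fun h1 u hu => (h1 u hu).symm⟩
    let _ := ZMod.algebra K p
    have hcard : Nat.card (K ≃+* K) = a := by
      let e : (K ≃+* K) ≃ (K ≃ₐ[ZMod p] K) :=
        { toFun := fun f => AlgEquiv.ofRingEquiv (f := f) fun r => by
            have h1 : (f : K →+* K).comp (algebraMap (ZMod p) K) = algebraMap (ZMod p) K :=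
              Subsingleton.elim _ _
            exact congrArg (fun g : ZMod p →+* K => g r) h1
          invFun := fun f => f.toRingEquiv
          left_inv := fun f => by ext c; rfl
          right_inv := fun f => by ext c; rfl }
      rw [Nat.card_congr e, IsGalois.card_aut_eq_finrank]
      have h2 := Module.natCard_eq_pow_finrank (K := ZMod p) (V := K)
      rw [hK, Nat.card_zmod] at h2
      exact (Nat.pow_right_injective (Fact.out (p := p.Prime)).two_le h2).symm
    rw [hker, Subgroup.index_ker, ← hcard]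
    exact Subgroup.card_subgroup_dvd_card σ.range
  · let ι : K →+* Module.End (ZMod p) W :=
      { toFun := fun c => (DistribSMul.toAddMonoidHom W c).toZModLinearMap p
        map_one' := by
          refine LinearMap.ext fun w => ?_
          exact one_smul K w
        map_mul' := fun c d => by
          refine LinearMap.ext fun w => ?_
          exact mul_smul c d w
        map_zero' := by
          refine LinearMap.ext fun w => ?_
          exact zero_smul K w
        map_add' := fun c d => by
          refine LinearMap.ext fun w => ?_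
          exact add_smul c d w }
    have hι : ∀ c w, ι c w = c • w := fun _ _ => rfl
    have hinj : Function.Injective ι := ι.injective
    have hιχ : ∀ u : U, ι ((χ u : Kˣ) : K) = ρ (u : L) := by
      intro u
      refine LinearMap.ext fun w => ?_
      rw [hι, hχρ]
    have h1 : ∀ c, ι c ∈ AA ρ U := by
      have h2 : (AA ρ U).toSubring.comap ι = ⊤ := by
        refine hgen _ fun u => ?_
        change ι ((χ u : Kˣ) : K) ∈ AA ρ U
        rw [hιχ]
        exact Algebra.subset_adjoin ⟨u, u.2, rfl⟩
      intro c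
      have h3 : c ∈ (AA ρ U).toSubring.comap ι := by rw [h2]; exact Subring.mem_top c
      exact h3
    have h2 : ∀ z ∈ AA ρ U, ∃ c, ι c = z := by
      intro z hz
      refine Algebra.adjoin_induction (p := fun z _ => ∃ c, ι c = z) ?_ ?_ ?_ ?_ hz
      · rintro z ⟨u, hu, rfl⟩
        exact ⟨_, hιχ ⟨u, hu⟩⟩
      · intro r
        let _ := ZMod.algebra K p
        have h3 : ι.comp (algebraMap (ZMod p) K) = algebraMap (ZMod p) (Module.End (ZMod p) W) :=
          Subsingleton.elim _ _
        exact ⟨_, congrArg (fun g : ZMod p →+* Module.End (ZMod p) W => g r) h3⟩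
      · rintro y z _ _ ⟨c, rfl⟩ ⟨d, rfl⟩
        exact ⟨c + d, map_add ι c d⟩
      · rintro y z _ _ ⟨c, rfl⟩ ⟨d, rfl⟩
        exact ⟨c * d, map_mul ι c d⟩
    rw [← hK]
    refine (Nat.card_congr (Equiv.ofBijective (fun c : K => (⟨ι c, h1 c⟩ : AA ρ U)) ⟨?_, ?_⟩)).symm
    · intro c d hcd
      exact hinj (congrArg Subtype.val hcd)
    · rintro ⟨z, hz⟩
      obtain ⟨c, hc⟩ := h2 z hz
      exact ⟨c, Subtype.ext hc⟩
  · refine ⟨Module.finrank K W, Module.finrank_pos, ?_⟩
    rw [← hK]
    exact Module.natCard_eq_pow_finrank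
  · intro l x hl hxl hx
    have hτ1 : σ x ≠ 1 := by
      intro h1
      apply hx
      rw [Subgroup.mem_centralizer_iff]
      intro u hu
      exact ((hσ x).1 h1 u hu).symm
    have hτl : (σ x) ^ l = 1 := by rw [← map_pow, hxl, map_one]
    obtain ⟨b, hb⟩ : ∃ b, σ x b ≠ b := by
      by_contra hcon
      push Not at hcon
      exact hτ1 (RingEquiv.ext hcon)
    have hpow : ∀ n c, ((σ x) ^ (n + 1)) c = σ x (((σ x) ^ n) c) := by
      intro n c
      rw [pow_succ']
      rfl
    have hfixpow : ∀ (f : K ≃+* K) n c, f c = c → (f ^ n) c = c := by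
      intro f n c hc
      induction n with
      | zero => rfl
      | succ n ih =>
        rw [pow_succ']
        change f ((f ^ n) c) = c
        rw [ih, hc]
    have hdist : ∀ n : ℕ, 0 < n → n < l → ((σ x) ^ n) b ≠ b := by
      intro n hn hnl hbn
      have hcop : Nat.Coprime n l := (Nat.coprime_of_lt_prime hn.ne' hnl hl).symm
      obtain ⟨m, _, hm⟩ := Nat.exists_mul_mod_eq_one_of_coprime hcop hl.one_lt
      have h1 : (σ x) ^ (n * m) = σ x := by
        rw [← Nat.div_add_mod (n * m) l, hm, pow_add, pow_mul, hτl, one_pow, one_mul, pow_one]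
      have h2 := hfixpow ((σ x) ^ n) m b hbn
      rw [← pow_mul, h1] at h2
      exact hb h2
    have hvinj : Function.Injective (fun j : Fin l => ((σ x) ^ (j : ℕ)) b) := by
      have key : ∀ i j : ℕ, i < j → j < l → ((σ x) ^ i) b ≠ ((σ x) ^ j) b := by
        intro i j hij hjl h1
        apply hdist (j - i) (by omega) (by omega)
        have h2 : (σ x) ^ j = (σ x) ^ i * (σ x) ^ (j - i) := by
          rw [← pow_add]
          congr 1
          omega
        rw [h2] at h1
        exact (((σ x) ^ i).injective h1).symm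
      intro i j hij
      rcases lt_trichotomy (i : ℕ) j with h1 | h1 | h1
      · exact absurd hij (key i j h1 j.2)
      · exact Fin.ext h1
      · exact absurd hij.symm (key j i h1 i.2)
    have hinj : Function.Injective (fun u : Fin l → {w : W // ρ x w = w} =>
        ∑ i : Fin l, (b ^ (i : ℕ)) • ((u i : W))) := by
      intro u u' huu
      have h0 : ∑ i : Fin l, (b ^ (i : ℕ)) • ((u i : W) - u' i) = 0 := by
        have huu' : ∑ i : Fin l, (b ^ (i : ℕ)) • (u i : W) =
          ∑ i : Fin l, (b ^ (i : ℕ)) • (u' i : W) := huu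
        simp only [smul_sub, Finset.sum_sub_distrib, huu', sub_self]
      have hfix : ∀ i, ρ x ((u i : W) - u' i) = (u i : W) - u' i := by
        intro i
        rw [map_sub, (u i).2, (u' i).2]
      have hj : ∀ j : ℕ, ∑ i : Fin l, (((σ x) ^ j) b) ^ (i : ℕ) • ((u i : W) - u' i) = 0 := by
        intro j
        induction j with
        | zero => exact h0
        | succ j ih =>
          have h1 := congrArg (ρ x) ih
          rw [map_sum, map_zero] at h1
          rw [← h1]
          refine Finset.sum_congr rfl fun i _ => ?_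
          rw [hσρ, hfix, map_pow, hpow]
      funext i
      apply Subtype.ext
      rw [← sub_eq_zero, ← Module.forall_dual_apply_eq_zero_iff K]
      intro f
      have h2 : (fun i => f ((u i : W) - u' i)) = 0 := by
        apply Matrix.eq_zero_of_forall_index_sum_pow_mul_eq_zero hvinj
        intro j
        have h3 := congrArg f (hj j)
        rw [map_sum, map_zero] at h3
        rw [← h3]
        refine Finset.sum_congr rfl fun i _ => ?_
        rw [map_smul, smul_eq_mul]
      exact congrFun h2 i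
    have h3 := Nat.card_le_card_of_injective _ hinj
    rwa [Nat.card_fun, Nat.card_fin] at h3
-- END st4

-- BEGIN st5
private theorem st5_pow {K : Type} [Field K] [Finite K] (s : K ≃+* K) :
    ∃ a : ℤ, ∀ u : Kˣ, s (u : K) = ((u ^ a : Kˣ) : K) := by
  obtain ⟨z, hz⟩ := IsCyclic.exists_generator (α := Kˣ)
  obtain ⟨a, ha⟩ := Subgroup.mem_zpowers_iff.1 (hz (Units.map (s : K →* K) z))
  refine ⟨a, fun u => ?_⟩
  obtain ⟨k, rfl⟩ := Subgroup.mem_zpowers_iff.1 (hz u)
  have h1 : Units.map (s : K →* K) (z ^ k) = (z ^ k) ^ a := by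
    rw [map_zpow, ← ha, ← zpow_mul, ← zpow_mul, mul_comm]
  exact congrArg Units.val h1

private theorem st5_comm {K : Type} [Field K] [Finite K] (s t : K ≃+* K) : s * t = t * s := by
  obtain ⟨a, ha⟩ := st5_pow s
  obtain ⟨b, hb⟩ := st5_pow t
  ext x
  rw [RingAut.mul_apply, RingAut.mul_apply]
  by_cases hx : x = 0
  · rw [hx, map_zero, map_zero, map_zero]
  · have h1 : x = ((Units.mk0 x hx : Kˣ) : K) := rfl
    rw [h1, ha, hb, ha, hb, ← zpow_mul, ← zpow_mul, mul_comm]

/-- (st5, size 2) PROOF. `L / centralizer U` embeds in the cyclic group `Aut K` (`qp_fld`), so it is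
commutative. -/
theorem qp_abq (h : QP ρ U) (x y : L) :
    x * y * x⁻¹ * y⁻¹ ∈ Subgroup.centralizer (U : Set L) := by
  obtain ⟨K, i1, i2, i3, i4, χ, σ, -, -, -, h4, -⟩ := qp_fld h
  rw [Subgroup.mem_centralizer_iff]
  intro u hu
  refine ((h4 (x * y * x⁻¹ * y⁻¹)).1 ?_ u hu).symm
  rw [map_mul, map_mul, map_mul, st5_comm (σ x) (σ y), ← map_mul, ← map_mul, ← map_mul,
    mul_inv_cancel_right, mul_inv_cancel, map_one]
-- END st5

-- BEGIN st6
/-- `N` is a minimal one among the normal subgroups of `L` with `U < N`, and it centralizes `U`. -/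
structure st6_mn {G : Type} [Group G] (U N : Subgroup G) : Prop where
  nor : N.Normal
  lt : U < N
  cU : ∀ x ∈ N, ∀ u ∈ U, x * u = u * x
  min : ∀ N' : Subgroup G, N'.Normal → U ≤ N' → N' ≤ N → N' = U ∨ N' = N

theorem st6_cn {G : Type} [Group G] (N : Subgroup G) (hN : N.Normal) :
    (Subgroup.centralizer (N : Set G)).Normal := by
  refine ⟨fun x hx g => ?_⟩
  rw [Subgroup.mem_centralizer_iff] at hx ⊢
  intro y hy
  have h1 := hx (g⁻¹ * y * g) (by simpa using hN.conj_mem y hy g⁻¹)
  have h2 : y * (g * x * g⁻¹) = g * ((g⁻¹ * y * g) * x) * g⁻¹ := by group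
  rw [h2, h1]
  group

/-- the elements which centralize `N` modulo `U` -/
def st6_cq {G : Type} [Group G] (U : Subgroup G) [U.Normal] (N : Subgroup G) : Subgroup G :=
  (Subgroup.centralizer ((N.map (QuotientGroup.mk' U) : Subgroup (G ⧸ U)) : Set (G ⧸ U))).comap
    (QuotientGroup.mk' U)

theorem st6_mem_cq {G : Type} [Group G] (U : Subgroup G) [U.Normal] (N : Subgroup G) (x : G) :
    x ∈ st6_cq U N ↔ ∀ y ∈ N, x * y * x⁻¹ * y⁻¹ ∈ U := by
  have key : ∀ y : G, ((QuotientGroup.mk' U y) * (QuotientGroup.mk' U x) =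
      (QuotientGroup.mk' U x) * (QuotientGroup.mk' U y)) ↔ x * y * x⁻¹ * y⁻¹ ∈ U := by
    intro y
    have h1 : x * y * x⁻¹ * y⁻¹ ∈ U ↔ (QuotientGroup.mk' U) (x * y * x⁻¹ * y⁻¹) = 1 := by
      rw [← MonoidHom.mem_ker, QuotientGroup.ker_mk']
    rw [h1, map_mul, map_mul, map_mul, map_inv, map_inv, mul_inv_eq_one, mul_inv_eq_iff_eq_mul]
    exact eq_comm
  constructor
  · intro h y hy
    have h2 := Subgroup.mem_centralizer_iff.1 (Subgroup.mem_comap.1 h) (QuotientGroup.mk' U y)
      ⟨y, hy, rfl⟩
    exact (key y).1 h2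
  · intro h
    refine Subgroup.mem_comap.2 (Subgroup.mem_centralizer_iff.2 ?_)
    rintro _ ⟨y, hy, rfl⟩
    exact (key y).2 (h y hy)

theorem st6_ex {G : Type} [Group G] [Finite G] {U : Subgroup G} (D : Subgroup G)
    (hD : D.Normal) (hUD : U < D) (hc : ∀ x ∈ D, ∀ u ∈ U, x * u = u * x) :
    ∃ N, st6_mn U N ∧ N ≤ D := by
  classical
  have hfin : Finite (Subgroup G) := inferInstance
  obtain ⟨N, hN, hmin⟩ := Set.Finite.exists_minimal (s := {N : Subgroup G | N.Normal ∧ U < N ∧ N ≤ D})
    (Set.toFinite _) ⟨D, hD, hUD, le_rfl⟩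
  obtain ⟨h1, h2, h3⟩ := hN
  refine ⟨N, ⟨h1, h2, fun x hx u hu => hc x (h3 hx) u hu, ?_⟩, h3⟩
  intro N' hN' hU hle
  rcases hU.eq_or_lt with h | h
  · exact Or.inl h.symm
  · exact Or.inr (le_antisymm hle (hmin ⟨hN', h, hle.trans h3⟩ hle))

/-- `[N, N] ≤ U` -/
theorem st6_nn {G : Type} [Group G] {U : Subgroup G} (hU : U.Normal)
    (hs : Group.IsSolvable G) {N : Subgroup G} (hN : st6_mn U N) : ⁅N, N⁆ ≤ U := by
  have := hU
  have := hN.nor
  have hn : (⁅N, N⁆ ⊔ U).Normal := inferInstance
  have hle : ⁅N, N⁆ ⊔ U ≤ N := sup_le (Subgroup.commutator_le_left N N) hN.lt.le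
  rcases hN.min _ hn le_sup_right hle with h | h
  · rw [← h]
    exact le_sup_left
  · exfalso
    have hper : ⁅N, N⁆ ≤ ⁅⁅N, N⁆, ⁅N, N⁆⁆ := by
      rw [Subgroup.commutator_le]
      intro x hx y hy
      rw [← h] at hx hy
      obtain ⟨x1, hx1, u, hu, rfl⟩ := Subgroup.mem_sup_of_normal_right.1 hx
      obtain ⟨y1, hy1, v, hv, rfl⟩ := Subgroup.mem_sup_of_normal_right.1 hy
      have hx1N : x1 ∈ N := Subgroup.commutator_le_left N N hx1
      have hy1N : y1 ∈ N := Subgroup.commutator_le_left N N hy1
      have hvN : v ∈ N := hN.lt.le hv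
      have e1 : u * y1 = y1 * u := (hN.cU y1 hy1N u hu).symm
      have e2 : u * v = v * u := (hN.cU v hvN u hu).symm
      have e3 : x1 * v = v * x1 := hN.cU x1 hx1N v hv
      have e4 : x1 * u * (y1 * v) * (x1 * u)⁻¹ * (y1 * v)⁻¹ = x1 * y1 * x1⁻¹ * y1⁻¹ := by
        have f1 : x1 * u * (y1 * v) = x1 * y1 * v * u := by
          calc x1 * u * (y1 * v) = x1 * (u * y1) * v := by group
            _ = x1 * (y1 * u) * v := by rw [e1]
            _ = x1 * y1 * (u * v) := by group
            _ = x1 * y1 * (v * u) := by rw [e2]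
            _ = x1 * y1 * v * u := by group
        have f2 : v * x1⁻¹ * v⁻¹ = x1⁻¹ := by
          rw [mul_inv_eq_iff_eq_mul, eq_inv_mul_iff_mul_eq, ← mul_assoc, e3]
          group
        calc x1 * u * (y1 * v) * (x1 * u)⁻¹ * (y1 * v)⁻¹
            = x1 * y1 * v * u * (x1 * u)⁻¹ * (y1 * v)⁻¹ := by rw [f1]
          _ = x1 * y1 * (v * x1⁻¹ * v⁻¹) * y1⁻¹ := by group
          _ = x1 * y1 * x1⁻¹ * y1⁻¹ := by rw [f2]
      change x1 * u * (y1 * v) * (x1 * u)⁻¹ * (y1 * v)⁻¹ ∈ _
      rw [e4]
      exact Subgroup.commutator_mem_commutator hx1 hy1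
    obtain ⟨n, hn0⟩ := hs.solvable
    have hall : ∀ k, ⁅N, N⁆ ≤ derivedSeries G k := by
      intro k
      induction k with
      | zero => rw [derivedSeries_zero]; exact le_top
      | succ k ih =>
        rw [derivedSeries_succ]
        exact hper.trans (Subgroup.commutator_mono ih ih)
    have hb : ⁅N, N⁆ ≤ ⊥ := hn0 ▸ hall n
    rw [le_bot_iff.1 hb, bot_sup_eq] at h
    exact hN.lt.ne h

theorem st6_pair {G : Type} [Group G] {U : Subgroup G} (hU : U.Normal)
    (hs : Group.IsSolvable G) {N N' : Subgroup G} (hN : st6_mn U N) (hN' : st6_mn U N') :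
    ⁅N, N'⁆ ≤ U := by
  have := hU
  have := hN.nor
  have := hN'.nor
  by_cases h : N = N'
  · subst h
    exact st6_nn hU hs hN
  · have h1 : N ⊓ N' = U := by
      rcases hN.min (N ⊓ N') inferInstance (le_inf hN.lt.le hN'.lt.le) inf_le_left with h2 | h2
      · exact h2
      · have h3 : N ≤ N' := by
          rw [← h2]
          exact inf_le_right
        rcases hN'.min N hN.nor hN.lt.le h3 with h4 | h4
        · exact absurd h4 hN.lt.ne'
        · exact absurd h4 h
    rw [← h1]
    exact Subgroup.commutator_le_inf N N'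

/-- an independent family of `st6_mn` subgroups with span `E` -/
def st6_fam {G : Type} [Group G] (U E : Subgroup G) : Prop :=
  ∃ (n : ℕ) (M : Fin n → Subgroup G), (∀ i, st6_mn U (M i)) ∧ E = U ⊔ ⨆ i, M i ∧
    U.relIndex E = ∏ i, U.relIndex (M i)

theorem st6_fam_normal {G : Type} [Group G] {U E : Subgroup G} (hU : U.Normal)
    (h : st6_fam U E) : E.Normal := by
  obtain ⟨n, M, h1, rfl, -⟩ := h
  have := hU
  have : ∀ i, (M i).Normal := fun i => (h1 i).nor
  infer_instance

theorem st6_step {G : Type} [Group G] [Finite G] {U E N : Subgroup G} (hU : U.Normal)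
    (h : st6_fam U E) (hN : st6_mn U N) (hNE : ¬ N ≤ E) : st6_fam U (E ⊔ N) := by
  have hEn := st6_fam_normal hU h
  obtain ⟨n, M, h1, h2, h3⟩ := h
  have := hU
  have := hEn
  have := hN.nor
  have hUE : U ≤ E := by
    rw [h2]
    exact le_sup_left
  have hi : N ⊓ E = U := by
    rcases hN.min (N ⊓ E) inferInstance (le_inf hN.lt.le hUE) inf_le_left with h4 | h4
    · exact h4
    · exact absurd (inf_eq_left.1 h4) hNE
  refine ⟨n + 1, Fin.cons N M, ?_, ?_, ?_⟩
  · intro i
    refine Fin.cases ?_ (fun j => ?_) i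
    · simpa using hN
    · simpa using h1 j
  · have h5 : (⨆ i, (Fin.cons N M : Fin (n + 1) → Subgroup G) i) = N ⊔ ⨆ i, M i := by
      apply le_antisymm
      · refine iSup_le fun i => ?_
        refine Fin.cases ?_ (fun j => ?_) i
        · exact le_sup_left
        · exact (le_iSup M j).trans le_sup_right
      · refine sup_le ?_ (iSup_le fun j => ?_)
        · exact le_iSup (fun i => (Fin.cons N M : Fin (n + 1) → Subgroup G) i) 0
        · exact le_iSup (fun i => (Fin.cons N M : Fin (n + 1) → Subgroup G) i) j.succ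
    rw [h5, h2, sup_assoc, sup_comm (⨆ i, M i) N]
  · rw [Fin.prod_univ_succ]
    simp only [Fin.cons_zero, Fin.cons_succ]
    rw [← Subgroup.relIndex_mul_relIndex U E (E ⊔ N) hUE le_sup_left, h3,
      Subgroup.relIndex_sup_left, ← Subgroup.inf_relIndex_left, hi, mul_comm]

/-- (st6, size 5) Existence of `E`. PROOF. `C = centralizer U`, normal. If `N` is normal in `L`, `U < N ≤ C`, and
minimal with this (over `U`), then `N / U` is a minimal normal subgroup of the solvable group `L / U`, so it is
commutative: `[N, N] ≤ U` (`[N,N] U` is normal, between `U` and `N`, and not `N` as `N / U` is solvable).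
`N` is not commutative (`mx`), and the elements `z ∈ N` which commute with `N` form a commutative normal subgroup
which contains `U`, so they are in `U` (`mx`). Choose a family `M i`, `i : Fin n`, of such `N` which is
independent over `U` (`U.relIndex (⨆ M i) = ∏ U.relIndex (M i)`) with the largest possible supremum `E`: then
every such `N` is in `E` (otherwise `N ⊓ E = U` by minimality and one can add `N`). `[M i, M j] ≤ U`: for `i ≠ j`
it is in `M i ⊓ M j = U`. `cen`: for `x ∈ E` which commutes with `E`: the elements `x ∈ E` which commute with all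
of `E` form a normal commutative subgroup of `L` which contains `U`, so they are in `U`. `big`: first, if `x ∈ C` commutes
with all of `E` then `x ∈ U`: otherwise `D = C ⊓ centralizer E` is normal, contains `U` properly, so it contains
an `N` as above (finite), `N ≤ E`, so `N` commutes with `N`, contradiction. Second, for `x ∈ C` with
`[x, E] ≤ U`: `y ↦ [x, y]` is a homomorphism `E → U` trivial on `U`; by `pairing duality` (`nd_rep` of Sq.lean) it is
`y ↦ [e, y]` for some `e ∈ E`, so `e⁻¹ x` commutes with `E`, so it is in `U`. `n = 0` only if `C ≤ U`. -/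
theorem qp_E (h : QP ρ U) (hs : Group.IsSolvable L) :
    ∃ (E : Subgroup L) (n : ℕ) (M : Fin n → Subgroup L), SE U E n M := by
  classical
  have hUn : U.Normal := h.ab.nor
  have := hUn
  have hfin : Finite (Subgroup L) := inferInstance
  have h0 : st6_fam U U := by
    refine ⟨0, Fin.elim0, fun i => i.elim0, ?_, ?_⟩
    · simp
    · simp
  obtain ⟨E, hE, hmax⟩ := Set.Finite.exists_maximal (s := {E : Subgroup L | st6_fam U E})
    (Set.toFinite _) ⟨U, h0⟩
  have hall : ∀ N, st6_mn U N → N ≤ E := by
    intro N hN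
    by_contra hNE
    exact hNE (le_sup_right.trans (hmax (st6_step hUn hE hN hNE) le_sup_left))
  have hEn : E.Normal := st6_fam_normal hUn hE
  have := hEn
  obtain ⟨n, M, hM, hEeq, hcard⟩ := hE
  have hUE : U ≤ E := by
    rw [hEeq]
    exact le_sup_left
  have hME : ∀ i, M i ≤ E := by
    intro i
    rw [hEeq]
    exact (le_iSup M i).trans le_sup_right
  have hcU : ∀ x ∈ E, ∀ u ∈ U, x * u = u * x := by
    have hle : E ≤ Subgroup.centralizer (U : Set L) := by
      rw [hEeq]
      refine sup_le ?_ (iSup_le fun i => ?_)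
      · intro x hx
        rw [Subgroup.mem_centralizer_iff]
        intro u hu
        exact h.ab.com u hu x hx
      · intro x hx
        rw [Subgroup.mem_centralizer_iff]
        intro u hu
        exact ((hM i).cU x hx u hu).symm
    intro x hx u hu
    exact (Subgroup.mem_centralizer_iff.1 (hle hx) u hu).symm
  have hcom : ∀ x ∈ E, ∀ y ∈ E, x * y * x⁻¹ * y⁻¹ ∈ U := by
    have hUc : ∀ N : Subgroup L, (∀ x ∈ N, ∀ u ∈ U, x * u = u * x) → U ≤ st6_cq U N := by
      intro N hN u hu
      rw [st6_mem_cq]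
      intro y hy
      have : u * y * u⁻¹ * y⁻¹ = 1 := by
        rw [← hN y hy u hu]
        group
      rw [this]
      exact U.one_mem
    have h1 : ∀ i, E ≤ st6_cq U (M i) := by
      intro i
      rw [hEeq]
      refine sup_le (hUc _ (hM i).cU) (iSup_le fun j => ?_)
      intro x hx
      rw [st6_mem_cq]
      intro y hy
      exact st6_pair hUn hs (hM j) (hM i) (Subgroup.commutator_mem_commutator hx hy)
    have h2 : E ≤ st6_cq U E := by
      conv_lhs => rw [hEeq]
      refine sup_le (hUc _ hcU) (iSup_le fun i => ?_)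
      intro x hx
      rw [st6_mem_cq]
      intro y hy
      have h3 := (st6_mem_cq U (M i) y).1 (h1 i hy) x hx
      have h4 := U.inv_mem h3
      have h5 : (y * x * y⁻¹ * x⁻¹)⁻¹ = x * y * x⁻¹ * y⁻¹ := by group
      rwa [h5] at h4
    intro x hx y hy
    exact (st6_mem_cq U E x).1 (h2 hx) y hy
  have hcen : ∀ x ∈ E, (∀ y ∈ E, x * y = y * x) → x ∈ U := by
    intro x hx hy
    have hZ : Ab (E ⊓ Subgroup.centralizer (E : Set L)) := by
      constructor
      · have := st6_cn E hEn
        infer_instance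
      · rintro a ⟨ha, ha'⟩ b ⟨hb, hb'⟩
        exact (Subgroup.mem_centralizer_iff.1 ha' b hb).symm
    refine h.mx _ hZ ?_ ⟨hx, ?_⟩
    · intro u hu
      refine ⟨hUE hu, ?_⟩
      change u ∈ Subgroup.centralizer (E : Set L)
      rw [Subgroup.mem_centralizer_iff]
      intro y hy
      exact hcU y hy u hu
    · change x ∈ Subgroup.centralizer (E : Set L)
      rw [Subgroup.mem_centralizer_iff]
      intro y hy'
      exact (hy y hy').symm
  have hbig1 : ∀ x, (∀ u ∈ U, x * u = u * x) → (∀ y ∈ E, x * y = y * x) → x ∈ U := by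
    intro x hx hy
    by_contra hxU
    have := st6_cn E hEn
    have := st6_cn U hUn
    have hUD : U < Subgroup.centralizer (U : Set L) ⊓ Subgroup.centralizer (E : Set L) := by
      refine lt_of_le_of_ne ?_ ?_
      · intro u hu
        refine ⟨?_, ?_⟩
        · change u ∈ Subgroup.centralizer (U : Set L)
          rw [Subgroup.mem_centralizer_iff]
          intro y hy
          exact h.ab.com y hy u hu
        · change u ∈ Subgroup.centralizer (E : Set L)
          rw [Subgroup.mem_centralizer_iff]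
          intro y hy
          exact hcU y hy u hu
      · intro heq
        apply hxU
        rw [heq]
        refine ⟨?_, ?_⟩
        · change x ∈ Subgroup.centralizer (U : Set L)
          rw [Subgroup.mem_centralizer_iff]
          intro y hy
          exact (hx y hy).symm
        · change x ∈ Subgroup.centralizer (E : Set L)
          rw [Subgroup.mem_centralizer_iff]
          intro y hy'
          exact (hy y hy').symm
    obtain ⟨N, hN, hND⟩ := st6_ex (U := U) _ inferInstance hUD (by
      rintro y ⟨hy1, -⟩ u hu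
      exact (Subgroup.mem_centralizer_iff.1 hy1 u hu).symm)
    have hNE := hall N hN
    have hNab : Ab N := by
      refine ⟨hN.nor, ?_⟩
      intro a ha b hb
      exact (Subgroup.mem_centralizer_iff.1 (hND ha).2 b (hNE hb)).symm
    exact absurd (h.mx N hNab hN.lt.le) (not_le_of_gt hN.lt)
  have hPrg : Prg U E := ⟨qp_cyc h, hUE, hcU, hcom, hcen⟩
  refine ⟨E, n, M, ⟨hEn, hUE, hcU, hcom, hcen, ?_, fun i => (hM i).nor, fun i => (hM i).lt, hME,
    fun i => (hM i).min, hcard, ?_, ?_⟩⟩
  · intro x hx hy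
    have hmulf : ∀ a b : E, x * (a * b : L) * x⁻¹ * (a * b : L)⁻¹ =
        (x * a * x⁻¹ * (a : L)⁻¹) * (x * b * x⁻¹ * (b : L)⁻¹) := by
      intro a b
      have h1 := hcU a a.2 _ (hy b b.2)
      calc x * (a * b : L) * x⁻¹ * (a * b : L)⁻¹
          = x * a * x⁻¹ * (x * b * x⁻¹ * (b : L)⁻¹) * (a : L)⁻¹ := by group
        _ = x * a * x⁻¹ * ((a : L)⁻¹ * (a * (x * b * x⁻¹ * (b : L)⁻¹))) * (a : L)⁻¹ := by group
        _ = x * a * x⁻¹ * ((a : L)⁻¹ * ((x * b * x⁻¹ * (b : L)⁻¹) * a)) * (a : L)⁻¹ := by rw [h1]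
        _ = (x * a * x⁻¹ * (a : L)⁻¹) * (x * b * x⁻¹ * (b : L)⁻¹) := by group
    let f : E →* U :=
      { toFun := fun y => ⟨x * y * x⁻¹ * (y : L)⁻¹, hy y y.2⟩
        map_one' := by
          apply Subtype.ext
          simp
        map_mul' := by
          intro a b
          apply Subtype.ext
          exact hmulf a b }
    obtain ⟨e, he, hef⟩ := nd_rep hPrg f (by
      intro u hu
      apply Subtype.ext
      change x * u * x⁻¹ * u⁻¹ = 1
      rw [hx u hu]
      group)
    have h2 : e⁻¹ * x ∈ U := by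
      apply hbig1
      · intro u hu
        have h3 := hcU e he u hu
        have h4 : e⁻¹ * u = u * e⁻¹ := by
          rw [inv_mul_eq_iff_eq_mul, ← mul_assoc, h3]
          group
        rw [mul_assoc, hx u hu, ← mul_assoc, h4, mul_assoc]
      · intro y hyE
        have h3 : e * y * e⁻¹ * y⁻¹ = x * y * x⁻¹ * y⁻¹ := hef ⟨y, hyE⟩
        have h4 : e * y * e⁻¹ = x * y * x⁻¹ := mul_right_cancel h3
        calc e⁻¹ * x * y = e⁻¹ * (x * y * x⁻¹) * x := by group
          _ = e⁻¹ * (e * y * e⁻¹) * x := by rw [h4]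
          _ = y * (e⁻¹ * x) := by group
    have h5 : x = e * (e⁻¹ * x) := by group
    rw [h5]
    exact E.mul_mem he (hUE h2)
  · intro N hU hN
    rw [hEeq]
    exact sup_le hU (iSup_le hN)
  · rintro ⟨x, hx, hxU⟩
    rcases Nat.eq_zero_or_pos n with hn | hn
    · exfalso
      subst hn
      have hEU : E = U := by
        rw [hEeq]
        simp
      have := st6_cn U hUn
      obtain ⟨N, hN, -⟩ := st6_ex (U := U) (Subgroup.centralizer (U : Set L)) inferInstance
        (by
          refine lt_of_le_of_ne ?_ ?_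
          · intro u hu
            rw [Subgroup.mem_centralizer_iff]
            intro y hy
            exact h.ab.com y hy u hu
          · intro heq
            apply hxU
            rw [heq, Subgroup.mem_centralizer_iff]
            intro y hy
            exact (hx y hy).symm)
        (by
          intro y hy u hu
          exact (Subgroup.mem_centralizer_iff.1 hy u hu).symm)
      have := hall N hN
      rw [hEU] at this
      exact absurd this (not_le_of_gt hN.lt)
    · exact hn
-- END st6

-- BEGIN st7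
private theorem st7_card (_h : QP ρ U) (K : Type) [Field K] [Finite K] [CharP K p] [Module K W]
    (χ : U →* Kˣ) (hχρ : ∀ (u : U) (w : W), ρ (u : L) w = ((χ u : Kˣ) : K) • w)
    (hgen : ∀ K₁ : Subring K, (∀ u, ((χ u : Kˣ) : K) ∈ K₁) → K₁ = ⊤) :
    Nat.card (AA ρ U) = Nat.card K := by
  classical
  let ι : K →+* Module.End (ZMod p) W :=
    { toFun := fun c => (DistribSMul.toAddMonoidHom W c).toZModLinearMap p
      map_one' := by
        refine LinearMap.ext fun w => ?_
        exact one_smul K w
      map_mul' := fun c d => by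
        refine LinearMap.ext fun w => ?_
        exact mul_smul c d w
      map_zero' := by
        refine LinearMap.ext fun w => ?_
        exact zero_smul K w
      map_add' := fun c d => by
        refine LinearMap.ext fun w => ?_
        exact add_smul c d w }
  have hι : ∀ c w, ι c w = c • w := fun _ _ => rfl
  have hinj : Function.Injective ι := ι.injective
  have hιχ : ∀ u : U, ι ((χ u : Kˣ) : K) = ρ (u : L) := by
    intro u
    refine LinearMap.ext fun w => ?_
    rw [hι, hχρ]
  have h1 : ∀ c, ι c ∈ AA ρ U := by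
    have h2 : (AA ρ U).toSubring.comap ι = ⊤ := by
      refine hgen _ fun u => ?_
      change ι ((χ u : Kˣ) : K) ∈ AA ρ U
      rw [hιχ]
      exact Algebra.subset_adjoin ⟨u, u.2, rfl⟩
    intro c
    have h3 : c ∈ (AA ρ U).toSubring.comap ι := by rw [h2]; exact Subring.mem_top c
    exact h3
  have h2 : ∀ z ∈ AA ρ U, ∃ c, ι c = z := by
    intro z hz
    refine Algebra.adjoin_induction (p := fun z _ => ∃ c, ι c = z) ?_ ?_ ?_ ?_ hz
    · rintro z ⟨u, hu, rfl⟩
      exact ⟨_, hιχ ⟨u, hu⟩⟩
    · intro r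
      let _ := ZMod.algebra K p
      have h3 : ι.comp (algebraMap (ZMod p) K) = algebraMap (ZMod p) (Module.End (ZMod p) W) :=
        Subsingleton.elim _ _
      exact ⟨_, congrArg (fun g : ZMod p →+* Module.End (ZMod p) W => g r) h3⟩
    · rintro y z _ _ ⟨c, rfl⟩ ⟨d, rfl⟩
      exact ⟨c + d, map_add ι c d⟩
    · rintro y z _ _ ⟨c, rfl⟩ ⟨d, rfl⟩
      exact ⟨c * d, map_mul ι c d⟩
  refine (Nat.card_congr (Equiv.ofBijective (fun c : K => (⟨ι c, h1 c⟩ : AA ρ U)) ⟨?_, ?_⟩)).symm
  · intro c d hcd
    exact hinj (congrArg Subtype.val hcd)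
  · rintro ⟨z, hz⟩
    obtain ⟨c, hc⟩ := h2 z hz
    exact ⟨c, Subtype.ext hc⟩

/-- (st7, size 5) The dimension bound. PROOF. `K` of `qp_fld`; the elements of `E` commute with `U`, so they act
`K`-linearly on `W`. Coset representatives of `U` in `E` are linearly independent over `K` in `End_K W`: take a
shortest nontrivial relation `∑ c_i ρ(y_i) = 0`, (more than one term); choose `y ∈ E` with `[y, y_1] ≠ [y, y_2]` (exists:
`y_1 y_2⁻¹ ∉ U`, so it does not commute with some `y`), conjugate the relation by `ρ y`: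
`∑ c_i χ([y, y_i]) ρ(y_i) = 0`, and subtract `χ([y, y_1])` times the first relation: shorter. So `e ^ 2 ≤ d ^ 2`
where `card W = (p ^ a) ^ d`, `d = dim_K W`, `dim End_K W = d ^ 2`. -/
theorem qp_dim (h : QP ρ U) {E : Subgroup L} {n : ℕ} {M : Fin n → Subgroup L}
    (hE : SE U E n M) (e : ℕ) (he : U.relIndex E = e ^ 2) :
    Nat.card (AA ρ U) ^ e ≤ Nat.card W := by
  classical
  obtain ⟨K, iF, iFin, iCh, iMod, χ, σ, hχ, hχρ, hσρ, hσ, hgen⟩ := qp_fld h
  rw [st7_card h K χ hχρ hgen, Module.natCard_eq_pow_finrank (K := K) (V := W)]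
  refine Nat.pow_le_pow_right Nat.card_pos ?_
  -- the action of `E` is `K`-linear
  have hlin : ∀ (x : L), x ∈ E → ∀ (c : K) (w : W), ρ x (c • w) = c • ρ x w := by
    intro x hx c w
    rw [hσρ, (hσ x).2 fun u hu => hE.cU x hx u hu]
    rfl
  let φ : E → Module.End K W := fun x =>
    { toFun := fun w => ρ (x : L) w
      map_add' := fun v w => map_add _ v w
      map_smul' := fun c w => hlin x x.2 c w }
  have hφ : ∀ (x : E) (w : W), φ x w = ρ (x : L) w := fun _ _ => rfl
  -- commutators
  let κ : E → E → K := fun y x =>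
    ((χ ⟨(y : L) * x * (y : L)⁻¹ * (x : L)⁻¹, hE.com y y.2 x x.2⟩ : Kˣ) : K)
  have hκ : ∀ (y x : E) (w : W), ρ (y : L) (ρ (x : L) (ρ ((y : L)⁻¹) w)) = κ y x • ρ (x : L) w := by
    intro y x w
    have h1 := hχρ ⟨(y : L) * x * (y : L)⁻¹ * (x : L)⁻¹, hE.com y y.2 x x.2⟩ (ρ (x : L) w)
    rw [← h1]
    change _ = ρ ((y : L) * x * (y : L)⁻¹ * (x : L)⁻¹) (ρ (x : L) w)
    rw [← Module.End.mul_apply (ρ ((y : L) * x * (y : L)⁻¹ * (x : L)⁻¹)), ← map_mul,
      inv_mul_cancel_right, map_mul, map_mul]
    rfl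
  -- independence
  have key : ∀ s : Finset (E ⧸ U.subgroupOf E), ∀ c : (E ⧸ U.subgroupOf E) → K,
      (∀ w, ∑ i ∈ s, c i • ρ (i.out : L) w = 0) → ∀ i ∈ s, c i = 0 := by
    intro s
    induction s using Finset.induction_on with
    | empty => intro c _ i hi; exact absurd hi (Finset.notMem_empty i)
    | insert a s ha ih =>
      intro c hc
      have h1 : ∀ y : E, ∀ i ∈ s, c i * (κ y i.out - κ y a.out) = 0 := by
        intro y
        refine ih (fun i => c i * (κ y i.out - κ y a.out)) ?_
        intro w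
        have h2 := hc w
        have h3 := congrArg (ρ (y : L)) (hc (ρ ((y : L)⁻¹) w))
        rw [map_sum, map_zero] at h3
        have h4 : ∑ i ∈ insert a s, (c i * κ y i.out) • ρ (i.out : L) w = 0 := by
          rw [← h3]
          refine Finset.sum_congr rfl fun i _ => ?_
          rw [hlin y y.2, hκ, smul_smul]
        have h5 : ∑ i ∈ insert a s, (c i * (κ y i.out - κ y a.out)) • ρ (i.out : L) w = 0 := by
          have h6 := congrArg (fun v => κ y a.out • v) h2
          simp only [smul_zero, Finset.smul_sum, smul_smul] at h6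
          have h7 : ∑ i ∈ insert a s, (c i * (κ y i.out - κ y a.out)) • ρ (i.out : L) w =
              ∑ i ∈ insert a s, (c i * κ y i.out) • ρ (i.out : L) w -
                ∑ i ∈ insert a s, (κ y a.out * c i) • ρ (i.out : L) w := by
            rw [← Finset.sum_sub_distrib]
            refine Finset.sum_congr rfl fun i _ => ?_
            rw [← sub_smul]
            congr 1
            ring
          rw [h7, h4, h6, sub_zero]
        rw [Finset.sum_insert ha, sub_self, mul_zero, zero_smul, zero_add] at h5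
        exact h5
      have h2 : ∀ i ∈ s, c i = 0 := by
        intro i hi
        by_contra hci
        have hia : i ≠ a := fun hh => ha (hh ▸ hi)
        apply hia
        have h3 : ∀ y : E, κ y i.out = κ y a.out := fun y =>
          sub_eq_zero.1 ((mul_eq_zero.1 (h1 y i hi)).resolve_left hci)
        -- `i.out⁻¹ * a.out` is central in `E`
        have h4 : ∀ y : E, (y : L) * i.out * (y : L)⁻¹ * (i.out : L)⁻¹ =
            (y : L) * a.out * (y : L)⁻¹ * (a.out : L)⁻¹ := by
          intro y
          have h5 := h3 y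
          have h6 := hχ (Units.ext h5)
          exact congrArg Subtype.val h6
        have h7 : (i.out : L)⁻¹ * a.out ∈ U := by
          refine hE.cen _ (mul_mem (inv_mem (i.out).2) (a.out).2) ?_
          intro y hy
          have h8 := h4 ⟨y, hy⟩
          have hcU := hE.com y hy (i.out : L) (i.out).2
          have hcU2 := hE.cU (i.out : L) (i.out).2 _ hcU
          have hcU3 := hE.cU (a.out : L) (a.out).2 _ hcU
          -- y i = z i y, y a = z a y
          set z := y * (i.out : L) * y⁻¹ * (i.out : L)⁻¹ with hz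
          have e1 : y * (i.out : L) = z * i.out * y := by rw [hz]; group
          have e2 : y * (a.out : L) = z * a.out * y := by
            have : z = y * (a.out : L) * y⁻¹ * (a.out : L)⁻¹ := h8
            rw [this]; group
          have e3 : y * ((i.out : L)⁻¹ * a.out) = (i.out : L)⁻¹ * a.out * y := by
            have e4 : y * (i.out : L)⁻¹ = (i.out : L)⁻¹ * z⁻¹ * y := by
              have : (i.out : L) * (y * (i.out : L)⁻¹) = z⁻¹ * y := by
                have e5 : (i.out : L) * y = z⁻¹ * (y * i.out) := by rw [e1]; group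
                rw [← mul_assoc, e5]; group
              rw [mul_assoc, ← this]; group
            calc y * ((i.out : L)⁻¹ * a.out) = (y * (i.out : L)⁻¹) * a.out := by group
              _ = (i.out : L)⁻¹ * z⁻¹ * (y * a.out) := by rw [e4]; group
              _ = (i.out : L)⁻¹ * z⁻¹ * (z * a.out * y) := by rw [e2]
              _ = (i.out : L)⁻¹ * a.out * y := by group
          exact e3.symm
        rw [← Quotient.out_eq' i, ← Quotient.out_eq' a]
        refine Quotient.sound' ?_
        rw [QuotientGroup.leftRel_apply, Subgroup.mem_subgroupOf]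
        exact h7
      have h3 : c a = 0 := by
        by_contra hca
        obtain ⟨w, hw⟩ := exists_ne (0 : W)
        have h4 := hc (ρ ((a.out : L)⁻¹) w)
        rw [Finset.sum_insert ha, Finset.sum_eq_zero fun i hi => by rw [h2 i hi, zero_smul],
          add_zero, ← Module.End.mul_apply, ← map_mul, mul_inv_cancel, map_one] at h4
        exact hw ((smul_eq_zero.1 h4).resolve_left hca)
      intro i hi
      rcases Finset.mem_insert.1 hi with rfl | hi
      · exact h3
      · exact h2 i hi
  have hli : LinearIndependent K (fun i : E ⧸ U.subgroupOf E => φ i.out) := by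
    rw [linearIndependent_iff']
    intro s c hc i hi
    refine key s c (fun w => ?_) i hi
    have h1 := congrArg (fun T : Module.End K W => T w) hc
    simpa [LinearMap.sum_apply, LinearMap.smul_apply, hφ] using h1
  have : Fintype (E ⧸ U.subgroupOf E) := Fintype.ofFinite _
  have h1 := hli.fintype_card_le_finrank
  rw [← Nat.card_eq_fintype_card, Module.finrank_linearMap] at h1
  have h2 : Nat.card (E ⧸ U.subgroupOf E) = e ^ 2 := he
  rw [h2] at h1
  have h3 : e ^ 2 ≤ (Module.finrank K W) ^ 2 := by rw [sq (Module.finrank K W)]; exact h1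
  exact (Nat.pow_le_pow_iff_left (by norm_num)).1 h3
-- END st7

-- BEGIN st8
/-- (st8, size 2) PROOF. `g` of `gen_act`, `y = g x g⁻¹`, `C_x`, `C_y = g C_x` the fixed vectors. For `w ∈ C_x ∩ C_y`: `w` is
fixed by `x`, `y`, so by `z = x y⁻¹ = x g x⁻¹ g⁻¹` and by `x z x⁻¹`, and by their commutator, which is in `U`
(`com`) and not 1, so `w = 0` (`qp_fpf`). So `C_x ⊕ C_y` is in `W`: `card C_x ^ 2 ≤ card W`. -/
theorem fix_half (h : QP ρ U) {E : Subgroup L} {n : ℕ} {M : Fin n → Subgroup L}
    (hE : SE U E n M) (l : ℕ) (hl : l.Prime)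
    (hl2 : l ≠ 2) (hlU : ¬ l ∣ Nat.card U) (x : L) (hx : ∀ u ∈ U, x * u = u * x) (hxl : x ^ l = 1)
    (hxE : x ∉ E) : Nat.card {w : W // ρ x w = w} ^ 2 ≤ Nat.card W := by
  obtain ⟨g, hgE, hg⟩ := gen_act (qp_cyc h) hE l hl hl2 hlU x hx hxl hxE
  have hg1 := hg (x * g * x⁻¹ * g⁻¹) rfl
  set z : L := x * g * x⁻¹ * g⁻¹ with hz
  have hzE : z ∈ E := E.mul_mem (hE.nor.conj_mem g hgE x) (E.inv_mem hgE)
  have hz2E : x * z * x⁻¹ ∈ E := hE.nor.conj_mem z hzE x
  have hinv : ∀ (k : L) (w : W), ρ k w = w → ρ k⁻¹ w = w := by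
    intro k w hk
    calc ρ k⁻¹ w = ρ k⁻¹ (ρ k w) := by rw [hk]
      _ = (ρ k⁻¹ * ρ k) w := rfl
      _ = w := by rw [← map_mul, inv_mul_cancel, map_one]; rfl
  have hmul : ∀ (a b : L) (w : W), ρ a w = w → ρ b w = w → ρ (a * b) w = w := by
    intro a b w ha hb
    calc ρ (a * b) w = ρ a (ρ b w) := by rw [map_mul]; rfl
      _ = w := by rw [hb, ha]
  have key : ∀ w : W, ρ x w = w → ρ (g * x * g⁻¹) w = w → w = 0 := by
    intro w h1 h2
    by_contra hw
    have h3 : ρ z w = w := by
      have e : z = x * (g * x * g⁻¹)⁻¹ := by rw [hz]; group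
      rw [e]
      exact hmul _ _ w h1 (hinv _ w h2)
    have h4 : ρ (x * z * x⁻¹) w = w := hmul _ _ w (hmul _ _ w h1 h3) (hinv _ w h1)
    have h5 : ρ (z * (x * z * x⁻¹) * z⁻¹ * (x * z * x⁻¹)⁻¹) w = w :=
      hmul _ _ w (hmul _ _ w (hmul _ _ w h3 h4) (hinv _ w h3)) (hinv _ w h4)
    have h6 := qp_fpf h U h.ab _ (hE.com z hzE _ hz2E) w hw h5
    apply hg1
    have h7 : z * (x * z * x⁻¹) * z⁻¹ * (x * z * x⁻¹)⁻¹ * ((x * z * x⁻¹) * z) =
        1 * ((x * z * x⁻¹) * z) := by rw [h6]
    have h8 : z * (x * z * x⁻¹) * z⁻¹ * (x * z * x⁻¹)⁻¹ * ((x * z * x⁻¹) * z) =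
        z * (x * z * x⁻¹) := by group
    rw [h8, one_mul] at h7
    exact h7
  rw [pow_two, ← Nat.card_prod]
  refine Nat.card_le_card_of_injective
    (fun q : {w : W // ρ x w = w} × {w : W // ρ x w = w} => (q.1 : W) + ρ g (q.2 : W)) ?_
  rintro ⟨⟨a, ha⟩, ⟨b, hb⟩⟩ ⟨⟨a', ha'⟩, ⟨b', hb'⟩⟩ hq
  have hq' : a + ρ g b = a' + ρ g b' := hq
  have e1 : a - a' = ρ g (b' - b) := by
    rw [map_sub]
    have := hq'
    rw [sub_eq_sub_iff_add_eq_add, this, add_comm]
  have e2 : ρ x (a - a') = a - a' := by rw [map_sub, ha, ha']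
  have e3 : ρ (g * x * g⁻¹) (a - a') = a - a' := by
    rw [e1]
    calc ρ (g * x * g⁻¹) (ρ g (b' - b)) = (ρ (g * x * g⁻¹) * ρ g) (b' - b) := rfl
      _ = ρ (g * x) (b' - b) := by rw [← map_mul, inv_mul_cancel_right]
      _ = ρ g (ρ x (b' - b)) := by rw [map_mul]; rfl
      _ = ρ g (b' - b) := by rw [map_sub, hb, hb']
  have e4 : a - a' = 0 := key _ e2 e3
  have e5 : b' - b = 0 := by
    have e6 : ρ g (b' - b) = 0 := by rw [← e1, e4]
    calc b' - b = (ρ g⁻¹ * ρ g) (b' - b) := by rw [← map_mul, inv_mul_cancel, map_one]; rfl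
      _ = ρ g⁻¹ (ρ g (b' - b)) := rfl
      _ = 0 := by rw [e6, map_zero]
  have e7 : a = a' := sub_eq_zero.mp e4
  have e8 : b = b' := (sub_eq_zero.mp e5).symm
  subst e7
  subst e8
  rfl
-- END st8

end

end Pool.Agent.Nas
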