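import Pool.Agent.Nas.Defs

/-! Systems of blocks of imprimitivity. -/

set_option autoImplicit false

namespace Pool.Agent.Nas

open Pool.Agent.Nan

section
variable {p : ℕ} [Fact p.Prime] {H X : Type} [Group H] [Finite H] [AddCommGroup X]
  [Module (ZMod p) X] [Finite X] {ρ : Representation (ZMod p) H X}

/-- The different translates of `W` under `K` are independent, and their sum is `V`. -/
def Blo (ρ : Representation (ZMod p) H X) (K : Subgroup H) (V W : Submodule (ZMod p) X) : Prop :=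
  W ≠ ⊥ ∧ sSupIndep {W' | ∃ k ∈ K, W' = W.map (ρ k)} ∧ sSup {W' | ∃ k ∈ K, W' = W.map (ρ k)} = V

-- BEGIN bs1
omit [Finite H] [Finite X] in
private theorem bs1_inj (g : H) : Function.Injective (ρ g) := by
  intro x y hxy
  have h1 : ∀ z, ρ g⁻¹ (ρ g z) = z := fun z => by
    rw [← Module.End.mul_apply, ← map_mul, inv_mul_cancel, map_one, Module.End.one_apply]
  rw [← h1 x, ← h1 y, hxy]

omit [Finite H] [Finite X] in
private theorem bs1_map_mul (V : Submodule (ZMod p) X) (g h : H) :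
    V.map (ρ (g * h)) = (V.map (ρ h)).map (ρ g) := by
  rw [map_mul]
  exact Submodule.map_comp _ _ _

omit [Finite H] [Finite X] in
private theorem bs1_map_one (V : Submodule (ZMod p) X) : V.map (ρ 1) = V := by
  rw [map_one]
  exact Submodule.map_id V

omit [Finite H] [Finite X] in
private theorem bs1_disj {a A B C : Submodule (ZMod p) X} (haA : a ≤ A) (hBA : B ≤ A)
    (hAC : Disjoint A C) (haB : Disjoint a B) : Disjoint a (B ⊔ C) := by
  rw [Submodule.disjoint_def] at *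
  intro x hx hx'
  obtain ⟨b, hb, c, hc, rfl⟩ := Submodule.mem_sup.1 hx'
  have hc0 : c = 0 := by
    apply hAC c _ hc
    have : c = b + c - b := by abel
    rw [this]
    exact A.sub_mem (haA hx) (hBA hb)
  rw [hc0, add_zero] at hx ⊢
  exact haB b hx hb

/-- (bs1, size 4) Blocks of blocks are blocks. PROOF. The translates of `W'` under `H` lie in the
translates of `W`: `W'.map (ρ h) ≤ W.map (ρ h)` (as `W' ≤ W`), and the translates of `W'` which lie in
`W.map (ρ h)` are exactly the `(W'.map (ρ k)).map (ρ h)`, `k ∈ Nm ρ W` (if `W'.map (ρ g) ≤ W.map (ρ h)`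
then `W.map (ρ g)` and `W.map (ρ h)` are equal, since different translates are disjoint and
`W' ≠ ⊥`). Independence in two steps. The sum is everything. -/
theorem blo_trans {W W' : Submodule (ZMod p) X} (h1 : Blo ρ ⊤ ⊤ W)
    (h2 : Blo ρ (Nm ρ W) W W') : Blo ρ ⊤ ⊤ W' := by
  obtain ⟨hW, hind, hsup⟩ := h1
  obtain ⟨hW', hind', hsup'⟩ := h2
  have hle : W' ≤ W := by
    rw [← hsup']
    exact le_sSup ⟨1, one_mem _, (bs1_map_one W').symm⟩
  refine ⟨hW', ?_, ?_⟩
  · rintro a ⟨g, -, rfl⟩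
    have hA : W.map (ρ g) ∈ {W' | ∃ k ∈ (⊤ : Subgroup H), W' = W.map (ρ k)} :=
      ⟨g, Subgroup.mem_top g, rfl⟩
    have hne : ∀ h : H, W'.map (ρ h) ≠ ⊥ := by
      intro h h0
      apply hW'
      rw [← Submodule.map_bot (ρ h)] at h0
      exact Submodule.map_injective_of_injective (bs1_inj h) h0
    have hN : Disjoint (W'.map (ρ g)) ((sSup ({V | ∃ k ∈ Nm ρ W, V = W'.map (ρ k)} \ {W'})).map
        (ρ g)) :=
      Submodule.disjoint_map (bs1_inj g) (hind' ⟨1, one_mem _, (bs1_map_one W').symm⟩)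
    refine (bs1_disj (Submodule.map_mono hle) ?_ (hind hA) hN).mono_right ?_
    · exact Submodule.map_mono ((sSup_le_sSup Set.sdiff_subset).trans hsup'.le)
    · refine sSup_le ?_
      rintro b ⟨⟨h, -, rfl⟩, hb⟩
      by_cases hc : W.map (ρ h) = W.map (ρ g)
      · refine le_sup_of_le_left ?_
        have hk : g⁻¹ * h ∈ Nm ρ W := by
          rw [mem_Nm, bs1_map_mul, hc, ← bs1_map_mul, inv_mul_cancel, bs1_map_one]
        have hb' : W'.map (ρ h) = (W'.map (ρ (g⁻¹ * h))).map (ρ g) := by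
          rw [← bs1_map_mul, mul_inv_cancel_left]
        rw [hb']
        refine Submodule.map_mono (le_sSup ⟨⟨_, hk, rfl⟩, ?_⟩)
        intro h3
        apply hb
        rw [Set.mem_singleton_iff] at h3 ⊢
        rw [hb', h3]
      · refine le_sup_of_le_right ?_
        exact (Submodule.map_mono hle).trans (le_sSup ⟨⟨h, Subgroup.mem_top h, rfl⟩, hc⟩)
  · rw [eq_top_iff, ← hsup]
    refine sSup_le ?_
    rintro b ⟨h, -, rfl⟩
    have h3 : W.map (ρ h) = (sSup {V | ∃ k ∈ Nm ρ W, V = W'.map (ρ k)}).map (ρ h) := by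
      rw [hsup']
    rw [h3, Submodule.map_le_iff_le_comap]
    refine sSup_le ?_
    rintro c ⟨k, -, rfl⟩
    rw [← Submodule.map_le_iff_le_comap, ← bs1_map_mul]
    exact le_sSup ⟨h * k, Subgroup.mem_top _, rfl⟩
-- END bs1

-- BEGIN bs2
/-- (bs2, size 3) PROOF. For `W' ≤ W` invariant under `Nm ρ W`, `W' ≠ ⊥`: the sum of all the `W'.map (ρ h)`
is invariant, so it is `⊤`; the part in `W` is `W'` (independence: different translates `W.map (ρ h)` are
independent and `W'.map (ρ h) ≤ W.map (ρ h)`; for `h ∈ Nm ρ W` it is `W'`). -/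
theorem blo_irr (hirr : Irrd ρ ⊤) {W : Submodule (ZMod p) X} (h1 : Blo ρ ⊤ ⊤ W) :
    ∀ W' ≤ W, Ivt ρ (Nm ρ W) W' → W' = ⊥ ∨ W' = W := by
  intro W' hle hinv
  by_cases hW' : W' = ⊥
  · exact Or.inl hW'
  right
  obtain ⟨-, hind, -⟩ := h1
  have hone : ∀ V : Submodule (ZMod p) X, V.map (ρ 1) = V := fun V => by
    rw [map_one]
    exact Submodule.map_id V
  have hmul : ∀ (V : Submodule (ZMod p) X) (g h : H),
      V.map (ρ (g * h)) = (V.map (ρ h)).map (ρ g) := fun V g h => by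
    rw [map_mul]
    exact Submodule.map_comp _ _ _
  have hleT : W' ≤ sSup {V | ∃ k ∈ (⊤ : Subgroup H), V = W'.map (ρ k)} :=
    le_sSup ⟨1, Subgroup.mem_top _, (hone W').symm⟩
  have hT : sSup {V | ∃ k ∈ (⊤ : Subgroup H), V = W'.map (ρ k)} = ⊤ := by
    refine (hirr _ ?_).resolve_left ?_
    · intro n _ w hw
      have h2 : sSup {V | ∃ k ∈ (⊤ : Subgroup H), V = W'.map (ρ k)} ≤
          (sSup {V | ∃ k ∈ (⊤ : Subgroup H), V = W'.map (ρ k)}).comap (ρ n) := by
        refine sSup_le ?_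
        rintro c ⟨k, -, rfl⟩
        rw [← Submodule.map_le_iff_le_comap, ← hmul]
        exact le_sSup ⟨n * k, Subgroup.mem_top _, rfl⟩
      exact h2 hw
    · intro h0
      rw [h0, le_bot_iff] at hleT
      exact hW' hleT
  refine le_antisymm hle ?_
  have h3 : (⊤ : Submodule (ZMod p) X) ≤
      W' ⊔ sSup ({V | ∃ k ∈ (⊤ : Subgroup H), V = W.map (ρ k)} \ {W}) := by
    rw [← hT]
    refine sSup_le ?_
    rintro c ⟨k, -, rfl⟩
    by_cases hk : W.map (ρ k) = W
    · refine le_sup_of_le_left ?_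
      rw [Submodule.map_le_iff_le_comap]
      intro w hw
      exact hinv k hk w hw
    · refine le_sup_of_le_right ?_
      exact (Submodule.map_mono hle).trans (le_sSup ⟨⟨k, Subgroup.mem_top k, rfl⟩, hk⟩)
  have h4 : Disjoint W (sSup ({V | ∃ k ∈ (⊤ : Subgroup H), V = W.map (ρ k)} \ {W})) :=
    hind ⟨1, Subgroup.mem_top _, (hone W).symm⟩
  intro w hw
  obtain ⟨b, hb, c, hc, hbc⟩ := Submodule.mem_sup.1 (h3 (Submodule.mem_top (x := w)))
  have hc0 : c = 0 := by
    rw [Submodule.disjoint_def] at h4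
    apply h4 c _ hc
    have : c = w - b := by rw [← hbc]; abel
    rw [this]
    exact W.sub_mem hw (hle hb)
  rw [hc0, add_zero] at hbc
  rw [← hbc]
  exact hb
-- END bs2

-- BEGIN bs3
private theorem bs3_eq {U V : Submodule (ZMod p) X} (h : U ≤ V) (hc : Nat.card V ≤ Nat.card U) :
    U = V := by
  apply SetLike.coe_injective
  refine Set.eq_of_subset_of_ncard_le h ?_ (Set.toFinite _)
  rw [← Nat.card_coe_set_eq, ← Nat.card_coe_set_eq]
  exact hc

private theorem bs3_card {V : Submodule (ZMod p) X} (h : H) :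
    Nat.card (V.map (ρ h)) = Nat.card V := by
  have hinj : Function.Injective (ρ h) := by
    intro x y hxy
    have h1 : ρ h⁻¹ (ρ h x) = ρ h⁻¹ (ρ h y) := by rw [hxy]
    have h2 : ∀ v, ρ h⁻¹ (ρ h v) = v := by
      intro v
      have h3 : (ρ h⁻¹ * ρ h) v = v := by
        rw [← map_mul, inv_mul_cancel, map_one]
        rfl
      exact h3
    rwa [h2, h2] at h1
  exact (Nat.card_congr (Submodule.equivMapOfInjective (ρ h) hinj V).toEquiv).symm

private theorem bs3_st {W : Submodule (ZMod p) X} {N : Subgroup H} (hN : N ≤ Nm ρ W)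
    {y : Module.End (ZMod p) X} (hy : y ∈ AA ρ N) : ∀ w ∈ W, y w ∈ W := by
  refine Algebra.adjoin_induction (p := fun y _ => ∀ w ∈ W, y w ∈ W) ?_ ?_ ?_ ?_ hy
  · rintro _ ⟨n, hn, rfl⟩ w hw
    have h1 : W.map (ρ n) = W := hN hn
    rw [← h1]
    exact Submodule.mem_map_of_mem hw
  · intro r w hw
    rw [Module.algebraMap_end_apply]
    exact W.smul_mem r hw
  · intro a b _ _ ha hb w hw
    rw [LinearMap.add_apply]
    exact W.add_mem (ha w hw) (hb w hw)
  · intro a b _ _ ha hb w hw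
    rw [Module.End.mul_apply]
    exact ha _ (hb w hw)

private theorem bs3_comm {W : Submodule (ZMod p) X} {N : Subgroup H} (hN : N ≤ Nm ρ W)
    (hc : ∀ a ∈ N, ∀ b ∈ N, ∀ w ∈ W, ρ a (ρ b w) = ρ b (ρ a w))
    {y y' : Module.End (ZMod p) X} (hy : y ∈ AA ρ N) (hy' : y' ∈ AA ρ N) :
    ∀ w ∈ W, y (y' w) = y' (y w) := by
  have h1 : ∀ a ∈ N, ∀ w ∈ W, ρ a (y' w) = y' (ρ a w) := by
    intro a ha
    refine Algebra.adjoin_induction (p := fun y' _ => ∀ w ∈ W, ρ a (y' w) = y' (ρ a w)) ?_ ?_ ?_ ?_ hy'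
    · rintro _ ⟨n, hn, rfl⟩ w hw
      exact hc a ha n hn w hw
    · intro r w _
      rw [Module.algebraMap_end_apply, Module.algebraMap_end_apply, map_smul]
    · intro b c _ _ hb hc w hw
      rw [LinearMap.add_apply, LinearMap.add_apply, map_add, hb w hw, hc w hw]
    · intro b c _ hc' hb hc w hw
      rw [Module.End.mul_apply, Module.End.mul_apply, hb _ (bs3_st hN hc' w hw), hc w hw]
  refine Algebra.adjoin_induction (p := fun y _ => ∀ w ∈ W, y (y' w) = y' (y w)) ?_ ?_ ?_ ?_ hy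
  · rintro _ ⟨n, hn, rfl⟩ w hw
    exact h1 n hn w hw
  · intro r w _
    rw [Module.algebraMap_end_apply, Module.algebraMap_end_apply, map_smul]
  · intro b c _ _ hb hc w hw
    rw [LinearMap.add_apply, LinearMap.add_apply, map_add, hb w hw, hc w hw]
  · intro b c _ hc' hb hc w hw
    rw [Module.End.mul_apply, Module.End.mul_apply, hc w hw, hb _ (bs3_st hN hc' w hw)]

private theorem bs3_cj {W : Submodule (ZMod p) X} {N : Subgroup H}
    (hn : ∀ g ∈ Nm ρ W, ∀ n ∈ N, g * n * g⁻¹ ∈ N) {g : H} (hg : g ∈ Nm ρ W)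
    {y : Module.End (ZMod p) X} (hy : y ∈ AA ρ N) : ρ g * y * ρ g⁻¹ ∈ AA ρ N := by
  have hgi : ρ g * ρ g⁻¹ = 1 := by rw [← map_mul, mul_inv_cancel, map_one]
  have hgi' : ρ g⁻¹ * ρ g = 1 := by rw [← map_mul, inv_mul_cancel, map_one]
  refine Algebra.adjoin_induction (p := fun y _ => ρ g * y * ρ g⁻¹ ∈ AA ρ N) ?_ ?_ ?_ ?_ hy
  · rintro _ ⟨n, hn', rfl⟩
    rw [← map_mul, ← map_mul]
    exact Algebra.subset_adjoin ⟨_, hn g hg n hn', rfl⟩
  · intro r
    rw [← Algebra.commutes, mul_assoc, hgi, mul_one]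
    exact Subalgebra.algebraMap_mem _ r
  · intro a b _ _ ha hb
    rw [mul_add, add_mul]
    exact add_mem ha hb
  · intro a b _ _ ha hb
    have h1 : ρ g * (a * b) * ρ g⁻¹ = (ρ g * a * ρ g⁻¹) * (ρ g * b * ρ g⁻¹) := by
      calc ρ g * (a * b) * ρ g⁻¹ = ρ g * a * 1 * b * ρ g⁻¹ := by rw [mul_one, mul_assoc (ρ g) a b]
        _ = ρ g * a * (ρ g⁻¹ * ρ g) * b * ρ g⁻¹ := by rw [hgi']
        _ = _ := by simp only [mul_assoc]
    rw [h1]
    exact mul_mem ha hb

private theorem bs3_map {W : Submodule (ZMod p) X} {g : H} (hg : g ∈ Nm ρ W)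
    (y : Module.End (ZMod p) X) : (W.map y).map (ρ g) = W.map (ρ g * y * ρ g⁻¹) := by
  have hg' : W.map (ρ g⁻¹) = W := (Nm ρ W).inv_mem hg
  calc (W.map y).map (ρ g) = ((W.map (ρ g⁻¹)).map y).map (ρ g) := by rw [hg']
    _ = (W.map (y * ρ g⁻¹)).map (ρ g) :=
      congrArg (Submodule.map (ρ g)) (Submodule.map_comp _ _ _).symm
    _ = W.map (ρ g * (y * ρ g⁻¹)) := (Submodule.map_comp _ _ _).symm
    _ = _ := by rw [mul_assoc]

/-- (bs3, size 5) PROOF. Let `B` be the image of `AA ρ N` in `Module.End (ZMod p) W` (restriction to the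
invariant subspace `W`): a finite commutative ring, normalized by `Nm ρ W`. (1) `B` is reduced: if `y ∈ B`,
`y ≠ 0`, `y ^ 2 = 0` then the ideal `I` of all nilpotent elements of the commutative ring `B` is nilpotent
(finite), `I ≠ 0`, it is invariant under conjugation, so the subspace `I W` (span of all `y w`) is invariant
under `Nm ρ W`, not zero, so it is `W`, and `W = I W = I ^ 2 W = .. = 0`, contradiction. (2) A power of `z` is
an idempotent `f` of `B` (finite), `f ≠ 0` (reduced) and `f ≠ 1` (`z` is not injective on `W`). Take an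
idempotent `e ≠ 0` of `B` with `e W` of minimal cardinality; `e ≠ 1` as `card (f W) < card W`. The conjugates
`g e g⁻¹`, `g ∈ Nm ρ W`, are idempotents of `B` with the same minimal cardinality, so two of them are
equal or have product zero (the product `e e'` is an idempotent with image in both). (3) `W' = e W`: its
translates are the `g e g⁻¹ W`; they are independent (orthogonal idempotents), and their sum is
invariant under `Nm ρ W`, so it is `W` (`hirr`). (For a group of order prime to `p` this is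
`pid_ex`, `pid_orth`, `pid_sum` of Nan/Td.lean.) -/
theorem blo_ref {W : Submodule (ZMod p) X}
    (hirr : ∀ W' ≤ W, Ivt ρ (Nm ρ W) W' → W' = ⊥ ∨ W' = W) (N : Subgroup H) (hN : N ≤ Nm ρ W)
    (hn : ∀ g ∈ Nm ρ W, ∀ n ∈ N, g * n * g⁻¹ ∈ N)
    (hc : ∀ a ∈ N, ∀ b ∈ N, ∀ w ∈ W, ρ a (ρ b w) = ρ b (ρ a w)) (z : Module.End (ZMod p) X)
    (hz : z ∈ AA ρ N) (h1 : ∃ w ∈ W, z w ≠ 0) (h2 : ∃ w ∈ W, z w = 0 ∧ w ≠ 0) :
    ∃ W' : Submodule (ZMod p) X, W' < W ∧ Blo ρ (Nm ρ W) W W' := by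
  classical
  have hex : ∃ m : ℕ, ∃ y ∈ AA ρ N, W.map y ≠ ⊥ ∧ Nat.card (W.map y) = m := by
    refine ⟨_, z, hz, ?_, rfl⟩
    obtain ⟨w, hw, hzw⟩ := h1
    intro h0
    apply hzw
    have : z w ∈ W.map z := Submodule.mem_map_of_mem hw
    rw [h0] at this
    exact (Submodule.mem_bot _).1 this
  obtain ⟨y, hy, hy0, hym⟩ := Nat.find_spec hex
  have hmin : ∀ y' ∈ AA ρ N, W.map y' ≠ ⊥ → Nat.card (W.map y) ≤ Nat.card (W.map y') := by
    intro y' h h'
    rw [hym]
    exact Nat.find_min' hex ⟨y', h, h', rfl⟩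
  have hle : ∀ y' ∈ AA ρ N, W.map y' ≤ W := by
    intro y' h
    rintro _ ⟨w, hw, rfl⟩
    exact bs3_st hN h w hw
  -- two minimal images are equal or killed
  have hkey : ∀ y1 ∈ AA ρ N, ∀ y2 ∈ AA ρ N, Nat.card (W.map y1) = Nat.card (W.map y) →
      Nat.card (W.map y2) = Nat.card (W.map y) → W.map y1 ≠ W.map y2 → ∀ v ∈ W.map y2, y1 v = 0 := by
    intro y1 k1 y2 k2 c1 c2 hne
    have e1 : W.map (y1 * y2) ≤ W.map y1 := by
      rintro _ ⟨w, hw, rfl⟩
      exact ⟨y2 w, bs3_st hN k2 w hw, rfl⟩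
    have e2 : W.map (y1 * y2) ≤ W.map y2 := by
      rintro _ ⟨w, hw, rfl⟩
      refine ⟨y1 w, bs3_st hN k1 w hw, ?_⟩
      rw [Module.End.mul_apply]
      exact bs3_comm hN hc k2 k1 w hw
    by_contra hcon
    push Not at hcon
    obtain ⟨v, hv, hv0⟩ := hcon
    obtain ⟨w, hw, rfl⟩ := hv
    have e3 : W.map (y1 * y2) ≠ ⊥ := by
      intro h0
      apply hv0
      have : (y1 * y2) w ∈ W.map (y1 * y2) := Submodule.mem_map_of_mem hw
      rw [h0] at this
      exact (Submodule.mem_bot _).1 this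
    have e4 := hmin _ (mul_mem k1 k2) e3
    have e5 := bs3_eq e1 (by rw [c1]; exact e4)
    have e6 := bs3_eq e2 (by rw [c2]; exact e4)
    exact hne (e5.symm.trans e6)
  set T : Set (Submodule (ZMod p) X) := {W' | ∃ k ∈ Nm ρ W, W' = (W.map y).map (ρ k)} with hT
  have hTy : ∀ V ∈ T, ∃ y1 ∈ AA ρ N, V = W.map y1 ∧ Nat.card (W.map y1) = Nat.card (W.map y) := by
    rintro V ⟨k, hk, rfl⟩
    refine ⟨_, bs3_cj hn hk hy, bs3_map hk y, ?_⟩
    rw [← bs3_map hk y]
    exact bs3_card k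
  have hmemT : W.map y ∈ T := by
    refine ⟨1, one_mem _, ?_⟩
    rw [map_one]
    exact (Submodule.map_id _).symm
  have hTW : sSup T = W := by
    have hle' : sSup T ≤ W := by
      refine sSup_le ?_
      intro V hV
      obtain ⟨y1, k1, rfl, _⟩ := hTy V hV
      exact hle y1 k1
    rcases hirr (sSup T) hle' (by
      intro k hk w hw
      have h3 : sSup T ≤ (sSup T).comap (ρ k) := by
        refine sSup_le ?_
        rintro V ⟨g, hg, rfl⟩ v hv
        have h4 : ((W.map y).map (ρ g)).map (ρ k) ∈ T := by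
          refine ⟨k * g, mul_mem hk hg, ?_⟩
          rw [map_mul]
          exact (Submodule.map_comp _ _ _).symm
        exact (le_sSup h4) (Submodule.mem_map_of_mem hv)
      exact h3 hw) with h0 | h0
    · exfalso
      apply hy0
      rw [eq_bot_iff, ← h0]
      exact le_sSup hmemT
    · exact h0
  refine ⟨W.map y, ?_, hy0, ?_, hTW⟩
  · refine lt_of_le_of_ne (hle y hy) ?_
    intro heq
    obtain ⟨w0, hw0, hz0, hne0⟩ := h2
    have hzb : W.map z ≠ ⊥ := by
      obtain ⟨w, hw, hzw⟩ := h1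
      intro h0
      apply hzw
      have : z w ∈ W.map z := Submodule.mem_map_of_mem hw
      rw [h0] at this
      exact (Submodule.mem_bot _).1 this
    have e1 := hmin z hz hzb
    rw [heq] at e1
    have e2 : W.map z = W := bs3_eq (hle z hz) e1
    let r : W → W := fun w => ⟨z w, bs3_st hN hz w w.2⟩
    have hsur : Function.Surjective r := by
      rintro ⟨v, hv⟩
      have hv' := hv
      rw [← e2] at hv'
      obtain ⟨w, hw, hwv⟩ := hv'
      exact ⟨⟨w, hw⟩, Subtype.ext hwv⟩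
    have hinj : Function.Injective r := Finite.injective_iff_surjective.2 hsur
    apply hne0
    have e3 : r ⟨w0, hw0⟩ = r 0 := by
      apply Subtype.ext
      show z w0 = z ((0 : W) : X)
      rw [hz0, Submodule.coe_zero, map_zero]
    exact congrArg Subtype.val (hinj e3)
  · intro V hV
    obtain ⟨y1, k1, hV1, c1⟩ := hTy V hV
    have hkill : sSup (T \ {V}) ≤ LinearMap.ker y1 := by
      refine sSup_le ?_
      rintro V' ⟨hV', hne⟩ v hv
      obtain ⟨y2, k2, hV2, c2⟩ := hTy V' hV'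
      rw [LinearMap.mem_ker]
      refine hkey y1 k1 y2 k2 c1 c2 ?_ v (by rw [← hV2]; exact hv)
      rw [← hV1, ← hV2]
      intro h
      exact hne h.symm
    have hVmap : V.map y1 = V := by
      have e1 : W = V ⊔ sSup (T \ {V}) := by
        refine le_antisymm ?_ ?_
        · rw [← hTW]
          refine sSup_le ?_
          intro V' hV'
          by_cases h : V' = V
          · rw [h]
            exact le_sup_left
          · exact le_trans (le_sSup (show V' ∈ T \ {V} from ⟨hV', h⟩)) le_sup_right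
        · refine sup_le ?_ ?_
          · calc V ≤ sSup T := le_sSup hV
              _ = W := hTW
          · calc sSup (T \ {V}) ≤ sSup T := sSup_le_sSup Set.sdiff_subset
              _ = W := hTW
      have e2 : (sSup (T \ {V})).map y1 = ⊥ := by
        rw [eq_bot_iff]
        rintro _ ⟨v, hv, rfl⟩
        exact (Submodule.mem_bot _).2 (LinearMap.mem_ker.1 (hkill hv))
      calc V.map y1 = V.map y1 ⊔ (sSup (T \ {V})).map y1 := by rw [e2, sup_bot_eq]
        _ = (V ⊔ sSup (T \ {V})).map y1 := (Submodule.map_sup _ _ _).symm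
        _ = W.map y1 := by rw [← e1]
        _ = V := hV1.symm
    rw [Submodule.disjoint_def]
    intro v hv hv'
    have hv0 : y1 v = 0 := LinearMap.mem_ker.1 (hkill hv')
    have hst : ∀ u ∈ V, y1 u ∈ V := by
      intro u hu
      rw [← hVmap]
      exact Submodule.mem_map_of_mem hu
    let r : V → V := fun u => ⟨y1 u, hst u u.2⟩
    have hsur : Function.Surjective r := by
      rintro ⟨u, hu⟩
      have hu' := hu
      rw [← hVmap] at hu'
      obtain ⟨u', hu1, hu2⟩ := hu'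
      exact ⟨⟨u', hu1⟩, Subtype.ext hu2⟩
    have hinj : Function.Injective r := Finite.injective_iff_surjective.2 hsur
    have e3 : r ⟨v, hv⟩ = r 0 := by
      apply Subtype.ext
      show y1 v = y1 ((0 : V) : X)
      rw [hv0, Submodule.coe_zero, map_zero]
    exact congrArg Subtype.val (hinj e3)
-- END bs3

-- BEGIN bs4
private theorem bs4_mul (g h : H) (V : Submodule (ZMod p) X) :
    V.map (ρ (g * h)) = (V.map (ρ h)).map (ρ g) := by
  rw [map_mul]
  exact Submodule.map_comp _ _ _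

private theorem bs4_one (V : Submodule (ZMod p) X) : V.map (ρ 1) = V := by
  rw [map_one]
  exact Submodule.map_id V

private theorem bs4_app (g h : H) (v : X) : ρ (g * h) v = ρ g (ρ h v) := by
  rw [map_mul]
  rfl

private theorem bs4_ii (g : H) (v : X) : ρ g⁻¹ (ρ g v) = v := by
  rw [← bs4_app, inv_mul_cancel, map_one]
  rfl

private theorem bs4_ii' (g : H) (v : X) : ρ g (ρ g⁻¹ v) = v := by
  rw [← bs4_app, mul_inv_cancel, map_one]
  rfl

private theorem bs4_blo {W₀ : Submodule (ZMod p) X} (h0 : Blo ρ ⊤ ⊤ W₀) (g : H) :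
    Blo ρ ⊤ ⊤ (W₀.map (ρ g)) := by
  have hs : {W' | ∃ k ∈ (⊤ : Subgroup H), W' = (W₀.map (ρ g)).map (ρ k)} =
      {W' | ∃ k ∈ (⊤ : Subgroup H), W' = W₀.map (ρ k)} := by
    ext V
    constructor
    · rintro ⟨k, _, rfl⟩
      exact ⟨k * g, Subgroup.mem_top _, (bs4_mul k g W₀).symm⟩
    · rintro ⟨k, _, rfl⟩
      refine ⟨k * g⁻¹, Subgroup.mem_top _, ?_⟩
      rw [← bs4_mul, inv_mul_cancel_right]
  refine ⟨?_, ?_, ?_⟩
  · intro hb
    apply h0.1
    rw [← bs4_one (ρ := ρ) W₀, ← inv_mul_cancel g, bs4_mul, hb, Submodule.map_bot]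
  · rw [hs]
    exact h0.2.1
  · rw [hs]
    exact h0.2.2

/-- (bs4, size 4) PROOF. `W₀` with `Blo ρ ⊤ ⊤ W₀` and minimal cardinality (`⊤` is one). `J` = the
set of the translates of `W₀` as a subtype (finite), `W j = j`. `qp`: by `blo_ref`, `blo_trans` and minimality for
`W₀`; every block is a translate of `W₀`, and `Nm ρ (W₀.map (ρ h)) = h (Nm ρ W₀) h⁻¹`, so transport it by
conjugation (`cj`, `aa_cj`-like: `AA ρ (h N h⁻¹)` is the conjugate of `AA ρ N`). `U₀` = a subgroup of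
maximal cardinality among the `N ≤ Nm ρ W₀` which are normalized by `Nm ρ W₀`, contain the kernel
`{h | Tv ρ W₀ h}` of the action on `W₀` and are commutative on `W₀` (the kernel itself is one).
`UU j = {x | ∀ h, W₀.map (ρ h) = j → h⁻¹ x h ∈ U₀}` (equivalently for one such `h`). -/
theorem bs_ex [Nontrivial X] (hirr : Irrd ρ ⊤) :
    ∃ (J : Type) (_ : Finite J) (W : J → Submodule (ZMod p) X) (UU : J → Subgroup H),
      BS ρ W UU := by
  classical
  -- the minimal block
  have hex : ∃ m : ℕ, ∃ V : Submodule (ZMod p) X, Blo ρ ⊤ ⊤ V ∧ Nat.card V = m := by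
    refine ⟨_, ⊤, ⟨top_ne_bot, ?_, ?_⟩, rfl⟩
    · intro V hV
      have hVt : ∀ V' ∈ {W' | ∃ k ∈ (⊤ : Subgroup H), W' = (⊤ : Submodule (ZMod p) X).map (ρ k)},
          V' = ⊤ := by
        rintro V' ⟨k, _, rfl⟩
        rw [eq_top_iff]
        intro v _
        exact ⟨ρ k⁻¹ v, Submodule.mem_top, bs4_ii' k v⟩
      have : {W' | ∃ k ∈ (⊤ : Subgroup H), W' = (⊤ : Submodule (ZMod p) X).map (ρ k)} \ {V} = ∅ := by
        ext V'
        constructor
        · rintro ⟨h1, h2⟩
          exact h2 ((hVt V' h1).trans (hVt V hV).symm)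
        · intro h
          exact h.elim
      rw [this, sSup_empty]
      exact disjoint_bot_right
    · rw [eq_top_iff]
      refine le_sSup ⟨1, Subgroup.mem_top _, ?_⟩
      exact (bs4_one _).symm
  obtain ⟨W₀, hW0, hW0c⟩ := Nat.find_spec hex
  have hmin : ∀ V : Submodule (ZMod p) X, Blo ρ ⊤ ⊤ V → Nat.card W₀ ≤ Nat.card V := by
    intro V hV
    rw [hW0c]
    exact Nat.find_min' hex ⟨V, hV, rfl⟩
  -- the kernel on the block
  let K0 : Subgroup H :=
    { carrier := {h | Tv ρ W₀ h}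
      one_mem' := by
        intro w _
        rw [map_one]
        rfl
      mul_mem' := by
        intro a b ha hb w hw
        rw [bs4_app, hb w hw, ha w hw]
      inv_mem' := by
        intro a ha w hw
        have h1 : ρ a w = w := ha w hw
        calc ρ a⁻¹ w = ρ a⁻¹ (ρ a w) := by rw [h1]
          _ = w := bs4_ii a w }
  have hmem : ∀ g ∈ Nm ρ W₀, ∀ w ∈ W₀, ρ g w ∈ W₀ := by
    intro g hg w hw
    have h1 : W₀.map (ρ g) = W₀ := hg
    rw [← h1]
    exact Submodule.mem_map_of_mem hw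
  let good : Subgroup H → Prop := fun N => N ≤ Nm ρ W₀ ∧ (∀ g ∈ Nm ρ W₀, ∀ n ∈ N, g * n * g⁻¹ ∈ N) ∧
    (∀ a ∈ N, ∀ b ∈ N, ∀ w ∈ W₀, ρ a (ρ b w) = ρ b (ρ a w)) ∧ K0 ≤ N
  have hK0 : good K0 := by
    refine ⟨?_, ?_, ?_, le_rfl⟩
    · intro k hk
      show W₀.map (ρ k) = W₀
      refine le_antisymm ?_ ?_
      · rintro _ ⟨w, hw, rfl⟩
        rw [hk w hw]
        exact hw
      · intro w hw
        exact ⟨w, hw, hk w hw⟩
    · intro g hg n hn w hw
      rw [bs4_app, bs4_app, hn _ (hmem g⁻¹ (inv_mem hg) w hw)]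
      exact bs4_ii' g w
    · intro a ha b hb w hw
      rw [hb w hw, ha w hw, hb w hw]
  have hfinN : {N : Subgroup H | good N}.Finite := Set.toFinite _
  obtain ⟨U₀, hU0, hU0m⟩ := Set.exists_max_image {N : Subgroup H | good N} (fun N => Nat.card N) hfinN
    ⟨K0, hK0⟩
  obtain ⟨u1, u2, u3, u4⟩ := hU0
  let J : Type := {V : Submodule (ZMod p) X // ∃ k ∈ (⊤ : Subgroup H), V = W₀.map (ρ k)}
  have hJf : Finite J := Subtype.finite
  let Wf : J → Submodule (ZMod p) X := fun j => j.1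
  have hrep : ∀ j : J, ∃ h : H, W₀.map (ρ h) = Wf j := fun j => ⟨j.2.choose, j.2.choose_spec.2.symm⟩
  let UU : J → Subgroup H := fun j =>
    { carrier := {x | ∀ h : H, W₀.map (ρ h) = Wf j → h⁻¹ * x * h ∈ U₀}
      one_mem' := by
        intro h _
        rw [mul_one, inv_mul_cancel]
        exact one_mem _
      mul_mem' := by
        intro a b ha hb h hh
        have e : h⁻¹ * (a * b) * h = (h⁻¹ * a * h) * (h⁻¹ * b * h) := by group
        rw [e]
        exact mul_mem (ha h hh) (hb h hh)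
      inv_mem' := by
        intro a ha h hh
        have e : h⁻¹ * a⁻¹ * h = (h⁻¹ * a * h)⁻¹ := by group
        rw [e]
        exact inv_mem (ha h hh) }
  have hUU : ∀ (j : J) (h x : H), W₀.map (ρ h) = Wf j → h⁻¹ * x * h ∈ U₀ → x ∈ UU j := by
    intro j h x hh hx h' hh'
    have hk : h'⁻¹ * h ∈ Nm ρ W₀ := by
      show W₀.map (ρ (h'⁻¹ * h)) = W₀
      rw [bs4_mul, hh, ← hh', ← bs4_mul, inv_mul_cancel, bs4_one]
    have e : h'⁻¹ * x * h' = (h'⁻¹ * h) * (h⁻¹ * x * h) * (h'⁻¹ * h)⁻¹ := by group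
    rw [e]
    exact u2 _ hk _ hx
  -- conjugation to the block
  have hNm : ∀ (j : J) (h g : H), W₀.map (ρ h) = Wf j → (g ∈ Nm ρ (Wf j) ↔ h⁻¹ * g * h ∈ Nm ρ W₀) := by
    intro j h g hh
    show (Wf j).map (ρ g) = Wf j ↔ W₀.map (ρ (h⁻¹ * g * h)) = W₀
    rw [bs4_mul, bs4_mul, hh]
    constructor
    · intro h1
      rw [h1, ← hh, ← bs4_mul, inv_mul_cancel, bs4_one]
    · intro h1
      have h2 : (((Wf j).map (ρ g)).map (ρ h⁻¹)).map (ρ h) = (Wf j).map (ρ g) := by
        rw [← bs4_mul, mul_inv_cancel, bs4_one]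
      rw [← h2, h1, hh]
  have hWm : ∀ (j : J) (h : H), W₀.map (ρ h) = Wf j → ∀ w ∈ Wf j, ∃ w0 ∈ W₀, ρ h w0 = w := by
    intro j h hh w hw
    rw [← hh] at hw
    obtain ⟨w0, h1, h2⟩ := hw
    exact ⟨w0, h1, h2⟩
  have hWm' : ∀ (j : J) (h : H), W₀.map (ρ h) = Wf j → ∀ w ∈ W₀, ρ h w ∈ Wf j := by
    intro j h hh w hw
    rw [← hh]
    exact Submodule.mem_map_of_mem hw
  have hblo : ∀ j : J, Blo ρ ⊤ ⊤ (Wf j) := by
    intro j
    obtain ⟨h, hh⟩ := hrep j
    rw [← hh]
    exact bs4_blo hW0 h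
  have hcard : ∀ j : J, Nat.card (Wf j) = Nat.card W₀ := by
    intro j
    obtain ⟨h, hh⟩ := hrep j
    rw [← hh]
    exact bs3_card h
  have hcomU : ∀ (j : J), ∀ a ∈ UU j, ∀ b ∈ UU j, ∀ w ∈ Wf j, ρ a (ρ b w) = ρ b (ρ a w) := by
    intro j a ha b hb w hw
    obtain ⟨h, hh⟩ := hrep j
    obtain ⟨w0, hw0, rfl⟩ := hWm j h hh w hw
    have k := u3 _ (ha h hh) _ (hb h hh) w0 hw0
    have e1 : ∀ x y : H, ρ x (ρ y (ρ h w0)) = ρ h (ρ (h⁻¹ * x * h) (ρ (h⁻¹ * y * h) w0)) := by
      intro x y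
      rw [← bs4_app, ← bs4_app, ← bs4_app, ← bs4_app]
      congr 2
      group
    rw [e1, e1, k]
  refine ⟨J, hJf, Wf, UU, ?_⟩
  refine ⟨?_, ?_, ?_, ?_, ?_, ?_, ?_, ?_, hcomU, ?_, ?_, ?_⟩
  · exact (sSupIndep_iff _).1 hW0.2.1
  · rw [← hW0.2.2, sSup_eq_iSup']
    rfl
  · intro j
    exact (hblo j).1
  · intro h j
    obtain ⟨k, hk⟩ := hrep j
    refine ⟨⟨(Wf j).map (ρ h), h * k, Subgroup.mem_top _, ?_⟩, rfl⟩
    rw [bs4_mul, hk]
  · intro j j'
    obtain ⟨k, hk⟩ := hrep j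
    obtain ⟨k', hk'⟩ := hrep j'
    refine ⟨k' * k⁻¹, ?_⟩
    rw [bs4_mul, ← hk, ← bs4_mul k⁻¹ k, inv_mul_cancel, bs4_one, hk']
  · intro j N hN hn hc z hz
    by_contra hcon
    push Not at hcon
    obtain ⟨⟨w, hw, hw0⟩, w', hw', hz', hw'0⟩ := hcon
    obtain ⟨W', hlt, hW'⟩ := blo_ref (blo_irr hirr (hblo j)) N hN hn hc z hz ⟨w, hw, hw0⟩
      ⟨w', hw', hz', hw'0⟩
    have h1 := hmin W' (blo_trans (hblo j) hW')
    rw [← hcard j] at h1
    exact hlt.ne (bs3_eq hlt.le h1)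
  · intro j x hx
    obtain ⟨h, hh⟩ := hrep j
    rw [hNm j h x hh]
    exact u1 (hx h hh)
  · intro j g hg u hu
    obtain ⟨h, hh⟩ := hrep j
    refine hUU j h _ hh ?_
    have e : h⁻¹ * (g * u * g⁻¹) * h = (h⁻¹ * g * h) * (h⁻¹ * u * h) * (h⁻¹ * g * h)⁻¹ := by group
    rw [e]
    exact u2 _ ((hNm j h g hh).1 hg) _ (hu h hh)
  · intro j x hx
    obtain ⟨h, hh⟩ := hrep j
    refine hUU j h x hh (u4 ?_)
    intro w hw
    rw [bs4_app, bs4_app, hx _ (hWm' j h hh w hw)]
    exact bs4_ii h w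
  · intro j N hN hn hc hle x hx
    obtain ⟨h, hh⟩ := hrep j
    let N₀ : Subgroup H := N.comap (MulAut.conj h).toMonoidHom
    have hN0 : ∀ y : H, y ∈ N₀ ↔ h * y * h⁻¹ ∈ N := fun y => Iff.rfl
    have hg0 : good N₀ := by
      refine ⟨?_, ?_, ?_, ?_⟩
      · intro y hy
        have h1 := (hNm j h _ hh).1 (hN ((hN0 y).1 hy))
        have e : h⁻¹ * (h * y * h⁻¹) * h = y := by group
        rwa [e] at h1
      · intro g hg y hy
        rw [hN0]
        have hg' : h * g * h⁻¹ ∈ Nm ρ (Wf j) := by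
          rw [hNm j h _ hh]
          have e : h⁻¹ * (h * g * h⁻¹) * h = g := by group
          rw [e]
          exact hg
        have h1 := hn _ hg' _ ((hN0 y).1 hy)
        have e : h * g * h⁻¹ * (h * y * h⁻¹) * (h * g * h⁻¹)⁻¹ = h * (g * y * g⁻¹) * h⁻¹ := by group
        rwa [e] at h1
      · intro a ha b hb w hw
        have h1 := hc _ ((hN0 a).1 ha) _ ((hN0 b).1 hb) _ (hWm' j h hh w hw)
        have e1 : ∀ x y : H, ρ (h * x * h⁻¹) (ρ (h * y * h⁻¹) (ρ h w)) = ρ h (ρ x (ρ y w)) := by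
          intro x y
          rw [← bs4_app, ← bs4_app, ← bs4_app, ← bs4_app]
          congr 2
          group
        rw [e1, e1] at h1
        rw [← bs4_ii (ρ := ρ) h (ρ a (ρ b w)), h1, bs4_ii]
      · intro k hk
        rw [hN0]
        refine hle (hUU j h _ hh (u4 ?_))
        have e : h⁻¹ * (h * k * h⁻¹) * h = k := by group
        rw [e]
        exact hk
    have hUle : U₀ ≤ N₀ := by
      intro y hy
      rw [hN0]
      refine hle (hUU j h _ hh ?_)
      have e : h⁻¹ * (h * y * h⁻¹) * h = y := by group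
      rw [e]
      exact hy
    have hceq : U₀ = N₀ := Subgroup.eq_of_le_of_card_ge hUle (hU0m N₀ hg0)
    refine hUU j h x hh ?_
    rw [hceq, hN0]
    have e : h * (h⁻¹ * x * h) * h⁻¹ = x := by group
    rw [e]
    exact hx
  · intro h j j' hjj u hu
    obtain ⟨k, hk⟩ := hrep j
    have hk' : W₀.map (ρ (h * k)) = Wf j' := by
      rw [bs4_mul, hk]
      exact hjj
    refine hUU j' (h * k) _ hk' ?_
    have e : (h * k)⁻¹ * (h * u * h⁻¹) * (h * k) = k⁻¹ * u * k := by group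
    rw [e]
    exact hu k hk
-- END bs4

variable {J : Type} {W : J → Submodule (ZMod p) X} {UU : J → Subgroup H}

-- BEGIN bs5
/-- (bs5, size 2) PROOF. `qp` for `N = UU j` and `z = ρ u - 1 ∈ AA ρ (UU j)`. -/
theorem bs_fpf (h : BS ρ W UU) (j : J) (u : H) (hu : u ∈ UU j) (w : X) (hw : w ∈ W j)
    (h0 : w ≠ 0) (hf : ρ u w = w) : Tv ρ (W j) u := by
  have hz : ρ u - 1 ∈ AA ρ (UU j) :=
    Subalgebra.sub_mem _ (Algebra.subset_adjoin ⟨u, hu, rfl⟩) (one_mem _)
  rcases h.qp j (UU j) (h.uN j) (h.uNor j) (h.uCom j) _ hz with h1 | h1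
  · intro x hx
    have h2 := h1 x hx
    rw [LinearMap.sub_apply, Module.End.one_apply, sub_eq_zero] at h2
    exact h2
  · exact absurd (h1 w hw (by rw [LinearMap.sub_apply, Module.End.one_apply, hf, sub_self])) h0
-- END bs5

-- BEGIN bs6
/-- The representation of the stabilizer on `W`. -/
private def bs6_rep (ρ : Representation (ZMod p) H X) (W : Submodule (ZMod p) X) :
    Representation (ZMod p) (Nm ρ W) W where
  toFun g := (ρ (g : H)).restrict fun w hw => by
    have hg : W.map (ρ (g : H)) = W := g.2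
    have h1 : ρ (g : H) w ∈ W.map (ρ (g : H)) := Submodule.mem_map_of_mem hw
    rwa [hg] at h1
  map_one' := by
    ext w
    rw [LinearMap.restrict_apply]
    simp
  map_mul' g h := by
    ext w
    rw [LinearMap.restrict_apply]
    simp [LinearMap.restrict_apply]

private theorem bs6_apply (ρ : Representation (ZMod p) H X) (W : Submodule (ZMod p) X)
    (g : Nm ρ W) (w : W) :
    ((((Units.coeHom _).comp ((bs6_rep ρ W).toHomUnits).range.subtype
      (((bs6_rep ρ W).toHomUnits).rangeRestrict g) : Module.End (ZMod p) W) w : W) : X) =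
      ρ (g : H) w := rfl

private theorem bs6_fin {L : Type} [Group L] {W : Submodule (ZMod p) X} (N : Subgroup L)
    (ρL : Representation (ZMod p) L W) (π : Nm ρ W →* L)
    (hπ : ∀ (g : Nm ρ W) (w : W), ((ρL (π g) w : W) : X) = ρ (g : H) w)
    (hs : Function.Surjective π) (z : Module.End (ZMod p) W) (hz : z ∈ AA ρL N) :
    ∃ z' ∈ AA ρ ((N.comap π).map (Nm ρ W).subtype), ∀ w : W, ((z w : W) : X) = z' w := by
  induction hz using Algebra.adjoin_induction with
  | mem x hx =>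
    obtain ⟨n, hn, rfl⟩ := hx
    obtain ⟨g, rfl⟩ := hs n
    exact ⟨ρ (g : H), Algebra.subset_adjoin ⟨(g : H), ⟨g, hn, rfl⟩, rfl⟩, fun w => hπ g w⟩
  | algebraMap r =>
    refine ⟨algebraMap (ZMod p) _ r, Subalgebra.algebraMap_mem _ r, fun w => ?_⟩
    rw [Module.algebraMap_end_apply, Module.algebraMap_end_apply]
    rfl
  | add x y _ _ hx hy =>
    obtain ⟨x', hx', hx2⟩ := hx
    obtain ⟨y', hy', hy2⟩ := hy
    refine ⟨x' + y', add_mem hx' hy', fun w => ?_⟩
    rw [LinearMap.add_apply, LinearMap.add_apply, Submodule.coe_add, hx2, hy2]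
  | mul x y _ _ hx hy =>
    obtain ⟨x', hx', hx2⟩ := hx
    obtain ⟨y', hy', hy2⟩ := hy
    refine ⟨x' * y', mul_mem hx' hy', fun w => ?_⟩
    rw [Module.End.mul_apply, Module.End.mul_apply, hx2, hy2]

private theorem bs6_core (h : BS ρ W UU) (j : J) {L : Type} [Group L]
    (ρL : Representation (ZMod p) L (W j)) (π : Nm ρ (W j) →* L)
    (hπ : ∀ (g : Nm ρ (W j)) (w : W j), ((ρL (π g) w : W j) : X) = ρ (g : H) w)
    (hs : Function.Surjective π) (hf : ∀ l : L, (∀ w, ρL l w = w) → l = 1) :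
    QP ρL (((UU j).subgroupOf (Nm ρ (W j))).map π) := by
  have hN1 : ∀ N : Subgroup L, (N.comap π).map (Nm ρ (W j)).subtype ≤ Nm ρ (W j) := by
    rintro N x ⟨g, _, rfl⟩
    exact g.2
  have hN2 : ∀ N : Subgroup L, N.Normal → ∀ g ∈ Nm ρ (W j),
      ∀ n ∈ (N.comap π).map (Nm ρ (W j)).subtype,
        g * n * g⁻¹ ∈ (N.comap π).map (Nm ρ (W j)).subtype := by
    rintro N hN g hg n ⟨n0, hn0, rfl⟩
    refine ⟨⟨g, hg⟩ * n0 * ⟨g, hg⟩⁻¹, ?_, rfl⟩
    show π (⟨g, hg⟩ * n0 * ⟨g, hg⟩⁻¹) ∈ N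
    rw [map_mul, map_mul, map_inv]
    exact hN.conj_mem _ hn0 _
  have hN3 : ∀ N : Subgroup L, (∀ a ∈ N, ∀ b ∈ N, a * b = b * a) →
      ∀ a ∈ (N.comap π).map (Nm ρ (W j)).subtype, ∀ b ∈ (N.comap π).map (Nm ρ (W j)).subtype,
        ∀ w ∈ W j, ρ a (ρ b w) = ρ b (ρ a w) := by
    rintro N hN a ⟨a0, ha0, rfl⟩ b ⟨b0, hb0, rfl⟩ w hw
    have h0 : ρL (π a0) * ρL (π b0) = ρL (π b0) * ρL (π a0) :=
      calc ρL (π a0) * ρL (π b0) = ρL (π a0 * π b0) := (map_mul ρL _ _).symm
        _ = ρL (π b0 * π a0) := by rw [hN _ ha0 _ hb0]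
        _ = ρL (π b0) * ρL (π a0) := map_mul ρL _ _
    have h1 : ρL (π a0) (ρL (π b0) ⟨w, hw⟩) = ρL (π b0) (ρL (π a0) ⟨w, hw⟩) :=
      LinearMap.congr_fun h0 ⟨w, hw⟩
    have h2 := congrArg (fun v : W j => (v : X)) h1
    simp only [hπ] at h2
    exact h2
  refine ⟨hf, ?_, ⟨⟨?_⟩, ?_⟩, ?_⟩
  · intro N hN z hz
    obtain ⟨z', hz', hz2⟩ := bs6_fin (ρ := ρ) N ρL π hπ hs z hz
    rcases h.qp j _ (hN1 N) (hN2 N hN.nor) (hN3 N hN.com) z' hz' with h1 | h1
    · left
      ext w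
      rw [hz2 w, h1 w w.2]
      rfl
    · right
      intro w hw
      have h2 : z' (w : X) = 0 := by
        rw [← hz2 w, hw]
        rfl
      exact Subtype.ext (h1 w w.2 h2)
  · rintro u ⟨u0, hu0, rfl⟩ l
    obtain ⟨g, rfl⟩ := hs l
    refine ⟨g * u0 * g⁻¹, ?_, ?_⟩
    · exact Subgroup.mem_subgroupOf.mpr (h.uNor j g g.2 u0 (Subgroup.mem_subgroupOf.mp hu0))
    · rw [map_mul, map_mul, map_inv]
  · rintro a ⟨a0, ha0, rfl⟩ b ⟨b0, hb0, rfl⟩
    have h1 : (π a0 * π b0) * (π b0 * π a0)⁻¹ = 1 := by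
      rw [← map_mul, ← map_mul, ← map_inv, ← map_mul]
      refine hf _ fun w => Subtype.ext ?_
      rw [hπ]
      have h2 : ∀ x ∈ W j, ρ ((b0 * a0 : Nm ρ (W j)) : H) x = ρ ((a0 * b0 : Nm ρ (W j)) : H) x := by
        intro x hx
        have h3 := h.uCom j a0 (Subgroup.mem_subgroupOf.mp ha0) b0 (Subgroup.mem_subgroupOf.mp hb0)
          x hx
        rw [Subgroup.coe_mul, Subgroup.coe_mul, map_mul, map_mul, Module.End.mul_apply,
          Module.End.mul_apply, h3]
      rw [Subgroup.coe_mul, map_mul, Module.End.mul_apply]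
      have h4 : ρ (((b0 * a0)⁻¹ : Nm ρ (W j)) : H) (w : X) ∈ W j := by
        rw [← hπ]
        exact (ρL (π (b0 * a0)⁻¹) w).2
      rw [← h2 _ h4, ← Module.End.mul_apply, ← map_mul, ← Subgroup.coe_mul, mul_inv_cancel,
        Subgroup.coe_one, map_one, Module.End.one_apply]
    exact mul_inv_eq_one.mp h1
  · intro N hN hU n hn
    obtain ⟨g, rfl⟩ := hs n
    have h1 : UU j ≤ (N.comap π).map (Nm ρ (W j)).subtype := by
      intro u hu
      exact ⟨⟨u, h.uN j hu⟩, hU ⟨⟨u, h.uN j hu⟩, Subgroup.mem_subgroupOf.mpr hu, rfl⟩, rfl⟩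
    have h2 := h.uMax j _ (hN1 N) (hN2 N hN.nor) (hN3 N hN.com) h1
    exact ⟨g, Subgroup.mem_subgroupOf.mpr (h2 ⟨g, hn, rfl⟩), rfl⟩

private theorem bs6_mem (h : BS ρ W UU) (j : J) {L : Type} [Group L]
    (ρL : Representation (ZMod p) L (W j)) (π : Nm ρ (W j) →* L)
    (hπ : ∀ (g : Nm ρ (W j)) (w : W j), ((ρL (π g) w : W j) : X) = ρ (g : H) w)
    (g : Nm ρ (W j)) : π g ∈ ((UU j).subgroupOf (Nm ρ (W j))).map π ↔ (g : H) ∈ UU j := by
  constructor
  · rintro ⟨u, hu, he⟩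
    have hu' : (u : H) ∈ UU j := Subgroup.mem_subgroupOf.mp hu
    have h1 : Tv ρ (W j) ((g * u⁻¹ : Nm ρ (W j)) : H) := by
      intro w hw
      have h2 := hπ (g * u⁻¹) ⟨w, hw⟩
      rw [map_mul, map_inv, he, mul_inv_cancel, map_one, Module.End.one_apply] at h2
      exact h2.symm
    have h3 := h.uKer j _ h1
    have h4 := mul_mem h3 hu'
    rwa [← Subgroup.coe_mul, inv_mul_cancel_right] at h4
  · intro hg
    exact ⟨g, Subgroup.mem_subgroupOf.mpr hg, rfl⟩

/-- (bs6, size 3) The faithful action of the stabilizer of a block. PROOF. `L` = the range of the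
homomorphism `Nm ρ (W j) →* (Module.End (ZMod p) (W j))ˣ` (restriction), `U` = the image of `UU j`. For an
abelian normal subgroup `N` of `L` the preimage is a subgroup as in `qp`, `AA ρL N` is the
restriction of the elements of `AA ρ (preimage)` (`Algebra.adjoin_induction`). `mx` from `uMax`. -/
theorem bs_qp (h : BS ρ W UU) (j : J) :
    ∃ (L : Type) (_ : Group L) (_ : Finite L) (ρL : Representation (ZMod p) L (W j))
      (π : Nm ρ (W j) →* L) (U : Subgroup L), Function.Surjective π ∧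
      (∀ (g : Nm ρ (W j)) (w : W j), ((ρL (π g) w : W j) : X) = ρ (g : H) w) ∧ QP ρL U ∧
      ∀ g : Nm ρ (W j), π g ∈ U ↔ (g : H) ∈ UU j := by
  classical
  refine ⟨((bs6_rep ρ (W j)).toHomUnits).range, inferInstance,
    Finite.of_surjective _ (MonoidHom.rangeRestrict_surjective (bs6_rep ρ (W j)).toHomUnits),
    (Units.coeHom _).comp ((bs6_rep ρ (W j)).toHomUnits).range.subtype,
    ((bs6_rep ρ (W j)).toHomUnits).rangeRestrict,
    ((UU j).subgroupOf (Nm ρ (W j))).map ((bs6_rep ρ (W j)).toHomUnits).rangeRestrict,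
    MonoidHom.rangeRestrict_surjective _, ?_, ?_, ?_⟩
  · intro g w
    exact bs6_apply ρ (W j) g w
  · exact bs6_core h j _ _ (fun g w => bs6_apply ρ (W j) g w)
      (MonoidHom.rangeRestrict_surjective _) (fun l hl => Subtype.ext (Units.ext (LinearMap.ext hl)))
  · intro g
    exact bs6_mem h j _ _ (fun g w => bs6_apply ρ (W j) g w) g
-- END bs6

-- BEGIN bs7
/-- In characteristic `p` the `p`-th power of `z - 1` is `z ^ p - 1`. -/
theorem bs7_pow [Nontrivial X] (z : Module.End (ZMod p) X) : (z - 1) ^ p = z ^ p - 1 := by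
  haveI : CharP (Module.End (ZMod p) X) p :=
    charP_of_injective_algebraMap (FaithfulSMul.algebraMap_injective (ZMod p) (Module.End (ZMod p) X)) p
  rw [sub_pow_char_of_commute p (Commute.one_right z), one_pow]

/-- (bs7, size 3) All `p`-elements of the group act trivially on irreducible modules if they are in a normal
`p`-subgroup; here: for a block, an element of `UU j` of order `p` on the block is trivial there.
PROOF. `(ρ u - 1) ^ p = 0` on `W j` (characteristic `p`: `sub_pow_char` for commuting elements), so `ρ u - 1` is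
not injective on `W j` (which is not zero), so it is zero there by `qp` with `N = UU j`. -/
theorem bs_pfr (h : BS ρ W UU) (j : J) (u : H) (hu : u ∈ UU j) (hp : Tv ρ (W j) (u ^ p)) :
    Tv ρ (W j) u := by
  obtain ⟨w, hw, hw0⟩ := (Submodule.ne_bot_iff _).1 (h.ne j)
  haveI : Nontrivial X := ⟨⟨w, 0, hw0⟩⟩
  have hz : ρ u - 1 ∈ AA ρ (UU j) :=
    Subalgebra.sub_mem _ (Algebra.subset_adjoin ⟨u, hu, rfl⟩) (Subalgebra.one_mem _)
  have hWu : (W j).map (ρ u) = W j := h.uN j hu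
  rcases h.qp j (UU j) (h.uN j) (h.uNor j) (h.uCom j) _ hz with h0 | h1
  · intro v hv
    have h2 := h0 v hv
    rw [LinearMap.sub_apply, Module.End.one_apply] at h2
    exact sub_eq_zero.1 h2
  · exfalso
    have hk : ∀ k : ℕ, ((ρ u - 1) ^ k) w ∈ W j ∧ ((ρ u - 1) ^ k) w ≠ 0 := by
      intro k
      induction k with
      | zero => exact ⟨by rw [pow_zero]; exact hw, by rw [pow_zero]; exact hw0⟩
      | succ k ih =>
        have he : ((ρ u - 1) ^ (k + 1)) w = (ρ u - 1) (((ρ u - 1) ^ k) w) := by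
          rw [pow_succ', Module.End.mul_apply]
        rw [he]
        refine ⟨?_, fun h3 => ih.2 (h1 _ ih.1 h3)⟩
        rw [LinearMap.sub_apply, Module.End.one_apply]
        refine (W j).sub_mem ?_ ih.1
        have h4 : ρ u (((ρ u - 1) ^ k) w) ∈ (W j).map (ρ u) := Submodule.mem_map_of_mem ih.1
        rwa [hWu] at h4
    apply (hk p).2
    rw [bs7_pow, ← map_pow, LinearMap.sub_apply, Module.End.one_apply, hp w hw, sub_self]
-- END bs7

end

end Pool.Agent.Nas
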