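import Pool.Agent.Nan.Mn

/-! Definitions: two characters which cover the primes `≥ 11` of a solvable group. -/

set_option autoImplicit false

namespace Pool.Agent.Nas

open Pool.Agent.Nan

section
variable {p : ℕ} {H X : Type} [Group H] [AddCommGroup X] [Module (ZMod p) X]

/-- The stabilizer of the subspace `W`. -/
def Nm (ρ : Representation (ZMod p) H X) (W : Submodule (ZMod p) X) : Subgroup H where
  carrier := {h | W.map (ρ h) = W}
  one_mem' := by
    show W.map (ρ 1) = W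
    rw [map_one]
    exact Submodule.map_id W
  mul_mem' := by
    intro g h hg hh
    show W.map (ρ (g * h)) = W
    have hg' : W.map (ρ g) = W := hg
    have hh' : W.map (ρ h) = W := hh
    rw [map_mul]
    calc W.map (ρ g * ρ h) = (W.map (ρ h)).map (ρ g) := Submodule.map_comp _ _ _
      _ = W := by rw [hh', hg']
  inv_mem' := by
    intro g hg
    show W.map (ρ g⁻¹) = W
    have hg' : W.map (ρ g) = W := hg
    calc W.map (ρ g⁻¹) = (W.map (ρ g)).map (ρ g⁻¹) := by rw [hg']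
      _ = W.map (ρ g⁻¹ * ρ g) := (Submodule.map_comp _ _ _).symm
      _ = W := by
        rw [← map_mul, inv_mul_cancel, map_one]
        exact Submodule.map_id W

theorem mem_Nm (ρ : Representation (ZMod p) H X) (W : Submodule (ZMod p) X) (h : H) :
    h ∈ Nm ρ W ↔ W.map (ρ h) = W := Iff.rfl

/-- `h` acts trivially on `W`. -/
def Tv (ρ : Representation (ZMod p) H X) (W : Submodule (ZMod p) X) (h : H) : Prop :=
  ∀ w ∈ W, ρ h w = w

/-- A system of blocks `W j` of imprimitivity for the representation `ρ` together with maximal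
abelian normal subgroups `UU j` (modulo the kernel) of the stabilizers of the blocks; the
stabilizers act quasi-primitively on the blocks. -/
structure BS (ρ : Representation (ZMod p) H X) {J : Type} (W : J → Submodule (ZMod p) X)
    (UU : J → Subgroup H) : Prop where
  ind : iSupIndep W
  sup : ⨆ j, W j = ⊤
  ne : ∀ j, W j ≠ ⊥
  prm : ∀ h j, ∃ j', (W j).map (ρ h) = W j'
  tra : ∀ j j', ∃ h, (W j).map (ρ h) = W j'
  qp : ∀ j, ∀ N : Subgroup H, N ≤ Nm ρ (W j) →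
    (∀ g ∈ Nm ρ (W j), ∀ n ∈ N, g * n * g⁻¹ ∈ N) →
    (∀ a ∈ N, ∀ b ∈ N, ∀ w ∈ W j, ρ a (ρ b w) = ρ b (ρ a w)) →
    ∀ z ∈ AA ρ N, (∀ w ∈ W j, z w = 0) ∨ ∀ w ∈ W j, z w = 0 → w = 0
  uN : ∀ j, UU j ≤ Nm ρ (W j)
  uNor : ∀ j, ∀ g ∈ Nm ρ (W j), ∀ u ∈ UU j, g * u * g⁻¹ ∈ UU j
  uCom : ∀ j, ∀ a ∈ UU j, ∀ b ∈ UU j, ∀ w ∈ W j, ρ a (ρ b w) = ρ b (ρ a w)
  uKer : ∀ j h, Tv ρ (W j) h → h ∈ UU j
  uMax : ∀ j, ∀ N : Subgroup H, N ≤ Nm ρ (W j) →
    (∀ g ∈ Nm ρ (W j), ∀ n ∈ N, g * n * g⁻¹ ∈ N) →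
    (∀ a ∈ N, ∀ b ∈ N, ∀ w ∈ W j, ρ a (ρ b w) = ρ b (ρ a w)) → UU j ≤ N → N ≤ UU j
  uCj : ∀ h j j', (W j).map (ρ h) = W j' → ∀ u ∈ UU j, h * u * h⁻¹ ∈ UU j'

/-- The factor group of the stabilizer of each block by `UU j` is abelian. -/
def Abq (ρ : Representation (ZMod p) H X) {J : Type} (W : J → Submodule (ZMod p) X)
    (UU : J → Subgroup H) : Prop :=
  ∀ j, ∀ x ∈ Nm ρ (W j), ∀ y ∈ Nm ρ (W j), x * y * x⁻¹ * y⁻¹ ∈ UU j

/-- No element of `UU j` acts on the block `W j` with order `r`. -/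
def Ufr (ρ : Representation (ZMod p) H X) {J : Type} (W : J → Submodule (ZMod p) X)
    (UU : J → Subgroup H) (r : ℕ) : Prop :=
  ∀ j, ∀ u ∈ UU j, Tv ρ (W j) (u ^ r) → Tv ρ (W j) u

/-- The prime `r` is of type `B`: its Sylow subgroups are trivial, or they fix all the blocks, the
action on the blocks is semilinear, and `r` does not divide the order of the linear part. -/
def Bt (ρ : Representation (ZMod p) H X) {J : Type} (W : J → Submodule (ZMod p) X)
    (UU : J → Subgroup H) (r : ℕ) : Prop :=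
  (∀ R : Sylow r H, ∀ x ∈ (R : Subgroup H), ∀ v, ρ x v = v) ∨
    ((∀ R : Sylow r H, ∀ x ∈ (R : Subgroup H), ∀ j, (W j).map (ρ x) = W j) ∧ Abq ρ W UU ∧
      Ufr ρ W UU r)

/-- `ρ` is faithful, the abelian normal subgroups generate fields, and `U` is a maximal abelian
normal subgroup. -/
structure QP (ρ : Representation (ZMod p) H X) (U : Subgroup H) : Prop where
  fai : ∀ h, (∀ w, ρ h w = w) → h = 1
  fld : ∀ N : Subgroup H, Ab N → ∀ z ∈ AA ρ N, z = 0 ∨ ∀ w, z w = 0 → w = 0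
  ab : Ab U
  mx : ∀ N : Subgroup H, Ab N → U ≤ N → N ≤ U

end

/-- The subgroup `E` of the structure theorem: `E / U` is the product of the `M i / U`, which are
minimal normal subgroups of `L / U`, commutators are in `U`, `U` is the center of `E`, and `E`
contains the elements of `C(U)` which centralize `E / U`. -/
structure SE {L : Type} [Group L] (U E : Subgroup L) (n : ℕ) (M : Fin n → Subgroup L) : Prop where
  nor : E.Normal
  UE : U ≤ E
  cU : ∀ x ∈ E, ∀ u ∈ U, x * u = u * x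
  com : ∀ x ∈ E, ∀ y ∈ E, x * y * x⁻¹ * y⁻¹ ∈ U
  cen : ∀ x ∈ E, (∀ y ∈ E, x * y = y * x) → x ∈ U
  big : ∀ x, (∀ u ∈ U, x * u = u * x) → (∀ y ∈ E, x * y * x⁻¹ * y⁻¹ ∈ U) → x ∈ E
  mN : ∀ i, (M i).Normal
  mU : ∀ i, U < M i
  mE : ∀ i, M i ≤ E
  mMin : ∀ i, ∀ N : Subgroup L, N.Normal → U ≤ N → N ≤ M i → N = U ∨ N = M i
  card : U.relIndex E = ∏ i, U.relIndex (M i)
  gen : ∀ N : Subgroup L, U ≤ N → (∀ i, M i ≤ N) → E ≤ N
  pos : (∃ x, (∀ u ∈ U, x * u = u * x) ∧ x ∉ U) → 0 < n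

end Pool.Agent.Nas
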