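import Pool.Agent.Nas.Bs

/-! The abelian normal subgroup `A` which belongs to a faithful family of irreducible modules. -/

set_option autoImplicit false

namespace Pool.Agent.Nas

open Pool.Agent.Nan

/-- An irreducible module of `H` over `ZMod p` with a system of blocks. -/
structure Fam (p : ℕ) (H : Type) [Group H] where
  X : Type
  [iA : AddCommGroup X]
  [iM : Module (ZMod p) X]
  [iF : Finite X]
  [iN : Nontrivial X]
  ρ : Representation (ZMod p) H X
  irr : Irrd ρ ⊤
  J : Type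
  [iJ : Finite J]
  W : J → Submodule (ZMod p) X
  UU : J → Subgroup H
  bs : BS ρ W UU

attribute [instance] Fam.iA Fam.iM Fam.iF Fam.iN Fam.iJ

/-- The elements which act on all the blocks as elements of `UU`. -/
def Fam.A {p : ℕ} {H : Type} [Group H] (F : Fam p H) : Subgroup H := ⨅ j, F.UU j

/-- The prime `r` is of type `B` at the module. -/
def Fam.Bt {p : ℕ} {H : Type} [Group H] (F : Fam p H) (r : ℕ) : Prop := Nas.Bt F.ρ F.W F.UU r

section
variable {H ι : Type} [Group H] [Finite H] [Finite ι] {pp : ι → ℕ} (F : ∀ i, Fam (pp i) H)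

/-- The subgroup `A` of the family. -/
def HA : Subgroup H := ⨅ i, (F i).A

-- BEGIN ha1
/-- (ha1, size 2) PROOF. Normal: conjugation by `h` maps `UU j` into `UU j'` (`uCj`, `prm`). Commutative: `a b` and `b a` act in the same way on all blocks
(`uCom`), the blocks span (`sup`), the family is faithful. -/
theorem ha_ab (hp : ∀ i, (pp i).Prime) (hf : ∀ h, (∀ i, ∀ x, (F i).ρ h x = x) → h = 1) :
    Ab (HA F) := by
  have hmem : ∀ c ∈ HA F, ∀ i j, c ∈ (F i).UU j := by
    intro c hc i j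
    have h1 := (Subgroup.mem_iInf.1 hc) i
    exact (Subgroup.mem_iInf.1 h1) j
  refine ⟨⟨?_⟩, ?_⟩
  · intro n hn g
    refine Subgroup.mem_iInf.2 fun i => Subgroup.mem_iInf.2 fun j => ?_
    obtain ⟨j', hj'⟩ := (F i).bs.prm g⁻¹ j
    have hg : ((F i).W j').map ((F i).ρ g) = (F i).W j := by
      rw [← hj']
      calc (((F i).W j).map ((F i).ρ g⁻¹)).map ((F i).ρ g)
          = ((F i).W j).map ((F i).ρ g * (F i).ρ g⁻¹) := (Submodule.map_comp _ _ _).symm
        _ = (F i).W j := by
          rw [← map_mul, mul_inv_cancel, map_one]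
          exact Submodule.map_id _
    exact (F i).bs.uCj g j' j hg n (hmem n hn i j')
  · intro a ha b hb
    have key : (b * a)⁻¹ * (a * b) = 1 := by
      apply hf
      intro i x
      have hE : (⊤ : Submodule (ZMod (pp i)) (F i).X) ≤
          LinearMap.eqLocus ((F i).ρ (a * b)) ((F i).ρ (b * a)) := by
        rw [← (F i).bs.sup]
        refine iSup_le fun j w hw => ?_
        rw [LinearMap.mem_eqLocus, map_mul, map_mul]
        exact (F i).bs.uCom j a (hmem a ha i j) b (hmem b hb i j) w hw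
      have hx : (F i).ρ (a * b) x = (F i).ρ (b * a) x := hE Submodule.mem_top
      rw [map_mul ((F i).ρ), Module.End.mul_apply, hx, ← Module.End.mul_apply, ← map_mul,
        inv_mul_cancel, map_one, Module.End.one_apply]
    exact (inv_mul_eq_one.1 key).symm
-- END ha1

-- BEGIN ha2
omit [Finite H] in
private theorem ha2_norN (r : ℕ) : (⨆ R : Sylow r H, (R : Subgroup H)).Normal := by
  refine ⟨fun n hn g => ?_⟩
  have key : (⨆ R : Sylow r H, (R : Subgroup H)).map (MulAut.conj g).toMonoidHom ≤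
      ⨆ R : Sylow r H, (R : Subgroup H) := by
    rw [Subgroup.map_iSup]
    refine iSup_le fun R => ?_
    have h1 : ((g • R : Sylow r H) : Subgroup H) ≤ ⨆ R : Sylow r H, (R : Subgroup H) :=
      le_iSup (fun R : Sylow r H => (R : Subgroup H)) (g • R)
    refine le_trans (le_of_eq ?_) h1
    rw [Sylow.coe_subgroup_smul]
    rfl
  exact key ⟨n, hn, rfl⟩

omit [Finite H] [Finite ι] in
private theorem ha2_triv {i : ι} {r : ℕ}
    (h : ∀ R : Sylow r H, ∀ x ∈ (R : Subgroup H), ∀ v, (F i).ρ x v = v) :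
    ∀ x ∈ ⨆ R : Sylow r H, (R : Subgroup H), ∀ v, (F i).ρ x v = v := by
  intro x hx
  let K : Subgroup H := (F i).ρ.ker
  have hK : ∀ y, y ∈ K ↔ ∀ v, (F i).ρ y v = v := by
    intro y
    rw [MonoidHom.mem_ker]
    constructor
    · intro h v
      rw [h]
      rfl
    · intro h
      exact LinearMap.ext h
  have h2 : (⨆ R : Sylow r H, (R : Subgroup H)) ≤ K :=
    iSup_le fun R y hy => (hK y).2 (h R y hy)
  exact (hK x).1 (h2 hx)

omit [Finite H] [Finite ι] in
private theorem ha2_com (r : ℕ) (hB : ∀ i, (F i).Bt r) :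
    ∀ x ∈ ⨆ R : Sylow r H, (R : Subgroup H), ∀ y ∈ ⨆ R : Sylow r H, (R : Subgroup H),
      x * y * x⁻¹ * y⁻¹ ∈ HA F := by
  intro x hx y hy
  rw [HA, Subgroup.mem_iInf]
  intro i
  rw [Fam.A, Subgroup.mem_iInf]
  intro j
  have hN := ha2_norN (H := H) r
  rcases hB i with h | ⟨h1, h2, h3⟩
  · apply (F i).bs.uKer j
    intro w hw
    have hc : x * y * x⁻¹ * y⁻¹ ∈ ⨆ R : Sylow r H, (R : Subgroup H) :=
      mul_mem (hN.conj_mem y hy x) (inv_mem hy)
    exact ha2_triv F h _ hc w
  · have h4 : (⨆ R : Sylow r H, (R : Subgroup H)) ≤ Nm (F i).ρ ((F i).W j) :=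
      iSup_le fun R z hz => h1 R z hz j
    exact h2 j x (h4 hx) y (h4 hy)

/-- (ha2, size 4) PROOF. `N = ⨆ R : Sylow r H, R` is normal. (a) `[N, N] ≤ HA F`: at each `i`, either all `R` are trivial, so `N` is trivial and in all `UU j` (`uKer`);
or the `R` fix all blocks, so `N ≤ Nm (W j)` for all `j` and `Abq` gives `[N, N] ≤ UU j`. (b) `r` does not divide `card (HA F)`: the elements of `HA F` of `r`-power order form a
normal subgroup `O` of `H`, an `r`-group, so `O ≤ R` for all `R`; at each `i`, `O` is trivial: in the first case clear, in the second case by `Ufr` (repeatedly).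
So `O = 1` (faithful). (c) `A ⊔ R` is normal: for `h ∈ H`, `h R h⁻¹` and `R` are Sylow subgroups of `N A`, and `N A / A` is abelian
(by (a); `A = HA F`), so their images in `N A / A` are equal: `h R h⁻¹ ≤ A R`. -/
theorem ha_ar (hp : ∀ i, (pp i).Prime) (hf : ∀ h, (∀ i, ∀ x, (F i).ρ h x = x) → h = 1) (r : ℕ)
    (hr : r.Prime) (hB : ∀ i, (F i).Bt r) : AR (HA F) r := by
  have : Fact r.Prime := ⟨hr⟩
  have hA : Ab (HA F) := ha_ab F hp hf
  have hAn : (HA F).Normal := hA.nor
  have hcom := ha2_com F r hB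
  refine ⟨hr, ?_, ?_⟩
  · intro hd
    obtain ⟨a, ha⟩ := exists_prime_orderOf_dvd_card' (G := HA F) r hd
    have ha1 : (a : H) ^ r = 1 := by
      rw [← Subgroup.coe_pow, ← ha, pow_orderOf_eq_one, Subgroup.coe_one]
    have ha2 : (a : H) = 1 := by
      apply hf
      intro i x
      rcases hB i with h | ⟨h1, h2, h3⟩
      · have hP : IsPGroup r (Subgroup.zpowers (a : H)) := by
          apply IsPGroup.of_card (n := 1)
          rw [Nat.card_zpowers, Subgroup.orderOf_coe, pow_one]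
          exact ha
        obtain ⟨R, hR⟩ := hP.exists_le_sylow
        exact h R a (hR (Subgroup.mem_zpowers _)) x
      · have h4 : ∀ j, ∀ w ∈ (F i).W j, (F i).ρ (a : H) w = w := by
          intro j
          apply h3 j
          · have h5 : (a : H) ∈ (F i).A := (Subgroup.mem_iInf.1 a.2) i
            exact (Subgroup.mem_iInf.1 h5) j
          · intro w hw
            rw [ha1, map_one]
            rfl
        have h5 : x ∈ ⨆ j, (F i).W j := by
          rw [(F i).bs.sup]
          exact Submodule.mem_top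
        refine Submodule.iSup_induction _ (motive := fun x => (F i).ρ (a : H) x = x) h5 h4
          (map_zero _) ?_
        intro x y hx hy
        rw [map_add, hx, hy]
    have ha3 : a = 1 := Subtype.ext ha2
    rw [ha3, orderOf_one] at ha
    exact hr.one_lt.ne ha
  · intro R
    -- all Sylow subgroups are in `A ⊔ R`
    have key : ∀ R' : Sylow r H, (R' : Subgroup H) ≤ HA F ⊔ (R : Subgroup H) := by
      intro R' x hx
      have hle : ∀ R : Sylow r H, (R : Subgroup H) ≤ ⨆ R : Sylow r H, (R : Subgroup H) :=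
        fun R => le_iSup (fun R : Sylow r H => (R : Subgroup H)) R
      obtain ⟨n, hn⟩ := MulAction.exists_smul_eq (⨆ R : Sylow r H, (R : Subgroup H) : Subgroup H)
        (R.subtype (hle R)) (R'.subtype (hle R'))
      have hx' : (⟨x, hle R' hx⟩ : (⨆ R : Sylow r H, (R : Subgroup H) : Subgroup H)) ∈
          ((R'.subtype (hle R') : Sylow r _) : Subgroup _) := by
        rw [Sylow.coe_subtype, Subgroup.mem_subgroupOf]
        exact hx
      rw [← hn, Sylow.coe_subgroup_smul, Subgroup.mem_pointwise_smul_iff_inv_smul_mem,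
        Sylow.coe_subtype, Subgroup.mem_subgroupOf] at hx'
      have hy : (n : H)⁻¹ * x * (n : H) ∈ (R : Subgroup H) := by
        have : (((MulAut.conj n)⁻¹ • (⟨x, hle R' hx⟩ :
          (⨆ R : Sylow r H, (R : Subgroup H) : Subgroup H)) : _) : H) = (n : H)⁻¹ * x * n := by
          rw [← map_inv]
          simp
        rw [this] at hx'
        exact hx'
      set y := (n : H)⁻¹ * x * (n : H) with hydef
      have hx2 : x = (n : H) * y * (n : H)⁻¹ * y⁻¹ * y := by
        rw [hydef]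
        group
      rw [hx2]
      exact mul_mem (Subgroup.mem_sup_left (hcom n n.2 y (hle R hy)))
        (Subgroup.mem_sup_right hy)
    refine ⟨fun m hm g => ?_⟩
    have h1 : (HA F ⊔ (R : Subgroup H)).map (MulAut.conj g).toMonoidHom ≤
        HA F ⊔ (R : Subgroup H) := by
      rw [Subgroup.map_sup]
      refine sup_le ?_ ?_
      · rintro _ ⟨a, ha, rfl⟩
        exact Subgroup.mem_sup_left (hAn.conj_mem a ha g)
      · refine le_trans (le_of_eq ?_) (key (g • R))
        rw [Sylow.coe_subgroup_smul]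
        rfl
    exact h1 ⟨m, hm, rfl⟩
-- END ha2

-- BEGIN ha3
open scoped commutatorElement in
private theorem ha3_pg {H : Type} [Group H] [Finite H] (r : ℕ) [Fact r.Prime] (K N : Subgroup H)
    [K.Normal] (hN : N = ⨆ R : Sylow r H, (R : Subgroup H))
    (h2 : ∀ x ∈ N, ∀ y ∈ N, ∀ z ∈ N, ⁅⁅x, y⁆, z⁆ ∈ K) :
    ∀ x ∈ N, ∃ m : ℕ, x ^ r ^ m ∈ K := by
  let Q := N ⧸ K.subgroupOf N
  have hcc : commutator Q ≤ Subgroup.center Q := by
    rw [commutator_def, Subgroup.commutator_le]
    intro a _ b _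
    rw [Subgroup.mem_center_iff]
    intro c
    induction a using QuotientGroup.induction_on with
    | H a =>
      induction b using QuotientGroup.induction_on with
      | H b =>
        induction c using QuotientGroup.induction_on with
        | H c =>
          have h3 := h2 a a.2 b b.2 c c.2
          have h4 : (((⁅⁅a, b⁆, c⁆ : N) : N) : Q) = 1 := by
            rw [QuotientGroup.eq_one_iff, Subgroup.mem_subgroupOf]
            exact h3
          have h5 : ⁅⁅(a : Q), (b : Q)⁆, (c : Q)⁆ = 1 := h4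
          exact (commutatorElement_eq_one_iff_mul_comm.1 h5).symm
  have hnil : Group.IsNilpotent Q := by
    refine Subgroup.isNilpotent_of_ker_le_center (Abelianization.of : Q →* Abelianization Q) ?_
    rw [Abelianization.ker_of]
    exact hcc
  have hfin : Finite Q := inferInstance
  obtain ⟨P⟩ : Nonempty (Sylow r Q) := inferInstance
  have hPn : (P : Subgroup Q).Normal :=
    ((Group.isNilpotent_of_finite_tfae (G := Q)).out 0 3 rfl rfl).1 hnil r inferInstance P
  have hle : ∀ R' : Subgroup Q, IsPGroup r R' → R' ≤ P := by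
    intro R' hR'
    obtain ⟨P', hP'⟩ := hR'.exists_le_sylow
    have : Subsingleton (Sylow r Q) := (Sylow.unique_of_normal P hPn).instSubsingleton
    rwa [Subsingleton.elim P' P] at hP'
  have hall : ∀ x : N, ((x : N) : Q) ∈ (P : Subgroup Q) := by
    have h6 : N ≤ ((P : Subgroup Q).comap (QuotientGroup.mk' (K.subgroupOf N))).map N.subtype := by
      nth_rw 1 [hN]
      refine iSup_le fun R => ?_
      have hRN : (R : Subgroup H) ≤ N := by
        rw [hN]
        exact le_iSup (fun R : Sylow r H => (R : Subgroup H)) R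
      intro x hx
      refine Subgroup.mem_map.2 ⟨⟨x, hRN hx⟩, ?_, rfl⟩
      rw [Subgroup.mem_comap]
      have h7 : IsPGroup r (((R : Subgroup H).subgroupOf N).map
          (QuotientGroup.mk' (K.subgroupOf N))) := by
        refine IsPGroup.map ?_ _
        exact R.isPGroup'.of_injective (Subgroup.inclusion (le_refl _) |>.comp
          ((Subgroup.subgroupOfEquivOfLe hRN).toMonoidHom)) (by
            intro a b hab
            have := Subgroup.inclusion_injective (le_refl _) hab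
            exact (Subgroup.subgroupOfEquivOfLe hRN).injective this)
      refine hle _ h7 (Subgroup.mem_map.2 ⟨⟨x, hRN hx⟩, ?_, rfl⟩)
      rw [Subgroup.mem_subgroupOf]
      exact hx
    intro x
    obtain ⟨y, hy, hyx⟩ := Subgroup.mem_map.1 (h6 x.2)
    have : y = x := Subtype.ext hyx
    rw [this, Subgroup.mem_comap] at hy
    exact hy
  intro x hx
  obtain ⟨m, hm⟩ := P.isPGroup' ⟨_, hall ⟨x, hx⟩⟩
  refine ⟨m, ?_⟩
  have h8 : (((⟨x, hx⟩ : N) : Q)) ^ r ^ m = 1 := by
    have := congrArg Subtype.val hm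
    exact this
  rw [← QuotientGroup.mk_pow, QuotientGroup.eq_one_iff, Subgroup.mem_subgroupOf] at h8
  exact h8

private theorem ha3_nor {H : Type} [Group H] [Finite H] (r : ℕ) (g : H) :
    ∀ x ∈ (⨆ R : Sylow r H, (R : Subgroup H)), g * x * g⁻¹ ∈ (⨆ R : Sylow r H, (R : Subgroup H)) := by
  have h : (⨆ R : Sylow r H, (R : Subgroup H)) ≤
      (⨆ R : Sylow r H, (R : Subgroup H)).comap (MulAut.conj g).toMonoidHom := by
    refine iSup_le fun R x hx => ?_
    rw [Subgroup.mem_comap]
    refine (le_iSup (fun R : Sylow r H => (R : Subgroup H)) (g • R)) ?_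
    show _ ∈ ((g • R : Sylow r H) : Subgroup H)
    rw [Sylow.coe_subgroup_smul]
    exact Subgroup.smul_mem_pointwise_smul x (MulAut.conj g) _ hx
  intro x hx
  exact h hx

private theorem ha3_tv {p : ℕ} {H X J : Type} [Group H] [AddCommGroup X] [Module (ZMod p) X]
    {ρ : Representation (ZMod p) H X} {W : J → Submodule (ZMod p) X} {UU : J → Subgroup H} {r : ℕ}
    (hU : Ufr ρ W UU r) (j : J) (m : ℕ) : ∀ u ∈ UU j, Tv ρ (W j) (u ^ r ^ m) → Tv ρ (W j) u := by
  induction m with
  | zero => intro u _ h; rwa [pow_zero, pow_one] at h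
  | succ m ih =>
    intro u hu h
    refine ih u hu (hU j _ ((UU j).pow_mem hu _) ?_)
    rwa [← pow_mul, ← pow_succ]

/-- (ha3, size 4) PROOF. `N = ⨆ R : Sylow r H, R`, `K` = the kernel of `H` on `(F i).X`. `[N, N] ≤ HA F` (see `ha_ar`), `[HA F, N] = cm (HA F) r ≤ K`.
So the image of `N` in `H / K` is nilpotent, so the Sylow `r`-subgroups of `N K / K` coincide with `N K / K`: it is an `r`-group. Suppose that it is not trivial (else done). Then we are
in the second case of `Bt` at `i`. `Z = {z ∈ N | ∀ y ∈ N, z y z⁻¹ y⁻¹ ∈ K}`: normal in `H`, acts commutatively, `r`-group modulo `K`, and not in `K` (center of a nontrivial `r`-group).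
For each `j`: `Z ≤ N ≤ Nm (W j)`; for `u ∈ UU j`, `z ∈ Z` the commutator `[u, z]` is in `UU j` and in `Z`, so a power `[u, z] ^ (r ^ m)` is trivial on `W j`, so `[u, z]` is (`Ufr`).
So `UU j ⊔ Z` is commutative on `W j` and normalized by `Nm (W j)`, so `Z ≤ UU j` (`uMax`), and again by `Ufr` `Z` is trivial on `W j`. For all `j`: `Z ≤ K`, contradiction. -/
theorem ha_triv (hp : ∀ i, (pp i).Prime) (hf : ∀ h, (∀ i, ∀ x, (F i).ρ h x = x) → h = 1) (r : ℕ)
    (hr : r.Prime) (hB : ∀ i, (F i).Bt r) (i : ι)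
    (hc : ∀ c ∈ cm (HA F) r, ∀ x, (F i).ρ c x = x) :
    ∀ R : Sylow r H, ∀ y ∈ (R : Subgroup H), ∀ x, (F i).ρ y x = x := by
  rcases hB i with h1 | ⟨h1, h2, h3⟩
  · exact h1
  have hfr : Fact r.Prime := ⟨hr⟩
  obtain ⟨N, hN⟩ : ∃ N : Subgroup H, N = ⨆ R : Sylow r H, (R : Subgroup H) := ⟨_, rfl⟩
  have hRN : ∀ R : Sylow r H, (R : Subgroup H) ≤ N := fun R => by
    rw [hN]
    exact le_iSup (fun R : Sylow r H => (R : Subgroup H)) R
  have hNn : ∀ g : H, ∀ x ∈ N, g * x * g⁻¹ ∈ N := by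
    intro g x hx
    rw [hN] at hx ⊢
    exact ha3_nor r g x hx
  have hcA : ∀ x ∈ N, ∀ y ∈ N, x * y * x⁻¹ * y⁻¹ ∈ HA F := by
    intro x hx y hy
    refine Subgroup.mem_iInf.2 fun k => Subgroup.mem_iInf.2 fun j => ?_
    rcases hB k with hk | ⟨hk, hk2, _⟩
    · have hT : ∀ z ∈ N, ∀ v, (F k).ρ z v = v := by
        have hle : N ≤ ((F k).ρ).ker := by
          rw [hN]
          refine iSup_le fun R z hz => ?_
          rw [MonoidHom.mem_ker]
          exact LinearMap.ext fun v => hk R z hz v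
        intro z hz v
        have := hle hz
        rw [MonoidHom.mem_ker] at this
        rw [this]
        rfl
      refine (F k).bs.uKer j _ fun w _ => ?_
      exact hT _ (N.mul_mem (N.mul_mem (N.mul_mem hx hy) (N.inv_mem hx)) (N.inv_mem hy)) w
    · have hle : N ≤ Nm (F k).ρ ((F k).W j) := by
        rw [hN]
        exact iSup_le fun R z hz => hk R z hz j
      exact hk2 j x (hle hx) y (hle hy)
  have hKm : ∀ g : H, g ∈ ((F i).ρ).ker ↔ ∀ x, (F i).ρ g x = x := by
    intro g
    rw [MonoidHom.mem_ker]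
    exact ⟨fun h x => by rw [h]; rfl, fun h => LinearMap.ext h⟩
  have hpg : ∀ x ∈ N, ∃ m : ℕ, x ^ r ^ m ∈ ((F i).ρ).ker := by
    refine ha3_pg r ((F i).ρ).ker N hN fun x hx y hy z hz => ?_
    rw [hKm]
    refine hc _ ?_
    unfold cm
    rw [← hN]
    exact Subgroup.commutator_mem_commutator (hcA x hx y hy) hz
  have hNm : ∀ j, N ≤ Nm (F i).ρ ((F i).W j) := by
    intro j
    rw [hN]
    exact iSup_le fun R z hz => h1 R z hz j
  have hmem : ∀ j, ∀ g ∈ Nm (F i).ρ ((F i).W j), ∀ w ∈ (F i).W j, (F i).ρ g w ∈ (F i).W j := by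
    intro j g hg w hw
    rw [mem_Nm] at hg
    rw [← hg]
    exact Submodule.mem_map_of_mem hw
  have hpow : ∀ j, ∀ x ∈ N, x ∈ (F i).UU j → Tv (F i).ρ ((F i).W j) x := by
    intro j x hx hu
    obtain ⟨m, hm⟩ := hpg x hx
    exact ha3_tv h3 j m x hu fun w _ => (hKm _).1 hm w
  have hmul : ∀ (x y : H) (w : (F i).X), (F i).ρ (x * y) w = (F i).ρ x ((F i).ρ y w) := by
    intro x y w
    rw [map_mul]
    rfl
  have hcom : ∀ j, ∀ x ∈ Nm (F i).ρ ((F i).W j), ∀ y ∈ Nm (F i).ρ ((F i).W j),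
      Tv (F i).ρ ((F i).W j) (x * y * x⁻¹ * y⁻¹) → ∀ w ∈ (F i).W j,
        (F i).ρ x ((F i).ρ y w) = (F i).ρ y ((F i).ρ x w) := by
    intro j x hx y hy ht w hw
    have h4 := ht ((F i).ρ (y * x) w)
      (hmem j _ ((Nm (F i).ρ ((F i).W j)).mul_mem hy hx) w hw)
    rw [← hmul, show x * y * x⁻¹ * y⁻¹ * (y * x) = x * y by group, hmul, hmul] at h4
    exact h4
  have hNN : ∀ j, ∀ x ∈ N, ∀ y ∈ N, ∀ w ∈ (F i).W j,
      (F i).ρ x ((F i).ρ y w) = (F i).ρ y ((F i).ρ x w) := by
    intro j x hx y hy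
    refine hcom j x (hNm j hx) y (hNm j hy) (hpow j _ (N.mul_mem (N.mul_mem (N.mul_mem hx hy)
      (N.inv_mem hx)) (N.inv_mem hy)) (h2 j x (hNm j hx) y (hNm j hy)))
  have hUN : ∀ j, ∀ u ∈ (F i).UU j, ∀ y ∈ N, ∀ w ∈ (F i).W j,
      (F i).ρ u ((F i).ρ y w) = (F i).ρ y ((F i).ρ u w) := by
    intro j u hu y hy
    have huN := (F i).bs.uN j hu
    refine hcom j u huN y (hNm j hy) (hpow j _ ?_ ?_)
    · exact N.mul_mem (hNn u y hy) (N.inv_mem hy)
    · have h5 := (F i).bs.uNor j y (hNm j hy) u⁻¹ ((F i).UU j |>.inv_mem hu)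
      rw [show u * y * u⁻¹ * y⁻¹ = u * (y * u⁻¹ * y⁻¹) by group]
      exact ((F i).UU j).mul_mem hu h5
  have hNor : N.Normal := ⟨fun x hx g => hNn g x hx⟩
  have hNU : ∀ j, N ≤ (F i).UU j := by
    intro j
    have hel : ∀ z ∈ (F i).UU j ⊔ N, ∃ u ∈ (F i).UU j, ∃ y ∈ N, z = u * y := by
      intro z hz
      rw [Subgroup.mem_sup_of_normal_right] at hz
      obtain ⟨u, hu, y, hy, h⟩ := hz
      exact ⟨u, hu, y, hy, h.symm⟩
    have hsN : (F i).UU j ⊔ N ≤ Nm (F i).ρ ((F i).W j) := sup_le ((F i).bs.uN j) (hNm j)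
    refine le_trans le_sup_right ((F i).bs.uMax j ((F i).UU j ⊔ N) hsN ?_ ?_ le_sup_left)
    · intro g hg z hz
      obtain ⟨u, hu, y, hy, rfl⟩ := hel z hz
      rw [show g * (u * y) * g⁻¹ = (g * u * g⁻¹) * (g * y * g⁻¹) by group]
      exact Subgroup.mul_mem_sup ((F i).bs.uNor j g hg u hu) (hNn g y hy)
    · intro a ha b hb w hw
      obtain ⟨u, hu, y, hy, rfl⟩ := hel a ha
      obtain ⟨u', hu', y', hy', rfl⟩ := hel b hb
      have huw : ∀ v ∈ (F i).UU j, ∀ w ∈ (F i).W j, (F i).ρ v w ∈ (F i).W j :=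
        fun v hv w hw => hmem j v ((F i).bs.uN j hv) w hw
      have hyw : ∀ v ∈ N, ∀ w ∈ (F i).W j, (F i).ρ v w ∈ (F i).W j :=
        fun v hv w hw => hmem j v (hNm j hv) w hw
      rw [hmul, hmul, hmul, hmul]
      calc (F i).ρ u ((F i).ρ y ((F i).ρ u' ((F i).ρ y' w)))
          = (F i).ρ u ((F i).ρ u' ((F i).ρ y ((F i).ρ y' w))) := by
            rw [hUN j u' hu' y hy _ (hyw y' hy' w hw)]
        _ = (F i).ρ u' ((F i).ρ u ((F i).ρ y' ((F i).ρ y w))) := by
            rw [(F i).bs.uCom j u hu u' hu' _ (hyw y hy _ (hyw y' hy' w hw)), hNN j y hy y' hy' w hw]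
        _ = (F i).ρ u' ((F i).ρ y' ((F i).ρ u ((F i).ρ y w))) := by
            rw [hUN j u hu y' hy' _ (hyw y hy w hw)]
  intro R y hy x
  have hyN := hRN R hy
  have hx : x ∈ ⨆ j, (F i).W j := by rw [(F i).bs.sup]; exact Submodule.mem_top
  have hle : (⨆ j, (F i).W j) ≤ LinearMap.eqLocus ((F i).ρ y) LinearMap.id :=
    iSup_le fun j w hw => by
      rw [LinearMap.mem_eqLocus]
      exact hpow j y hyN (hNU j hyN) w hw
  have := hle hx
  rwa [LinearMap.mem_eqLocus] at this
-- END ha3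

-- BEGIN ha4
/-- (ha4, size 1) PROOF. If `cm (HA F) r = ⊥` then by `ha_triv` for all `i` the Sylow subgroups are trivial (faithful). -/
theorem ha_ne (hp : ∀ i, (pp i).Prime) (hf : ∀ h, (∀ i, ∀ x, (F i).ρ h x = x) → h = 1) (r : ℕ)
    (hr : r.Prime) (hB : ∀ i, (F i).Bt r) (hd : r ∣ Nat.card H) : cm (HA F) r ≠ ⊥ := by
  intro hbot
  have : Fact r.Prime := ⟨hr⟩
  obtain ⟨R⟩ := (inferInstance : Nonempty (Sylow r H))
  have h1 : ∀ y ∈ (R : Subgroup H), y = 1 := by
    intro y hy
    apply hf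
    intro i x
    refine ha_triv F hp hf r hr hB i ?_ R y hy x
    intro c hc z
    rw [hbot, Subgroup.mem_bot] at hc
    rw [hc, map_one]
    rfl
  have h2 : (R : Subgroup H) = ⊥ := (Subgroup.eq_bot_iff_forall _).mpr h1
  have h3 := R.dvd_card_of_dvd_card hd
  rw [h2, Subgroup.card_bot] at h3
  exact hr.one_lt.ne' (Nat.dvd_one.mp h3)
-- END ha4

end

end Pool.Agent.Nas
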