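import Pool.Agent.Nas.St
import Pool.Agent.Nas.Bs

/-! The order of solvable permutation groups and of irreducible solvable linear groups. -/

set_option autoImplicit false

namespace Pool.Agent.Nas

open Pool.Agent.Nan

/-- The bound for irreducible linear groups on modules with at most `N` elements. -/
def OBd (N : ℕ) : Prop :=
  ∀ (p : ℕ) (_ : Fact p.Prime) (X S : Type) (_ : Group X) (_ : Finite X) (_ : AddCommGroup S)
    (_ : Module (ZMod p) S) (_ : Finite S) (_ : Nontrivial S) (ρ : Representation (ZMod p) X S),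
    Group.IsSolvable X → (∀ h, (∀ w, ρ h w = w) → h = 1) → Irrd ρ ⊤ → Nat.card S ≤ N →
    4 * Nat.card X ≤ Nat.card S ^ 3

/-- The bound for permutation groups of degree at most `N`. -/
def PBd (N : ℕ) : Prop :=
  ∀ (Y J : Type) (_ : Group Y) (_ : Finite Y) (_ : Finite J) (_ : Nonempty J) (_ : MulAction Y J),
    Group.IsSolvable Y → (∀ y : Y, (∀ j : J, y • j = j) → y = 1) → Nat.card J ≤ N →
    4 * Nat.card Y ≤ 4 ^ Nat.card J

section
variable {Y J : Type} [Group Y] [Finite Y] [Finite J] [MulAction Y J]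

-- BEGIN ob1
private theorem ob1_min [Nontrivial Y] (hs : Group.IsSolvable Y) :
    ∃ (N : Subgroup Y) (r : ℕ), Ab N ∧ r.Prime ∧ (∀ x ∈ N, x ^ r = 1) ∧ N ≠ ⊥ := by
  have : Group.IsSolvable Y := hs
  obtain ⟨n, hn⟩ := (Group.isSolvable_def Y).1 inferInstance
  have hex : ∃ n, derivedSeries Y n = ⊥ := ⟨n, hn⟩
  classical
  have h0 : Nat.find hex ≠ 0 := by
    intro h0
    have h1 := Nat.find_spec hex
    rw [h0, derivedSeries_zero] at h1
    exact top_ne_bot h1
  obtain ⟨k, hk⟩ := Nat.exists_eq_succ_of_ne_zero h0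
  have hk1 : derivedSeries Y k ≠ ⊥ := Nat.find_min hex (by omega)
  have hk2 : ⁅derivedSeries Y k, derivedSeries Y k⁆ = ⊥ := by
    rw [← derivedSeries_succ, ← Nat.succ_eq_add_one, ← hk]
    exact Nat.find_spec hex
  have hcom : ∀ a ∈ derivedSeries Y k, ∀ b ∈ derivedSeries Y k, a * b = b * a := by
    intro a ha b hb
    have h1 := Subgroup.commutator_mem_commutator ha hb
    rw [hk2, Subgroup.mem_bot, commutatorElement_eq_one_iff_mul_comm] at h1
    exact h1
  have hcard : Nat.card (derivedSeries Y k) ≠ 1 := by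
    intro h1
    exact hk1 (Subgroup.card_eq_one.1 h1)
  obtain ⟨r, hr, hrd⟩ := Nat.exists_prime_and_dvd hcard
  have : Fact r.Prime := ⟨hr⟩
  obtain ⟨x, hx⟩ := exists_prime_orderOf_dvd_card' r hrd
  let N : Subgroup Y :=
    { carrier := {y | y ∈ derivedSeries Y k ∧ y ^ r = 1}
      one_mem' := ⟨Subgroup.one_mem _, one_pow r⟩
      mul_mem' := by
        rintro a b ⟨ha, ha1⟩ ⟨hb, hb1⟩
        refine ⟨Subgroup.mul_mem _ ha hb, ?_⟩
        rw [(show Commute a b from hcom a ha b hb).mul_pow, ha1, hb1, one_mul]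
      inv_mem' := by
        rintro a ⟨ha, ha1⟩
        refine ⟨Subgroup.inv_mem _ ha, ?_⟩
        rw [inv_pow, ha1, inv_one] }
  have hmem : ∀ y, y ∈ N ↔ y ∈ derivedSeries Y k ∧ y ^ r = 1 := fun y => Iff.rfl
  refine ⟨N, r, ⟨⟨?_⟩, ?_⟩, hr, ?_, ?_⟩
  · intro y hy g
    rw [hmem] at hy ⊢
    refine ⟨(derivedSeries_normal Y k).conj_mem y hy.1 g, ?_⟩
    rw [conj_pow, hy.2, mul_one, mul_inv_cancel]
  · intro a ha b hb
    exact hcom a ha.1 b hb.1
  · intro y hy
    exact hy.2
  · intro h1
    have hxN : (x : Y) ∈ N := by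
      rw [hmem]
      refine ⟨x.2, ?_⟩
      have h2 : (x : Y) ^ orderOf x = 1 := by
        rw [← Subgroup.coe_pow, pow_orderOf_eq_one, Subgroup.coe_one]
      rw [hx] at h2
      exact h2
    rw [h1, Subgroup.mem_bot] at hxN
    have h3 : x = 1 := Subtype.ext hxN
    rw [h3, orderOf_one] at hx
    exact hr.one_lt.ne hx

/-- (ob1, size 4) Primitive solvable permutation groups. PROOF. A minimal normal subgroup `N` of `Y` is commutative
of prime exponent `r` (solvable; the last nontrivial term of the derived series of `Y` is a commutative normal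
subgroup; take the elements of prime order `r` in it); `N` is transitive (a nontrivial normal subgroup of a primitive
faithful group: Mathlib `MulAction.IsPreprimitive`, `IsQuasiPreprimitive`), so `N` is regular (commutative,
transitive and faithful); `N` contains its centralizer: an element `c` which centralizes `N`: take `n ∈ N` with
`n • j = c • j` for one `j`; then `n⁻¹ c` fixes `j` and centralizes the transitive `N`, so it fixes everything. Minimality:
a normal subgroup of `Y` inside `N`, not trivial, is transitive, so it is `N` (regular). -/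
theorem prim_reg [Nontrivial J] (hs : Group.IsSolvable Y)
    (hf : ∀ y : Y, (∀ j : J, y • j = j) → y = 1) (hp : MulAction.IsPreprimitive Y J) :
    ∃ (N : Subgroup Y) (r : ℕ), Ab N ∧ r.Prime ∧ (∀ x ∈ N, x ^ r = 1) ∧
      (∀ j j' : J, ∃ x ∈ N, x • j = j') ∧ (∀ x ∈ N, ∀ j : J, x • j = j → x = 1) ∧
      (∀ y, (∀ x ∈ N, y * x = x * y) → y ∈ N) ∧
      ∀ N' : Subgroup Y, N'.Normal → N' ≤ N → N' = ⊥ ∨ N' = N := by
  have : Nontrivial Y := by
    obtain ⟨j, j', hj⟩ := exists_pair_ne J
    obtain ⟨y, hy⟩ := MulAction.exists_smul_eq Y j j'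
    refine ⟨⟨y, 1, ?_⟩⟩
    rintro rfl
    rw [one_smul] at hy
    exact hj hy
  have htr : ∀ N : Subgroup Y, N.Normal → N ≠ ⊥ → ∀ j j' : J, ∃ x ∈ N, x • j = j' := by
    intro N hN hne j j'
    have := hN
    have hfp : MulAction.fixedPoints N J ≠ Set.univ := by
      intro h1
      apply hne
      rw [Subgroup.eq_bot_iff_forall]
      intro x hx
      apply hf
      intro i
      have h2 : i ∈ MulAction.fixedPoints N J := by
        rw [h1]
        trivial
      exact h2 ⟨x, hx⟩
    have := MulAction.IsQuasiPreprimitive.isPretransitive_of_normal (G := Y) (X := J) hfp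
    obtain ⟨x, hx⟩ := MulAction.exists_smul_eq N j j'
    exact ⟨x, x.2, hx⟩
  obtain ⟨N, r, hN, hr, hxr, hne⟩ := ob1_min hs
  have htN := htr N hN.nor hne
  have hreg : ∀ x ∈ N, ∀ j : J, x • j = j → x = 1 := by
    intro x hx j hj
    apply hf
    intro j'
    obtain ⟨y, hy, rfl⟩ := htN j j'
    rw [← mul_smul, hN.com x hx y hy, mul_smul, hj]
  refine ⟨N, r, hN, hr, hxr, htN, hreg, ?_, ?_⟩
  · intro y hy
    obtain ⟨j⟩ : Nonempty J := inferInstance
    obtain ⟨x, hx, hxj⟩ := htN j (y • j)
    have h1 : x⁻¹ * y = 1 := by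
      apply hf
      intro j'
      obtain ⟨z, hz, rfl⟩ := htN j j'
      rw [← mul_smul, mul_assoc, hy z hz, ← mul_assoc, hN.com x⁻¹ (N.inv_mem hx) z hz, mul_assoc,
        mul_smul, mul_smul, ← hxj, inv_smul_smul]
    rw [inv_mul_eq_one] at h1
    rw [← h1]
    exact hx
  · intro N' hN' hle
    by_cases h1 : N' = ⊥
    · exact Or.inl h1
    · right
      refine le_antisymm hle ?_
      intro x hx
      obtain ⟨j⟩ : Nonempty J := inferInstance
      obtain ⟨y, hy, hyj⟩ := htr N' hN' h1 j (x • j)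
      have h2 : y⁻¹ * x = 1 := by
        apply hreg _ (N.mul_mem (N.inv_mem (hle hy)) hx) j
        rw [mul_smul, ← hyj, inv_smul_smul]
      rw [inv_mul_eq_one] at h2
      rw [← h2]
      exact hy
-- END ob1

-- BEGIN ob2
/-- The action by endomorphisms on a commutative group of exponent `r`. -/
private noncomputable def ob2_rep {G S : Type} [Group G] [AddCommGroup S] (r : ℕ)
    [Module (ZMod r) S] (φ : G →* AddMonoid.End S) : Representation (ZMod r) G S where
  toFun y := AddMonoidHom.toZModLinearMap r (φ y)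
  map_one' := by
    ext x
    show φ 1 x = x
    rw [map_one φ]
    rfl
  map_mul' a b := by
    ext x
    show φ (a * b) x = φ a (φ b x)
    rw [map_mul φ]
    rfl

private theorem ob2_rep_apply {G S : Type} [Group G] [AddCommGroup S] (r : ℕ)
    [Module (ZMod r) S] (φ : G →* AddMonoid.End S) (y : G) (x : S) :
    ob2_rep r φ y x = φ y x := rfl

/-- The bound for a solvable group which acts faithfully and irreducibly on a commutative group. -/
private theorem ob2_bd {G S : Type} [Group G] [Finite G] [AddCommGroup S] [Finite S] [Nontrivial S]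
    (N : ℕ) (hob : OBd N) (hN : Nat.card S ≤ N) (hs : Group.IsSolvable G) (r : ℕ) (hr : r.Prime)
    [iM : Module (ZMod r) S] (φ : G →* AddMonoid.End S) (hfai : ∀ g, (∀ x, φ g x = x) → g = 1)
    (hirr : ∀ D : AddSubgroup S, (∀ g, ∀ x ∈ D, φ g x ∈ D) → D = ⊥ ∨ D = ⊤) :
    4 * Nat.card G ≤ Nat.card S ^ 3 := by
  have hf : ∀ h, (∀ w : S, ob2_rep r φ h w = w) → h = 1 := fun h hh => hfai h hh
  have hi : Irrd (ob2_rep r φ) ⊤ := by
    intro W hW
    rcases hirr W.toAddSubgroup fun g x hx => hW g (Subgroup.mem_top _) _ hx with h | h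
    · left
      rw [Submodule.eq_bot_iff]
      intro w hw
      have h1 : w ∈ W.toAddSubgroup := hw
      rw [h, AddSubgroup.mem_bot] at h1
      exact h1
    · right
      rw [Submodule.eq_top_iff']
      intro w
      have h1 : w ∈ W.toAddSubgroup := by
        rw [h]
        exact AddSubgroup.mem_top _
      exact h1
  exact hob r ⟨hr⟩ G S inferInstance inferInstance inferInstance iM
    inferInstance inferInstance (ob2_rep r φ) hs hf hi hN

/-- The point stabilizer acts faithfully and irreducibly on the regular normal subgroup `M`. -/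
private theorem ob2_emb [Nontrivial J] (N : ℕ) (hob : OBd N) (hN : Nat.card J ≤ N)
    (hs : Group.IsSolvable Y) (M : Subgroup Y) (r : ℕ) (hr : r.Prime) (hM : M.Normal)
    (hcom : ∀ a ∈ M, ∀ b ∈ M, a * b = b * a) (hexp : ∀ x ∈ M, x ^ r = 1)
    (htr : ∀ j j' : J, ∃ x ∈ M, x • j = j') (hreg : ∀ x ∈ M, ∀ j : J, x • j = j → x = 1)
    (hcen : ∀ y, (∀ x ∈ M, y * x = x * y) → y ∈ M)
    (hmin : ∀ N' : Subgroup Y, N'.Normal → N' ≤ M → N' = ⊥ ∨ N' = M) (j₀ : J) :
    4 * Nat.card (MulAction.stabilizer Y j₀) ≤ Nat.card J ^ 3 ∧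
      Nat.card Y = Nat.card J * Nat.card (MulAction.stabilizer Y j₀) := by
  classical
  haveI := Fact.mk hr
  have hbij : Function.Bijective (fun x : M => (x : Y) • j₀) := by
    constructor
    · intro a b hab
      have h1 : ((b : Y)⁻¹ * (a : Y)) • j₀ = j₀ := by
        have h2 : (a : Y) • j₀ = (b : Y) • j₀ := hab
        rw [mul_smul, h2, inv_smul_smul]
      have h3 := hreg _ (M.mul_mem (M.inv_mem b.2) a.2) j₀ h1
      exact Subtype.ext (inv_mul_eq_one.1 h3).symm
    · intro j
      obtain ⟨x, hx, hxj⟩ := htr j₀ j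
      exact ⟨⟨x, hx⟩, hxj⟩
  have hcard : Nat.card M = Nat.card J := Nat.card_congr (Equiv.ofBijective _ hbij)
  have hY : Nat.card Y = Nat.card J * Nat.card (MulAction.stabilizer Y j₀) := by
    have horb : Nat.card (MulAction.orbit Y j₀) = Nat.card J := by
      have h1 : MulAction.orbit Y j₀ = Set.univ := by
        refine Set.eq_univ_of_forall fun j => ?_
        obtain ⟨x, _, hxj⟩ := htr j₀ j
        exact ⟨x, hxj⟩
      rw [h1]
      exact Nat.card_congr (Equiv.Set.univ J)
    rw [← horb, ← Nat.card_prod]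
    exact (Nat.card_congr (MulAction.orbitProdStabilizerEquivGroup Y j₀)).symm
  refine ⟨?_, hY⟩
  letI iC : CommGroup M :=
    { (inferInstance : Group M) with
      mul_comm := fun a b => Subtype.ext (hcom a a.2 b b.2) }
  have hsol : Group.IsSolvable (MulAction.stabilizer Y j₀) := by
    haveI := hs
    infer_instance
  have hnt : Nontrivial (Additive M) := by
    obtain ⟨a, b, hab⟩ := exists_pair_ne J
    obtain ⟨x, hx⟩ := hbij.2 a
    obtain ⟨y, hy⟩ := hbij.2 b
    refine ⟨Additive.ofMul x, Additive.ofMul y, fun hxy => hab ?_⟩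
    have h1 : x = y := hxy
    rw [← hx, ← hy, h1]
  let φ : MulAction.stabilizer Y j₀ →* MulAut M :=
    MulAut.conjNormal.comp (MulAction.stabilizer Y j₀).subtype
  have hφ : ∀ (y : MulAction.stabilizer Y j₀) (x : M),
      ((φ y x : M) : Y) = (y : Y) * (x : Y) * (y : Y)⁻¹ :=
    fun y x => MulAut.conjNormal_apply _ _
  let θ : MulAction.stabilizer Y j₀ →* AddMonoid.End (Additive M) :=
    { toFun := fun y => MonoidHom.toAdditive (φ y).toMonoidHom
      map_one' := by
        refine AddMonoidHom.ext fun x => ?_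
        show Additive.ofMul (φ 1 (Additive.toMul x)) = x
        rw [map_one φ]
        rfl
      map_mul' := fun a b => by
        refine AddMonoidHom.ext fun x => ?_
        show Additive.ofMul (φ (a * b) (Additive.toMul x)) =
          Additive.ofMul (φ a (φ b (Additive.toMul x)))
        rw [map_mul φ]
        rfl }
  have hexp' : ∀ x : Additive M, r • x = 0 := fun x =>
    Subtype.ext (hexp _ (Additive.toMul x).2)
  have hfai : ∀ y, (∀ x, θ y x = x) → y = 1 := by
    intro y hy
    have h1 : (y : Y) ∈ M := by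
      refine hcen _ fun x hx => ?_
      have h2 := hφ y ⟨x, hx⟩
      have h4 : φ y ⟨x, hx⟩ = ⟨x, hx⟩ := hy (Additive.ofMul ⟨x, hx⟩)
      rw [h4] at h2
      have h3 : x = (y : Y) * x * (y : Y)⁻¹ := h2
      exact (eq_mul_inv_iff_mul_eq.1 h3).symm
    have h2 := hreg _ h1 j₀ y.2
    exact Subtype.ext h2
  have hirr : ∀ D : AddSubgroup (Additive M), (∀ g, ∀ x ∈ D, θ g x ∈ D) → D = ⊥ ∨ D = ⊤ := by
    intro D' hD'
    let D : Subgroup M := AddSubgroup.toSubgroup' D'
    have hD : ∀ g, ∀ x ∈ D, φ g x ∈ D := fun g x hx => hD' g _ hx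
    have hnor : (D.map M.subtype).Normal := by
      refine ⟨fun y hy g => ?_⟩
      obtain ⟨z, hzD, rfl⟩ := hy
      obtain ⟨m, hm, hmj⟩ := htr j₀ (g • j₀)
      have hst : m⁻¹ * g ∈ MulAction.stabilizer Y j₀ := by
        rw [MulAction.mem_stabilizer_iff, mul_smul, ← hmj, inv_smul_smul]
      have h1 : g * (z : Y) * g⁻¹ = (m⁻¹ * g) * (z : Y) * (m⁻¹ * g)⁻¹ := by
        have h2 : (m⁻¹ * g) * (z : Y) * (m⁻¹ * g)⁻¹ ∈ M := hM.conj_mem (z : Y) z.2 _
        have h3 : g * (z : Y) * g⁻¹ = m * ((m⁻¹ * g) * (z : Y) * (m⁻¹ * g)⁻¹) * m⁻¹ := by group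
        rw [h3, hcom m hm _ h2, mul_assoc, mul_inv_cancel, mul_one]
      exact ⟨φ ⟨m⁻¹ * g, hst⟩ z, hD _ z hzD, (hφ ⟨m⁻¹ * g, hst⟩ z).trans h1.symm⟩
    have hle : D.map M.subtype ≤ M := by
      rintro y ⟨z, _, rfl⟩
      exact z.2
    rcases hmin _ hnor hle with h | h
    · left
      rw [eq_bot_iff]
      intro x hx
      have h1 : ((Additive.toMul x : M) : Y) ∈ D.map M.subtype := ⟨Additive.toMul x, hx, rfl⟩
      rw [h, Subgroup.mem_bot] at h1
      rw [AddSubgroup.mem_bot]
      exact Subtype.ext h1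
    · right
      rw [eq_top_iff]
      intro x _
      have h1 : ((Additive.toMul x : M) : Y) ∈ D.map M.subtype := by
        rw [h]
        exact (Additive.toMul x).2
      obtain ⟨z, hz, hzx⟩ := h1
      have h2 : z = Additive.toMul x := Subtype.ext hzx
      have h3 : Additive.ofMul z ∈ D' := hz
      rw [h2] at h3
      exact h3
  have hc' : Nat.card (Additive M) = Nat.card J := hcard
  have key := @ob2_bd (MulAction.stabilizer Y j₀) (Additive M) _ _ _ _ hnt N hob
    (hc'.trans_le hN) hsol r hr (AddCommGroup.zmodModule hexp') θ hfai hirr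
  rw [hc'] at key
  exact key

/-- (ob2, size 4) PROOF. `prim_reg`; the stabilizer `Y₀` of a point `j₀` acts faithfully (`centralizer`: an element of `Y₀`
which centralizes `N` is in `N ∩ Y₀ = 1`) and irreducibly (minimality; a `Y₀`-invariant subgroup of `N` is
normal in `Y = N Y₀`) by conjugation on `N` = `Additive N`, a module over `ZMod r` (`AddCommGroup.zmodModule`),
`card N = card J`, `card Y = card J * card Y₀`. `OBd`: `4 card Y₀ ≤ card J ^ 3`. -/
theorem prim_card [Nontrivial J] (N : ℕ) (hob : OBd N) (hN : Nat.card J ≤ N)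
    (hs : Group.IsSolvable Y) (hf : ∀ y : Y, (∀ j : J, y • j = j) → y = 1)
    (hp : MulAction.IsPreprimitive Y J) : 4 * Nat.card Y ≤ Nat.card J ^ 4 := by
  obtain ⟨M, r, hab, hr, hexp, htr, hreg, hcen, hmin⟩ := prim_reg hs hf hp
  obtain ⟨j₀⟩ : Nonempty J := inferInstance
  obtain ⟨h1, h2⟩ := ob2_emb N hob hN hs M r hr hab.nor hab.com hexp htr hreg hcen hmin j₀
  calc 4 * Nat.card Y = Nat.card J * (4 * Nat.card (MulAction.stabilizer Y j₀)) := by
        rw [h2]
        ring
    _ ≤ Nat.card J * Nat.card J ^ 3 := Nat.mul_le_mul_left _ h1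
    _ = Nat.card J ^ 4 := by ring
-- END ob2

end

-- BEGIN ob3
/-- The action on an invariant subset. -/
def ob3_act {Y J : Type} [Group Y] [MulAction Y J] (s : Set J)
    (hs : ∀ (y : Y) (j : J), j ∈ s → y • j ∈ s) : MulAction Y s where
  smul y j := ⟨y • j.1, hs y j.1 j.2⟩
  one_smul j := Subtype.ext (one_smul Y j.1)
  mul_smul y z j := Subtype.ext (mul_smul y z j.1)

theorem ob3_inj {Y : Type} [Group Y] [Finite Y] {ι : Type} [Fintype ι] {G : ι → Type}
    [∀ i, Group (G i)] [∀ i, Finite (G i)] (φ : ∀ i, Y →* G i)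
    (h : ∀ y, (∀ i, φ i y = 1) → y = 1) :
    Nat.card Y ≤ ∏ i, Nat.card (φ i).range := by
  classical
  have hi : Function.Injective (fun y : Y => fun i => (φ i).rangeRestrict y) := by
    intro y z hyz
    have h1 : y * z⁻¹ = 1 := by
      apply h
      intro i
      have h2 : (φ i).rangeRestrict y = (φ i).rangeRestrict z := congrFun hyz i
      have h3 : φ i y = φ i z := congrArg Subtype.val h2
      rw [map_mul, map_inv, h3, mul_inv_cancel]
    exact mul_inv_eq_one.mp h1
  have := Nat.card_le_card_of_injective _ hi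
  rwa [Nat.card_pi] at this

/-- The bound for the image in the permutations of an invariant set. -/
theorem ob3_img {n : ℕ} (hP : PBd n) {Y J : Type} [Group Y] [Finite Y] [Finite J] [Nonempty J]
    [MulAction Y J] (hs : Group.IsSolvable Y) (hJ : Nat.card J ≤ n) :
    4 * Nat.card (MulAction.toPermHom Y J).range ≤ 4 ^ Nat.card J := by
  classical
  have hfin : Finite (MulAction.toPermHom Y J).range := inferInstance
  refine hP (MulAction.toPermHom Y J).range J inferInstance inferInstance inferInstance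
    inferInstance inferInstance ?_ ?_ hJ
  · haveI := hs
    exact Group.isSolvable_of_surjective (MulAction.toPermHom Y J).rangeRestrict_surjective
  · intro y hy
    apply Subtype.ext
    apply Equiv.ext
    intro j
    exact hy j

/-- The intransitive case. -/
theorem ob3_int {n : ℕ} (hP : PBd n) {Y J : Type} [Group Y] [Finite Y] [Finite J]
    [MulAction Y J] (hs : Group.IsSolvable Y) (hf : ∀ y : Y, (∀ j : J, y • j = j) → y = 1)
    (hJ : Nat.card J ≤ n + 1) (s : Set J) (hs1 : ∀ (y : Y) (j : J), j ∈ s → y • j ∈ s)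
    (hne : s.Nonempty) (hne2 : sᶜ.Nonempty) : 4 * Nat.card Y ≤ 4 ^ Nat.card J := by
  classical
  have hs2 : ∀ (y : Y) (j : J), j ∈ sᶜ → y • j ∈ sᶜ := by
    intro y j hj hj2
    apply hj
    have := hs1 y⁻¹ _ hj2
    rwa [inv_smul_smul] at this
  letI A1 := ob3_act s hs1
  letI A2 := ob3_act sᶜ hs2
  haveI : Nonempty s := hne.to_subtype
  haveI : Nonempty (sᶜ : Set J) := hne2.to_subtype
  have hc : Nat.card s + Nat.card (sᶜ : Set J) = Nat.card J := by
    have h1 := Nat.card_congr (Equiv.Set.sumCompl s)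
    rw [Nat.card_sum] at h1
    exact h1
  have hp1 : 0 < Nat.card s := Nat.card_pos
  have hp2 : 0 < Nat.card (sᶜ : Set J) := Nat.card_pos
  have h1 := ob3_img hP (Y := Y) (J := s) hs (by omega)
  have h2 := ob3_img hP (Y := Y) (J := (sᶜ : Set J)) hs (by omega)
  have hi : Function.Injective (fun y : Y => ((MulAction.toPermHom Y s).rangeRestrict y,
      (MulAction.toPermHom Y (sᶜ : Set J)).rangeRestrict y)) := by
    intro y z hyz
    have h3 : MulAction.toPermHom Y s y = MulAction.toPermHom Y s z :=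
      congrArg Subtype.val (congrArg Prod.fst hyz)
    have h4 : MulAction.toPermHom Y (sᶜ : Set J) y = MulAction.toPermHom Y (sᶜ : Set J) z :=
      congrArg Subtype.val (congrArg Prod.snd hyz)
    have h5 : z⁻¹ * y = 1 := by
      apply hf
      intro j
      rw [mul_smul, inv_smul_eq_iff]
      by_cases hj : j ∈ s
      · exact congrArg Subtype.val (Equiv.ext_iff.mp h3 ⟨j, hj⟩)
      · exact congrArg Subtype.val (Equiv.ext_iff.mp h4 ⟨j, hj⟩)
    exact (inv_mul_eq_one.mp h5).symm
  have h6 := Nat.card_le_card_of_injective _ hi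
  rw [Nat.card_prod] at h6
  have h7 : 4 ^ Nat.card J = 4 ^ Nat.card s * 4 ^ Nat.card (sᶜ : Set J) := by
    rw [← hc, pow_add]
  rw [h7]
  have h8 := Nat.mul_le_mul h1 h2
  have h9 : 4 * Nat.card Y ≤ 4 * (Nat.card (MulAction.toPermHom Y s).range *
      Nat.card (MulAction.toPermHom Y (sᶜ : Set J)).range) := Nat.mul_le_mul_left 4 h6
  refine h9.trans (le_trans ?_ h8)
  nlinarith [Nat.zero_le (Nat.card (MulAction.toPermHom Y s).range *
      Nat.card (MulAction.toPermHom Y (sᶜ : Set J)).range)]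

open scoped Pointwise in
/-- The imprimitive case. -/
theorem ob3_imp {n : ℕ} (hP : PBd n) {Y J : Type} [Group Y] [Finite Y] [Finite J]
    [MulAction Y J] [MulAction.IsPretransitive Y J] (hs : Group.IsSolvable Y)
    (hf : ∀ y : Y, (∀ j : J, y • j = j) → y = 1)
    (hJ : Nat.card J ≤ n + 1) (B : Set J) (hB : MulAction.IsBlock Y B)
    (hB1 : ¬ B.Subsingleton) (hB2 : B ≠ Set.univ) : 4 * Nat.card Y ≤ 4 ^ Nat.card J := by
  classical
  have hBne : B.Nonempty := by
    rw [Set.nonempty_iff_ne_empty]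
    rintro rfl
    exact hB1 Set.subsingleton_empty
  have hmul := hB.ncard_block_mul_ncard_orbit_eq hBne
  have hb2 : 2 ≤ B.ncard := by
    by_contra hcon
    apply hB1
    have : B.ncard ≤ 1 := by omega
    exact Set.ncard_le_one_iff_subsingleton.mp this
  have hfinO : Finite (MulAction.orbit Y B) := inferInstance
  have hneO : Nonempty (MulAction.orbit Y B) := ⟨⟨B, MulAction.mem_orbit_self B⟩⟩
  have hcard : Nat.card (MulAction.orbit Y B) = (MulAction.orbit Y B).ncard := rfl
  have hpos : 0 < (MulAction.orbit Y B).ncard := by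
    rw [← hcard]; exact Nat.card_pos
  have hm2 : 2 ≤ (MulAction.orbit Y B).ncard := by
    by_contra hcon
    have h1 : (MulAction.orbit Y B).ncard = 1 := by omega
    rw [h1, mul_one] at hmul
    apply hB2
    exact (Set.eq_univ_iff_ncard B).mpr hmul
  set m := (MulAction.orbit Y B).ncard with hm
  set b := B.ncard with hb
  have hbJ : b < Nat.card J := by nlinarith
  have hmJ : m < Nat.card J := by nlinarith
  -- the image in the permutations of the translates
  have hI := ob3_img hP (Y := Y) (J := MulAction.orbit Y B) hs (by rw [hcard]; omega)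
  rw [hcard] at hI
  -- the kernel
  set K : Subgroup Y := (MulAction.toPermHom Y (MulAction.orbit Y B)).ker with hK
  have hKs : Group.IsSolvable K := by
    have := hs
    infer_instance
  have hKb : ∀ (c : MulAction.orbit Y B) (k : K) (j : J), j ∈ c.1 → k • j ∈ c.1 := by
    intro c k j hj
    have h1 : MulAction.toPermHom Y (MulAction.orbit Y B) k.1 = 1 := k.2
    have h2 : k.1 • c = c := Equiv.ext_iff.mp h1 c
    have h3 : k.1 • c.1 = c.1 := congrArg Subtype.val h2
    have h4 : k.1 • j ∈ k.1 • c.1 := Set.smul_mem_smul_set hj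
    rw [h3] at h4
    exact h4
  have hcc : ∀ c : MulAction.orbit Y B, Nat.card c.1 = b := by
    rintro ⟨c, y, rfl⟩
    show (y • B).ncard = b
    exact Set.ncard_smul_set y B
  let φ : ∀ c : MulAction.orbit Y B, K →* Equiv.Perm c.1 := fun c =>
    @MulAction.toPermHom K c.1 _ (ob3_act c.1 (hKb c))
  have hφ : ∀ c, 4 * Nat.card (φ c).range ≤ 4 ^ b := by
    intro c
    have hcne : Nonempty c.1 := by
      have h1 : 0 < Nat.card c.1 := by rw [hcc c]; omega
      exact (Nat.card_pos_iff.mp h1).1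
    letI A := ob3_act c.1 (hKb c)
    have h1 := ob3_img hP (Y := K) (J := c.1) hKs (by rw [hcc c]; omega)
    rw [hcc c] at h1
    exact h1
  have hj : ∀ k : K, (∀ c, φ c k = 1) → k = 1 := by
    intro k hk
    apply Subtype.ext
    apply hf
    intro j
    obtain ⟨j0, hj0⟩ := hBne
    obtain ⟨y, hy⟩ := MulAction.exists_smul_eq Y j0 j
    have hjm : j ∈ y • B := by
      rw [← hy]
      exact Set.smul_mem_smul_set hj0
    exact congrArg Subtype.val (Equiv.ext_iff.mp (hk ⟨y • B, y, rfl⟩) ⟨j, hjm⟩)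
  haveI : Fintype (MulAction.orbit Y B) := Fintype.ofFinite _
  have hKc := ob3_inj φ hj
  have h1 : 4 ^ m * Nat.card K ≤ 4 ^ Nat.card J := by
    calc 4 ^ m * Nat.card K ≤ 4 ^ m * ∏ c, Nat.card (φ c).range := Nat.mul_le_mul_left _ hKc
      _ = ∏ c, (4 * Nat.card (φ c).range) := by
          rw [Finset.prod_mul_distrib, Finset.prod_const, Finset.card_univ,
            ← Nat.card_eq_fintype_card, hcard]
      _ ≤ ∏ _c : MulAction.orbit Y B, 4 ^ b := Finset.prod_le_prod' fun c _ => hφ c
      _ = 4 ^ Nat.card J := by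
          rw [Finset.prod_const, Finset.card_univ, ← Nat.card_eq_fintype_card, hcard, ← pow_mul,
            hmul]
  have h2 : Nat.card Y = Nat.card K * Nat.card (MulAction.toPermHom Y (MulAction.orbit Y B)).range := by
    rw [← Subgroup.index_ker, Subgroup.card_mul_index]
  calc 4 * Nat.card Y = Nat.card K *
        (4 * Nat.card (MulAction.toPermHom Y (MulAction.orbit Y B)).range) := by rw [h2]; ring
    _ ≤ Nat.card K * 4 ^ m := Nat.mul_le_mul_left _ hI
    _ = 4 ^ m * Nat.card K := mul_comm _ _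
    _ ≤ 4 ^ Nat.card J := h1

/-- (ob3, size 5) PROOF. Induction on `card J`. (1) `card J = 1`: `Y` is trivial. (2) Not transitive: `J` is the union of
two nonempty invariant subsets `J₁`, `J₂` (an orbit and its complement); `Y` embeds in the product of its images in
the permutation groups of `J₁` and `J₂`: `card Y ≤ (4 ^ j₁ / 4) (4 ^ j₂ / 4)`. (3) Transitive, not primitive: there is a block
`b` with `1 < card b < card J` (`MulAction.IsBlock`); `Σ` = the set of the translates of `b`, `m` of them,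
`m * card b = card J`. The image of `Y` in the permutations of `Σ` has order at most `4 ^ (m - 1)`, the kernel embeds in the
product over `b' ∈ Σ` of its images in the permutations of `b'`, each of order at most `4 ^ (card b - 1)`. So
`card Y ≤ 4 ^ (m - 1 + m (card b - 1)) = 4 ^ (card J - 1)`. (4) Primitive: `card J ≤ 3`: `Y` embeds in the symmetric group:
`card Y ≤ (card J)!`; for `card J ≥ 4`: `prim_card` and `n ^ 4 ≤ 4 ^ n`. (Subgroups and quotients of solvable groups are
solvable.) -/
theorem pb_of (N : ℕ) (hob : OBd N) : PBd N := by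
  have key : ∀ n, n ≤ N → PBd n := by
    intro n
    induction n with
    | zero =>
      intro _ Y J _ _ _ _ _ _ _ hJ
      have : 0 < Nat.card J := Nat.card_pos
      omega
    | succ n ih =>
      intro hn Y J _ _ _ _ _ hs hf hJ
      have hP := ih (by omega)
      have hJpos : 0 < Nat.card J := Nat.card_pos
      by_cases htr : MulAction.IsPretransitive Y J
      · by_cases hpr : MulAction.IsPreprimitive Y J
        · -- primitive
          rcases Nat.lt_or_ge (Nat.card J) 4 with h4 | h4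
          · have h1 : Nat.card Y ≤ (Nat.card J).factorial := by
              have hi : Function.Injective (MulAction.toPermHom Y J) := by
                rw [injective_iff_map_eq_one]
                intro y hy
                exact hf y fun j => Equiv.ext_iff.mp hy j
              have := Nat.card_le_card_of_injective _ hi
              rwa [Nat.card_perm] at this
            have h2 : 4 * (Nat.card J).factorial ≤ 4 ^ Nat.card J := by
              generalize Nat.card J = c at *
              interval_cases c <;> decide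
            exact (Nat.mul_le_mul_left 4 h1).trans h2
          · have hnt : Nontrivial J := (Finite.one_lt_card_iff_nontrivial).mp (by omega)
            have h1 := prim_card (Y := Y) (J := J) N hob (by omega) hs hf hpr
            refine h1.trans ?_
            have h2 : ∀ c : ℕ, 4 ≤ c → c ^ 4 ≤ 4 ^ c := by
              intro c hc
              induction c, hc using Nat.le_induction with
              | base => norm_num
              | succ c hc ih2 =>
                have h3 : (c + 1) ^ 4 ≤ 4 * c ^ 4 := by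
                  obtain ⟨d, rfl⟩ : ∃ d, c = d + 4 := ⟨c - 4, by omega⟩
                  ring_nf
                  nlinarith [Nat.zero_le (d ^ 4), Nat.zero_le (d ^ 3), Nat.zero_le (d ^ 2),
                    Nat.zero_le d]
                have h5 : 4 ^ (c + 1) = 4 * 4 ^ c := by ring
                omega
            exact h2 _ h4
        · -- imprimitive
          have h1 : ∃ B : Set J, MulAction.IsBlock Y B ∧ ¬ MulAction.IsTrivialBlock B := by
            by_contra hcon
            have h3 : ∀ B : Set J, MulAction.IsBlock Y B → MulAction.IsTrivialBlock B := by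
              intro B hB
              by_contra h2
              exact hcon ⟨B, hB, h2⟩
            exact hpr { htr with isTrivialBlock_of_isBlock := fun {B} hB => h3 B hB }
          obtain ⟨B, hB, hBt⟩ := h1
          exact ob3_imp hP hs hf hJ B hB (fun h => hBt (Or.inl h)) (fun h => hBt (Or.inr h))
      · -- not transitive
        obtain ⟨j0⟩ := ‹Nonempty J›
        refine ob3_int hP hs hf hJ (MulAction.orbit Y j0) ?_ ⟨j0, MulAction.mem_orbit_self j0⟩ ?_
        · intro y j hj
          exact MulAction.mem_orbit_of_mem_orbit y hj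
        · rw [Set.nonempty_compl]
          intro hU
          apply htr
          rw [MulAction.isPretransitive_iff_base (a := j0)]
          intro j
          have : j ∈ MulAction.orbit Y j0 := by rw [hU]; trivial
          exact this
  exact key N le_rfl
-- END ob3

-- BEGIN ob4
theorem ob4_inj {p : ℕ} {X S J : Type} [Group X] [AddCommGroup S] [Module (ZMod p) S]
    {ρ : Representation (ZMod p) X S} {W : J → Submodule (ZMod p) S} {UU : J → Subgroup X}
    (hB : BS ρ W UU) : Function.Injective W := by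
  intro i j hij
  by_contra hne
  have h1 : Disjoint (W i) (W j) := hB.ind.pairwiseDisjoint hne
  rw [hij, disjoint_self] at h1
  exact hB.ne j h1

theorem ob4_map {p : ℕ} {X S : Type} [Group X] [AddCommGroup S] [Module (ZMod p) S]
    (ρ : Representation (ZMod p) X S) (V : Submodule (ZMod p) S) (g h : X) :
    V.map (ρ (g * h)) = (V.map (ρ h)).map (ρ g) := by
  rw [map_mul]
  exact Submodule.map_comp _ _ _

/-- The action on the blocks. -/
noncomputable def ob4_act {p : ℕ} {X S J : Type} [Group X] [AddCommGroup S] [Module (ZMod p) S]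
    {ρ : Representation (ZMod p) X S} {W : J → Submodule (ZMod p) S} {UU : J → Subgroup X}
    (hB : BS ρ W UU) : MulAction X J where
  smul h j := Classical.choose (hB.prm h j)
  one_smul := by
    intro j
    apply ob4_inj hB
    refine (Classical.choose_spec (hB.prm 1 j)).symm.trans ?_
    rw [map_one]
    exact Submodule.map_id _
  mul_smul := by
    intro g h j
    apply ob4_inj hB
    refine (Classical.choose_spec (hB.prm (g * h) j)).symm.trans ?_
    rw [ob4_map, Classical.choose_spec (hB.prm h j)]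
    exact Classical.choose_spec (hB.prm g _)

/-- The action on a block. -/
noncomputable def ob4_rp {p : ℕ} {X S : Type} [Group X] [AddCommGroup S] [Module (ZMod p) S]
    (ρ : Representation (ZMod p) X S) (V : Submodule (ZMod p) S) :
    Nm ρ V →* Module.End (ZMod p) V where
  toFun g := (ρ (g : X)).restrict (p := V) (q := V) (fun w hw => by
    have h1 : V.map (ρ (g : X)) = V := g.2
    have h2 : ρ (g : X) w ∈ V.map (ρ (g : X)) := Submodule.mem_map_of_mem hw
    rwa [h1] at h2)
  map_one' := by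
    ext w
    rw [LinearMap.restrict_apply]
    simp
  map_mul' g h := by
    ext w
    rw [LinearMap.restrict_apply]
    simp [LinearMap.restrict_apply]

theorem ob4_rp_apply {p : ℕ} {X S : Type} [Group X] [AddCommGroup S] [Module (ZMod p) S]
    (ρ : Representation (ZMod p) X S) (V : Submodule (ZMod p) S) (g : Nm ρ V) (w : V) :
    ((ob4_rp ρ V g w : V) : S) = ρ (g : X) w := rfl

theorem ob4_card {p : ℕ} {X S J : Type} [Group X] [AddCommGroup S] [Module (ZMod p) S]
    [Finite S] [Fintype J] {ρ : Representation (ZMod p) X S} {W : J → Submodule (ZMod p) S}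
    {UU : J → Subgroup X} (hB : BS ρ W UU) : ∏ j, Nat.card (W j) = Nat.card S := by
  classical
  have h1 : DirectSum.IsInternal W :=
    DirectSum.isInternal_submodule_of_iSupIndep_of_iSup_eq_top hB.ind hB.sup
  have e1 : (DirectSum J fun j => W j) ≃ S := Equiv.ofBijective _ h1
  have e2 : (DirectSum J fun j => W j) ≃ ((j : J) → W j) :=
    (DirectSum.addEquivProd fun j => W j).toEquiv
  rw [← Nat.card_pi]
  exact Nat.card_congr (e2.symm.trans e1)

/-- (ob4, size 5) The imprimitive case. PROOF. `Y` = the image of `X` in the permutations of `J` (transitive; `J` is the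
index set of the blocks; `J` has at most `card S` elements, in fact `2 ^ card J ≤ card S`), `card Y ≤ 4 ^ (k-1)`. The
kernel embeds in the product over `j` of its images in `GL (W j)`, each of which is contained in the group `L_j`
of `bs_qp`; `L_j` is solvable, faithful, and irreducible on `W j` (`blo_irr`-like; here it is the
hypothesis `hirr`), so `4 card L_j ≤ card (W j) ^ 3`. So `card X ≤ 4 ^ (k-1) (card (W j) ^ 3 / 4) ^ k =
card S ^ 3 / 4`, using `card S = ∏ card (W j)` and that all `W j` have the same cardinality. -/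
theorem ob_imp {p : ℕ} [Fact p.Prime] {X S J : Type} [Group X] [Finite X] [AddCommGroup S]
    [Module (ZMod p) S] [Finite S] [Finite J] [Nonempty J] {ρ : Representation (ZMod p) X S}
    {W : J → Submodule (ZMod p) S} {UU : J → Subgroup X} (hB : BS ρ W UU)
    (hs : Group.IsSolvable X) (hf : ∀ h, (∀ w, ρ h w = w) → h = 1) (hpb : PBd (Nat.card J))
    (hL : ∀ j, ∀ (L : Type) (_ : Group L) (_ : Finite L) (ρL : Representation (ZMod p) L (W j))
      (π : Nm ρ (W j) →* L), Function.Surjective π →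
      (∀ (g : Nm ρ (W j)) (w : W j), ((ρL (π g) w : W j) : S) = ρ (g : X) w) →
      (∀ h, (∀ w, ρL h w = w) → h = 1) → 4 * Nat.card L ≤ Nat.card (W j) ^ 3) :
    4 * Nat.card X ≤ Nat.card S ^ 3 := by
  classical
  haveI : Fintype J := Fintype.ofFinite J
  letI : MulAction X J := ob4_act hB
  set φ : X →* Equiv.Perm J := MulAction.toPermHom X J with hφ
  have hφ1 : ∀ h j, (W j).map (ρ h) = W (φ h j) := fun h j =>
    Classical.choose_spec (hB.prm h j)
  -- the permutation group
  have hY : 4 * Nat.card φ.range ≤ 4 ^ Nat.card J := by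
    haveI := hs
    refine hpb φ.range J inferInstance inferInstance inferInstance inferInstance inferInstance
      (Group.isSolvable_of_surjective φ.rangeRestrict_surjective) ?_ le_rfl
    intro y hy
    apply Subtype.ext
    apply Equiv.ext
    intro j
    exact hy j
  have hcard : Nat.card X = Nat.card φ.ker * Nat.card φ.range := by
    rw [← Subgroup.index_ker, Subgroup.card_mul_index]
  have hK : ∀ k : φ.ker, ∀ j, (k : X) ∈ Nm ρ (W j) := by
    intro k j
    rw [mem_Nm, hφ1]
    have h1 : φ (k : X) = 1 := k.2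
    rw [h1]
    rfl
  -- the linear groups
  let π : ∀ j, Nm ρ (W j) →* ((ob4_rp ρ (W j)).toHomUnits).range := fun j =>
    ((ob4_rp ρ (W j)).toHomUnits).rangeRestrict
  let ρL : ∀ j, ((ob4_rp ρ (W j)).toHomUnits).range →* Module.End (ZMod p) (W j) := fun j =>
    (Units.coeHom (Module.End (ZMod p) (W j))).comp (Subgroup.subtype _)
  have hπρ : ∀ j (g : Nm ρ (W j)), ρL j (π j g) = ob4_rp ρ (W j) g := fun j g => rfl
  have hLj : ∀ j, 4 * Nat.card ((ob4_rp ρ (W j)).toHomUnits).range ≤ Nat.card (W j) ^ 3 := by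
    intro j
    haveI : Finite ((ob4_rp ρ (W j)).toHomUnits).range :=
      Finite.of_surjective (π j) (MonoidHom.rangeRestrict_surjective _)
    refine hL j _ inferInstance inferInstance (ρL j) (π j)
      (MonoidHom.rangeRestrict_surjective _) ?_ ?_
    · intro g w
      rw [hπρ]
      rfl
    · intro h hh
      apply Subtype.ext
      apply Units.ext
      apply LinearMap.ext
      intro w
      exact hh w
  have hKc : Nat.card φ.ker ≤ ∏ j, Nat.card ((ob4_rp ρ (W j)).toHomUnits).range := by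
    haveI : ∀ j, Finite ((ob4_rp ρ (W j)).toHomUnits).range := fun j =>
      Finite.of_surjective (π j) (MonoidHom.rangeRestrict_surjective _)
    rw [← Nat.card_pi]
    refine Nat.card_le_card_of_injective
      (fun (k : φ.ker) (j : J) => π j ⟨(k : X), hK k j⟩) ?_
    intro k k' hkk
    apply Subtype.ext
    have hW : ∀ j, ∀ w ∈ W j, ρ (k : X) w = ρ (k' : X) w := by
      intro j w hw
      have h1 : π j ⟨(k : X), hK k j⟩ = π j ⟨(k' : X), hK k' j⟩ := congrFun hkk j
      have h2 : ob4_rp ρ (W j) ⟨(k : X), hK k j⟩ = ob4_rp ρ (W j) ⟨(k' : X), hK k' j⟩ := by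
        rw [← hπρ, ← hπρ, h1]
      have h3 := congrArg (fun f => ((f ⟨w, hw⟩ : W j) : S)) h2
      exact h3
    have hall : ρ (k : X) = ρ (k' : X) := by
      have h1 : (⊤ : Submodule (ZMod p) S) ≤ LinearMap.eqLocus (ρ (k : X)) (ρ (k' : X)) := by
        rw [← hB.sup]
        exact iSup_le fun j w hw => hW j w hw
      apply LinearMap.ext
      intro w
      exact h1 Submodule.mem_top
    have h4 : (k' : X)⁻¹ * (k : X) = 1 := by
      apply hf
      intro w
      rw [map_mul, hall, ← map_mul, inv_mul_cancel, map_one]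
      rfl
    exact (inv_mul_eq_one.mp h4).symm
  have h5 : 4 ^ Nat.card J * Nat.card φ.ker ≤ Nat.card S ^ 3 := by
    calc 4 ^ Nat.card J * Nat.card φ.ker
        ≤ 4 ^ Nat.card J * ∏ j, Nat.card ((ob4_rp ρ (W j)).toHomUnits).range :=
          Nat.mul_le_mul_left _ hKc
      _ = ∏ j, (4 * Nat.card ((ob4_rp ρ (W j)).toHomUnits).range) := by
          rw [Finset.prod_mul_distrib, Finset.prod_const, Finset.card_univ,
            Nat.card_eq_fintype_card]
      _ ≤ ∏ j, Nat.card (W j) ^ 3 := Finset.prod_le_prod' fun j _ => hLj j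
      _ = Nat.card S ^ 3 := by rw [Finset.prod_pow, ob4_card hB]
  calc 4 * Nat.card X = Nat.card φ.ker * (4 * Nat.card φ.range) := by rw [hcard]; ring
    _ ≤ Nat.card φ.ker * 4 ^ Nat.card J := Nat.mul_le_mul_left _ hY
    _ = 4 ^ Nat.card J * Nat.card φ.ker := Nat.mul_comm _ _
    _ ≤ Nat.card S ^ 3 := h5
-- END ob4

-- BEGIN ob5
private theorem ob5_com {L : Type} [Group L] [Finite L] (hs : Group.IsSolvable L) (U M : Subgroup L)
    [U.Normal] (hM : M.Normal) (hU : U < M)
    (hmin : ∀ N : Subgroup L, N.Normal → U ≤ N → N ≤ M → N = U ∨ N = M) : ⁅M, M⁆ ≤ U := by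
  have := hM
  rcases hmin (⁅M, M⁆ ⊔ U) inferInstance le_sup_right
    (sup_le (Subgroup.commutator_le_left M M) hU.le) with h | h
  · exact le_sup_left.trans h.le
  · exfalso
    have : Group.IsSolvable L := hs
    have : Group.IsSolvable (M ⧸ U.subgroupOf M) := inferInstance
    have : Nontrivial (M ⧸ U.subgroupOf M) := by
      rw [QuotientGroup.nontrivial_iff]
      intro h1
      rw [Subgroup.subgroupOf_eq_top] at h1
      exact absurd hU (not_lt_of_ge h1)
    have h2 := Group.IsSolvable.commutator_lt_top_of_nontrivial (M ⧸ U.subgroupOf M)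
    apply h2.ne
    rw [eq_top_iff]
    rintro x -
    obtain ⟨x, rfl⟩ := QuotientGroup.mk_surjective x
    have h3 : (x : L) ∈ ⁅M, M⁆ ⊔ U := by rw [h]; exact x.2
    obtain ⟨y, hy, u, hu, hyu⟩ := Subgroup.mem_sup_of_normal_right.1 h3
    have hyM : y ∈ M := Subgroup.commutator_le_left M M hy
    have h4 : (QuotientGroup.mk x : M ⧸ U.subgroupOf M) = QuotientGroup.mk ⟨y, hyM⟩ := by
      rw [eq_comm, QuotientGroup.eq, Subgroup.mem_subgroupOf]
      have : (((⟨y, hyM⟩ : M)⁻¹ * x : M) : L) = u := by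
        show y⁻¹ * (x : L) = u
        rw [← hyu]; group
      rw [this]; exact hu
    rw [h4]
    have h5 : (⟨y, hyM⟩ : M) ∈ commutator M := by
      have h6 : ⁅M, M⁆ = (commutator M).map M.subtype := by
        rw [commutator_def, Subgroup.map_commutator, ← MonoidHom.range_eq_map, Subgroup.range_subtype]
      rw [h6] at hy
      obtain ⟨z, hz, hz2⟩ := hy
      have : z = ⟨y, hyM⟩ := Subtype.ext hz2
      rw [← this]; exact hz
    have h7 : (commutator M).map (QuotientGroup.mk' (U.subgroupOf M)) ≤ commutator (M ⧸ U.subgroupOf M) := by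
      rw [commutator_def, commutator_def, Subgroup.map_commutator]
      exact Subgroup.commutator_mono le_top le_top
    exact h7 ⟨_, h5, rfl⟩

private theorem ob5_rep {r : ℕ} {Q L : Type} [CommGroup Q] [Group L] (hexp : ∀ x : Q, x ^ r = 1)
    (c : L → Q →* Q) (h1 : ∀ x, c 1 x = x) (h2 : ∀ g h x, c (g * h) x = c g (c h x)) :
    ∃ (_ : Module (ZMod r) (Additive Q)) (ρ : Representation (ZMod r) L (Additive Q)),
      ∀ g (x : Q), ρ g (Additive.ofMul x) = Additive.ofMul (c g x) := by
  have hx : ∀ x : Additive Q, r • x = 0 := fun x => hexp (Additive.toMul x)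
  refine ⟨AddCommGroup.zmodModule hx, ?_⟩
  let iM : Module (ZMod r) (Additive Q) := AddCommGroup.zmodModule hx
  exact ⟨{ toFun := fun g => AddMonoidHom.toZModLinearMap r (MonoidHom.toAdditive (c g))
           map_one' := LinearMap.ext fun x => h1 (Additive.toMul x)
           map_mul' := fun g h => LinearMap.ext fun x => h2 g h (Additive.toMul x) }, fun g x => rfl⟩

/-- (ob5, size 3) The module of a chief factor. PROOF. `M / U` is a minimal normal subgroup of the solvable group `L / U`, so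
it is elementary abelian; `S = Additive (M / U)` (via `Subgroup.subgroupOf`), `q` = the quotient map, `ρ` =
conjugation. Irreducible by minimality. -/
theorem chief {L : Type} [Group L] [Finite L] (hs : Group.IsSolvable L) (U M : Subgroup L)
    [U.Normal] (hM : M.Normal) (hU : U < M)
    (hmin : ∀ N : Subgroup L, N.Normal → U ≤ N → N ≤ M → N = U ∨ N = M) :
    ∃ (r : ℕ) (_ : Fact r.Prime) (S : Type) (_ : AddCommGroup S) (_ : Module (ZMod r) S)
      (_ : Finite S) (_ : Nontrivial S) (ρ : Representation (ZMod r) L S) (q : M → S),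
      (∀ x y, q (x * y) = q x + q y) ∧ Function.Surjective q ∧ (∀ x, q x = 0 ↔ (x : L) ∈ U) ∧
      (∀ (g : L) (x y : M), (y : L) = g * x * g⁻¹ → q y = ρ g (q x)) ∧ Irrd ρ ⊤ ∧
      Nat.card S = U.relIndex M ∧ r ∣ Nat.card S := by
  have hcom := ob5_com hs U M hM hU hmin
  have hC : ∀ x ∈ M, ∀ y ∈ M, x * y * x⁻¹ * y⁻¹ ∈ U := fun x hx y hy =>
    hcom (Subgroup.commutator_mem_commutator hx hy)
  -- a prime dividing the index
  have hidx : U.relIndex M ≠ 1 := by
    rw [Ne, Subgroup.relIndex_eq_one]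
    exact not_le_of_gt hU
  obtain ⟨r, hr, hrd⟩ := Nat.exists_prime_and_dvd hidx
  have hrF : Fact r.Prime := ⟨hr⟩
  have hKn : (U.subgroupOf M).Normal := inferInstance
  have hcG : ∀ a b : M ⧸ U.subgroupOf M, a * b = b * a := by
    intro a b
    obtain ⟨a, rfl⟩ := QuotientGroup.mk_surjective a
    obtain ⟨b, rfl⟩ := QuotientGroup.mk_surjective b
    rw [← QuotientGroup.mk_mul, ← QuotientGroup.mk_mul, eq_comm, QuotientGroup.eq,
      Subgroup.mem_subgroupOf]
    have h1 := hC _ (inv_mem a.2) _ (inv_mem b.2)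
    have h2 : (((b * a)⁻¹ * (a * b) : M) : L) = (a : L)⁻¹ * (b : L)⁻¹ * ((a : L)⁻¹)⁻¹ * ((b : L)⁻¹)⁻¹ := by
      push_cast; group
    rw [h2]; exact h1
  let iC : CommGroup (M ⧸ U.subgroupOf M) :=
    { (inferInstance : Group (M ⧸ U.subgroupOf M)) with mul_comm := hcG }
  have hmk : ∀ x : M, ((x : M ⧸ U.subgroupOf M) = 1) ↔ (x : L) ∈ U := by
    intro x
    rw [QuotientGroup.eq_one_iff, Subgroup.mem_subgroupOf]
  have key : ∀ x ∈ M, x ^ r ∈ U := by
    let N : Subgroup L :=
      { carrier := {x | x ∈ M ∧ x ^ r ∈ U}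
        one_mem' := ⟨M.one_mem, by rw [one_pow]; exact U.one_mem⟩
        mul_mem' := by
          rintro x y ⟨hx, hx'⟩ ⟨hy, hy'⟩
          refine ⟨M.mul_mem hx hy, ?_⟩
          have h1 := (hmk (⟨x, hx⟩ ^ r)).2 hx'
          have h2 := (hmk (⟨y, hy⟩ ^ r)).2 hy'
          refine (hmk ((⟨x, hx⟩ * ⟨y, hy⟩) ^ r)).1 ?_
          rw [QuotientGroup.mk_pow] at *
          rw [QuotientGroup.mk_mul, mul_pow, h1, h2, one_mul]
        inv_mem' := by
          rintro x ⟨hx, hx'⟩
          exact ⟨M.inv_mem hx, by rw [inv_pow]; exact U.inv_mem hx'⟩ }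
    have hN : N.Normal := by
      constructor
      rintro x ⟨hx, hx'⟩ g
      exact ⟨hM.conj_mem x hx g, by
        rw [conj_pow]; exact (inferInstance : U.Normal).conj_mem _ hx' g⟩
    have hUN : U ≤ N := fun x hx => ⟨hU.le hx, U.pow_mem hx r⟩
    rcases hmin N hN hUN (fun x hx => hx.1) with h | h
    · exfalso
      have h1 : r ∣ Nat.card (M ⧸ U.subgroupOf M) := hrd
      obtain ⟨z, hz⟩ := exists_prime_orderOf_dvd_card' r h1
      obtain ⟨x, rfl⟩ := QuotientGroup.mk_surjective z
      have h2 : (x : L) ∈ N := by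
        refine ⟨x.2, (hmk (x ^ r)).1 ?_⟩
        rw [QuotientGroup.mk_pow, ← hz, pow_orderOf_eq_one]
      rw [h] at h2
      have h3 := (hmk x).2 h2
      rw [h3, orderOf_one] at hz
      exact hr.one_lt.ne hz
    · intro x hx
      rw [← h] at hx
      exact hx.2
  have hexp : ∀ x : M ⧸ U.subgroupOf M, x ^ r = 1 := by
    intro x
    obtain ⟨y, rfl⟩ := QuotientGroup.mk_surjective x
    rw [← QuotientGroup.mk_pow, hmk]
    exact key y y.2
  have hnt : Nontrivial (M ⧸ U.subgroupOf M) := by
    rw [QuotientGroup.nontrivial_iff]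
    intro h1
    rw [Subgroup.subgroupOf_eq_top] at h1
    exact absurd hU (not_lt_of_ge h1)
  let cg : L → (M ⧸ U.subgroupOf M →* M ⧸ U.subgroupOf M) := fun g =>
    QuotientGroup.map (U.subgroupOf M) (U.subgroupOf M) (MulAut.conjNormal g : MulAut M).toMonoidHom (by
      intro x hx
      rw [Subgroup.mem_comap, Subgroup.mem_subgroupOf]
      exact (inferInstance : U.Normal).conj_mem _ hx g)
  have hcg : ∀ g (x : M), cg g (x : M ⧸ U.subgroupOf M) =
      ((⟨g * x * g⁻¹, hM.conj_mem x x.2 g⟩ : M) : M ⧸ U.subgroupOf M) := by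
    intro g x
    rfl
  obtain ⟨iM, ρ, hρ⟩ := ob5_rep (r := r) hexp cg (by
    intro x
    obtain ⟨y, rfl⟩ := QuotientGroup.mk_surjective x
    rw [hcg]
    congr 1
    apply Subtype.ext
    simp) (by
    intro g h x
    obtain ⟨y, rfl⟩ := QuotientGroup.mk_surjective x
    rw [hcg, hcg, hcg]
    congr 1
    apply Subtype.ext
    simp [mul_assoc])
  refine ⟨r, hrF, Additive (M ⧸ U.subgroupOf M), inferInstance, iM, inferInstanceAs (Finite (M ⧸ U.subgroupOf M)), inferInstanceAs (Nontrivial (M ⧸ U.subgroupOf M)), ρ, fun x => Additive.ofMul (x : M ⧸ U.subgroupOf M), ?_, ?_, ?_, ?_, ?_, ?_, ?_⟩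
  · intro x y
    show Additive.ofMul ((x * y : M) : M ⧸ U.subgroupOf M) = _
    rw [QuotientGroup.mk_mul, ofMul_mul]
  · intro s
    obtain ⟨y, hy⟩ := QuotientGroup.mk_surjective (Additive.toMul s)
    exact ⟨y, by show Additive.ofMul _ = _; rw [hy]; rfl⟩
  · intro x
    exact hmk x
  · intro g x y hy
    show Additive.ofMul _ = ρ g (Additive.ofMul (x : M ⧸ U.subgroupOf M))
    rw [hρ, hcg]
    congr 2
    exact Subtype.ext hy
  · intro W hW
    let N : Subgroup L :=
      { carrier := {x | ∃ h : x ∈ M, Additive.ofMul ((⟨x, h⟩ : M) : M ⧸ U.subgroupOf M) ∈ W}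
        one_mem' := ⟨M.one_mem, W.zero_mem⟩
        mul_mem' := by
          rintro x y ⟨hx, hx'⟩ ⟨hy, hy'⟩
          exact ⟨M.mul_mem hx hy, W.add_mem hx' hy'⟩
        inv_mem' := by
          rintro x ⟨hx, hx'⟩
          exact ⟨M.inv_mem hx, W.neg_mem hx'⟩ }
    have hN : N.Normal := by
      constructor
      rintro x ⟨hx, hx'⟩ g
      refine ⟨hM.conj_mem x hx g, ?_⟩
      have h1 := hW g (Subgroup.mem_top g) _ hx'
      rw [hρ, hcg] at h1
      exact h1
    have hUN : U ≤ N := fun x hx => ⟨hU.le hx, by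
      have h1 := (hmk ⟨x, hU.le hx⟩).2 hx
      rw [h1]; exact W.zero_mem⟩
    rcases hmin N hN hUN (fun x hx => hx.1) with h | h
    · left
      rw [eq_bot_iff]
      intro s hs
      obtain ⟨y, hy⟩ := QuotientGroup.mk_surjective (Additive.toMul s)
      have h1 : s = Additive.ofMul (y : M ⧸ U.subgroupOf M) := by rw [hy]; rfl
      have h2 : (y : L) ∈ N := ⟨y.2, by rw [← h1]; exact hs⟩
      rw [h] at h2
      rw [h1, (hmk y).2 h2]
      exact Submodule.zero_mem _
    · right
      rw [eq_top_iff]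
      rintro s -
      obtain ⟨y, hy⟩ := QuotientGroup.mk_surjective (Additive.toMul s)
      have h1 : s = Additive.ofMul (y : M ⧸ U.subgroupOf M) := by rw [hy]; rfl
      have h2 : (y : L) ∈ N := by rw [h]; exact y.2
      obtain ⟨h3, h4⟩ := h2
      rw [h1]; exact h4
  · rfl
  · exact hrd
-- END ob5

-- BEGIN ob6
private theorem ob6_one {L : Type} [Group L] [Finite L] (hs : Group.IsSolvable L) (U M : Subgroup L)
    [U.Normal] (hM : M.Normal) (hU : U < M)
    (hmin : ∀ N : Subgroup L, N.Normal → U ≤ N → N ≤ M → N = U ∨ N = M) (N : ℕ)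
    (hob : OBd N) (hle : U.relIndex M ≤ N) :
    ∃ C : Subgroup L, C.Normal ∧ 4 * C.index ≤ U.relIndex M ^ 3 ∧
      ∀ x ∈ C, ∀ y ∈ M, x * y * x⁻¹ * y⁻¹ ∈ U := by
  obtain ⟨r, hr, S, iA, iM, iF, iN, ρ, q, q1, q2, q3, q4, q5, q6, q7⟩ := chief hs U M hM hU hmin
  let f : L →* Module.End (ZMod r) S := ρ
  have hf : ∀ g, f g = ρ g := fun g => rfl
  refine ⟨f.ker, inferInstance, ?_, ?_⟩
  · let ρ' : L ⧸ f.ker →* Module.End (ZMod r) S := QuotientGroup.lift f.ker f le_rfl
    have h1 : ∀ g : L, ρ' (g : L ⧸ f.ker) = ρ g := fun g => rfl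
    have hsL : Group.IsSolvable L := hs
    have h2 := hob r hr (L ⧸ f.ker) S inferInstance inferInstance iA iM iF iN ρ' inferInstance (by
      intro h hh
      obtain ⟨g, rfl⟩ := QuotientGroup.mk_surjective h
      rw [QuotientGroup.eq_one_iff, MonoidHom.mem_ker]
      apply LinearMap.ext
      intro w
      have := hh w
      rw [h1] at this
      rw [hf, this]
      rfl) (by
      intro W hW
      refine q5 W fun g _ w hw => ?_
      have := hW (g : L ⧸ f.ker) (Subgroup.mem_top _) w hw
      rw [h1] at this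
      exact this) (by rw [q6]; exact hle)
    rw [q6] at h2
    exact h2
  · intro x hx y hy
    have hxy : x * y * x⁻¹ ∈ M := hM.conj_mem y hy x
    have h1 := q4 x ⟨y, hy⟩ ⟨x * y * x⁻¹, hxy⟩ rfl
    have h2 : ρ x = 1 := hx
    rw [h2, Module.End.one_apply] at h1
    have h3 : q (⟨x * y * x⁻¹, hxy⟩ * ⟨y, hy⟩⁻¹) = 0 := by
      have h4 := q1 (⟨x * y * x⁻¹, hxy⟩ * ⟨y, hy⟩⁻¹) ⟨y, hy⟩
      rw [inv_mul_cancel_right, h1] at h4
      exact left_eq_add.1 (by rw [add_comm] at h4; exact h4)
    exact (q3 _).1 h3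

/-- (ob6, size 3) PROOF. For each `i` the group `L` acts on the module `S i` of `M i / U` (`chief`); the quotient of `L` by
the kernel `C_i` acts faithfully and irreducibly, `4 card (L / C_i) ≤ card (S i) ^ 3` (`OBd`). `C = centralizer U`; an
`x ∈ C` which is in all the `C_i` satisfies `[x, M i] ≤ U` for all `i`, so `[x, E] ≤ U` (`gen` for the subgroup of the `y ∈ E` with
`[x, y] ∈ U`), so `x ∈ E` (`big`). So `C / E` embeds in the product of the `L / C_i`, and
`card (C / E) ≤ ∏ (card (S i) ^ 3 / 4) ≤ (∏ card (S i)) ^ 3 / 4` as `n ≥ 1`. -/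
theorem cs_ob {L : Type} [Group L] [Finite L] (hs : Group.IsSolvable L) {U E : Subgroup L}
    {n : ℕ} {M : Fin n → Subgroup L} (hN : U.Normal) (hE : SE U E n M) (hn : 0 < n) (N : ℕ)
    (hob : OBd N) (hle : U.relIndex E ≤ N) :
    4 * E.relIndex (Subgroup.centralizer (U : Set L)) ≤ U.relIndex E ^ 3 := by
  have := hN
  have h1 : ∀ i, ∃ C : Subgroup L, C.Normal ∧ 4 * C.index ≤ U.relIndex (M i) ^ 3 ∧
      ∀ x ∈ C, ∀ y ∈ M i, x * y * x⁻¹ * y⁻¹ ∈ U := by
    intro i
    refine ob6_one hs U (M i) (hE.mN i) (hE.mU i) (hE.mMin i) N hob (le_trans ?_ hle)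
    rw [← Subgroup.relIndex_mul_relIndex _ _ _ (hE.mU i).le (hE.mE i)]
    exact Nat.le_mul_of_pos_right _ (Nat.pos_of_ne_zero (Subgroup.index_ne_zero_of_finite (H := (M i).subgroupOf E)))
  choose C hC hC4 hCM using h1
  let f : Subgroup.centralizer (U : Set L) →* (∀ i, L ⧸ C i) :=
    MonoidHom.pi fun i => (QuotientGroup.mk' (C i)).comp (Subgroup.subtype _)
  have hker : f.ker ≤ E.subgroupOf (Subgroup.centralizer (U : Set L)) := by
    intro x hx
    rw [Subgroup.mem_subgroupOf]
    have hxU : ∀ u ∈ U, (x : L) * u = u * x := fun u hu =>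
      (Subgroup.mem_centralizer_iff.1 x.2 u hu).symm
    have hxC : ∀ i, (x : L) ∈ C i := by
      intro i
      have h2 : f x i = 1 := by rw [MonoidHom.mem_ker.1 hx]; rfl
      exact (QuotientGroup.eq_one_iff _).1 h2
    refine hE.big x hxU ?_
    let T : Subgroup L :=
      { carrier := {y | (x : L) * y * (x : L)⁻¹ * y⁻¹ ∈ U}
        one_mem' := by
          show (x : L) * 1 * (x : L)⁻¹ * 1⁻¹ ∈ U
          simp
        mul_mem' := by
          intro y z hy hz
          have hy' : (x : L) * y * (x : L)⁻¹ * y⁻¹ ∈ U := hy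
          have hz' : (x : L) * z * (x : L)⁻¹ * z⁻¹ ∈ U := hz
          show (x : L) * (y * z) * (x : L)⁻¹ * (y * z)⁻¹ ∈ U
          have h2 := U.mul_mem hy' (hN.conj_mem _ hz' y)
          have h3 : (x : L) * (y * z) * (x : L)⁻¹ * (y * z)⁻¹ =
            (x : L) * y * (x : L)⁻¹ * y⁻¹ * (y * ((x : L) * z * (x : L)⁻¹ * z⁻¹) * y⁻¹) := by group
          rw [h3]; exact h2
        inv_mem' := by
          intro y hy
          have hy' : (x : L) * y * (x : L)⁻¹ * y⁻¹ ∈ U := hy
          show (x : L) * y⁻¹ * (x : L)⁻¹ * (y⁻¹)⁻¹ ∈ U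
          have h2 := hN.conj_mem _ (U.inv_mem hy') y⁻¹
          have h3 : (x : L) * y⁻¹ * (x : L)⁻¹ * (y⁻¹)⁻¹ =
            y⁻¹ * ((x : L) * y * (x : L)⁻¹ * y⁻¹)⁻¹ * (y⁻¹)⁻¹ := by group
          rw [h3]; exact h2 }
    have hT := hE.gen T (by
      intro u hu
      show (x : L) * u * (x : L)⁻¹ * u⁻¹ ∈ U
      rw [hxU u hu, mul_inv_cancel_right, mul_inv_cancel]
      exact U.one_mem) (fun i y hy => hCM i x (hxC i) y hy)
    exact fun y hy => hT hy
  have h2 : E.relIndex (Subgroup.centralizer (U : Set L)) ≤ ∏ i, (C i).index := by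
    have h3 : E.relIndex (Subgroup.centralizer (U : Set L)) ≤ f.ker.index :=
      Nat.le_of_dvd (Nat.pos_of_ne_zero Subgroup.index_ne_zero_of_finite)
        (Subgroup.index_dvd_of_le hker)
    rw [Subgroup.index_ker] at h3
    have h4 : Nat.card f.range ≤ Nat.card (∀ i, L ⧸ C i) :=
      Nat.card_le_card_of_injective _ Subtype.val_injective
    rw [Nat.card_pi] at h4
    exact h3.trans h4
  have h3 : 4 * ∏ i, (C i).index ≤ ∏ i, (4 * (C i).index) := by
    rw [Finset.prod_mul_distrib, Finset.prod_const, Finset.card_univ, Fintype.card_fin]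
    exact Nat.mul_le_mul_right _ (Nat.le_self_pow hn.ne' 4)
  calc 4 * E.relIndex (Subgroup.centralizer (U : Set L)) ≤ 4 * ∏ i, (C i).index :=
        Nat.mul_le_mul_left _ h2
    _ ≤ ∏ i, (4 * (C i).index) := h3
    _ ≤ ∏ i, U.relIndex (M i) ^ 3 := Finset.prod_le_prod' fun i _ => hC4 i
    _ = U.relIndex E ^ 3 := by rw [Finset.prod_pow, ← hE.card]
-- END ob6

-- BEGIN ob7
private theorem ob7_r (n : ℕ) (hn : 2 ≤ n) : (n + 1) ^ 8 ≤ 27 * n ^ 8 := by
  have h2 : 2 * (n + 1) ≤ 3 * n := by omega
  have h3 : (2 * (n + 1)) ^ 8 ≤ (3 * n) ^ 8 := Nat.pow_le_pow_left h2 8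
  rw [mul_pow, mul_pow] at h3
  have h4 : (3:ℕ) ^ 8 ≤ 27 * 2 ^ 8 := by norm_num
  have h6 : 2 ^ 8 * (n + 1) ^ 8 ≤ 2 ^ 8 * (27 * n ^ 8) := by
    calc 2 ^ 8 * (n + 1) ^ 8 ≤ 27 * 2 ^ 8 * n ^ 8 := h3.trans (Nat.mul_le_mul_right _ h4)
      _ = 2 ^ 8 * (27 * n ^ 8) := by ring
  exact Nat.le_of_mul_le_mul_left h6 (by norm_num)

private theorem ob7_t (e : ℕ) (he : 2 ≤ e) : 2 * e ^ 8 ≤ 3 ^ (3 * e) := by
  induction e, he using Nat.le_induction with
  | base => norm_num
  | succ n hn ih =>
    calc 2 * (n + 1) ^ 8 ≤ 2 * (27 * n ^ 8) := Nat.mul_le_mul_left _ (ob7_r n hn)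
      _ = 27 * (2 * n ^ 8) := by ring
      _ ≤ 27 * 3 ^ (3 * n) := Nat.mul_le_mul_left _ ih
      _ = 3 ^ (3 * (n + 1)) := by rw [mul_add, pow_add]; norm_num [mul_comm]

private theorem ob7_f (e : ℕ) (he : 2 ≤ e) : 16 * e ^ 8 ≤ 4 ^ (3 * e) := by
  induction e, he using Nat.le_induction with
  | base => norm_num
  | succ n hn ih =>
    calc 16 * (n + 1) ^ 8 ≤ 16 * (27 * n ^ 8) := Nat.mul_le_mul_left _ (ob7_r n hn)
      _ = 27 * (16 * n ^ 8) := by ring
      _ ≤ 27 * 4 ^ (3 * n) := Nat.mul_le_mul_left _ ih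
      _ ≤ 64 * 4 ^ (3 * n) := Nat.mul_le_mul_right _ (by norm_num)
      _ = 4 ^ (3 * (n + 1)) := by rw [mul_add, pow_add]; norm_num [mul_comm]

private theorem ob7_s (e : ℕ) (he : 2 ≤ e) : e ^ 2 < 3 ^ e := by
  induction e, he using Nat.le_induction with
  | base => norm_num
  | succ n hn ih =>
    rw [pow_succ 3 n]
    nlinarith

/-- (ob7, size 2) Numbers. PROOF. `a < 2 ^ a ≤ Q = q ^ a`. `(a (Q - 1)) ^ 2 ≤ Q ^ 3` for all `Q = q ^ a`; for `e ≥ 3` (then `Q ≥ 3`,
and `Q ≥ 4` if `e = 3`): `e ^ 16 ≤ Q ^ (6 e - 3)`. `e = 2`: `Q = 3` directly (`2 * 256 ≤ 729`), `Q ≥ 5`: `65536 ≤ 5 ^ 9`.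
`e = 1`: `4 a (Q - 1) ≤ Q ^ 3`. -/
theorem ob_num (q a e : ℕ) (hq : q.Prime) (ha : 0 < a) (he : 0 < e)
    (hd : ∀ s : ℕ, s.Prime → s ∣ e → s ∣ q ^ a - 1) :
    (e = 1 → 4 * (a * (q ^ a - 1)) ≤ (q ^ a) ^ 3) ∧
      (2 ≤ e → a * (q ^ a - 1) * e ^ 8 ≤ ((q ^ a) ^ e) ^ 3 ∧ e ^ 2 < (q ^ a) ^ e) := by
  have haQ : a < q ^ a := lt_of_lt_of_le (Nat.lt_two_pow_self) (Nat.pow_le_pow_left hq.two_le a)
  have hQ2 : 2 ≤ q ^ a := hq.two_le.trans (Nat.le_self_pow ha.ne' q)
  have h3 : q ^ a = 3 → a = 1 := by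
    intro h
    rcases Nat.lt_or_ge a 2 with h' | h'
    · omega
    · exfalso
      have : q ^ 2 ≤ q ^ a := Nat.pow_le_pow_right hq.pos h'
      have : 2 ^ 2 ≤ q ^ 2 := Nat.pow_le_pow_left hq.two_le 2
      omega
  generalize hQ : q ^ a = Q at *
  obtain ⟨R, rfl⟩ : ∃ R, Q = R + 1 := ⟨Q - 1, by omega⟩
  rw [Nat.add_sub_cancel] at *
  have haR : a ≤ R := by omega
  refine ⟨fun _ => ?_, fun he2 => ?_⟩
  · have h1 : a * R ≤ R * R := Nat.mul_le_mul_right _ haR
    have h2 : 1 ≤ R := by omega
    nlinarith [mul_self_nonneg (R - 1 : ℤ), h1, h2, mul_pos (show 0 < R by omega) (show 0 < R by omega)]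
  · have hR : 2 ≤ R := by
      obtain ⟨s, hs, hse⟩ := Nat.exists_prime_and_dvd (show e ≠ 1 by omega)
      exact hs.two_le.trans (Nat.le_of_dvd (by omega) (hd s hs hse))
    constructor
    · rw [← pow_mul, mul_comm e 3]
      rcases Nat.lt_or_ge R 3 with h | h
      · obtain rfl : R = 2 := by omega
        obtain rfl := h3 rfl
        simpa using ob7_t e he2
      · have h1 : a * R ≤ (R + 1) ^ 2 := by nlinarith
        have h2 : (3 * e) = 2 + (3 * e - 2) := by omega
        have h4 : e ^ 8 ≤ 4 ^ (3 * e - 2) := by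
          have := ob7_f e he2
          rw [h2, pow_add] at this
          simpa using this
        calc a * R * e ^ 8 ≤ (R + 1) ^ 2 * 4 ^ (3 * e - 2) := Nat.mul_le_mul h1 h4
          _ ≤ (R + 1) ^ 2 * (R + 1) ^ (3 * e - 2) :=
            Nat.mul_le_mul_left _ (Nat.pow_le_pow_left (by omega) _)
          _ = (R + 1) ^ (3 * e) := by rw [← pow_add, ← h2]
    · exact lt_of_lt_of_le (ob7_s e he2) (Nat.pow_le_pow_left (by omega) e)
-- END ob7

-- BEGIN ob8
/-- (ob8, size 3) The quasi-primitive case. PROOF. `qp_gal`, `qp_E`, `sq_ex` (`Prg` from `SE`, `qp_cyc`), `qp_dim`: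
`card L = card U * U.relIndex E * E.relIndex C * C.index`, `C = centralizer U`, `card U ≤ p ^ a - 1`, `C.index ≤ a`,
`(p ^ a) ^ e ≤ card W`. If `C = U` (`n = 0`, or `e = 1`): `4 card L ≤ 4 a (Q - 1) ≤ Q ^ 3 ≤ card W ^ 3`. If `e ≥ 2`: `cs_ob`
(`e ^ 2 < Q ^ e ≤ card W`, `N = card W - 1`), `4 card L ≤ (Q-1) e ^ 2 e ^ 6 a`, `ob_num`. -/
theorem ob_prim {p : ℕ} [Fact p.Prime] {L W : Type} [Group L] [Finite L] [AddCommGroup W]
    [Module (ZMod p) W] [Finite W] [Nontrivial W] {ρ : Representation (ZMod p) L W}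
    {U : Subgroup L} (h : QP ρ U) (hs : Group.IsSolvable L) (hob : OBd (Nat.card W - 1)) :
    4 * Nat.card L ≤ Nat.card W ^ 3 := by
  have hp : p.Prime := Fact.out
  obtain ⟨a, ha, hUa, hCa, hAA, ⟨d, hd, hW⟩, -⟩ := qp_gal h
  obtain ⟨E, n, M, hE⟩ := qp_E h hs
  have hcyc := qp_cyc h
  have hUC : U ≤ Subgroup.centralizer (U : Set L) := by
    intro u hu
    rw [Subgroup.mem_centralizer_iff]
    intro v hv
    exact h.ab.com v hv u hu
  have hQ2 : 2 ≤ p ^ a := hp.two_le.trans (Nat.le_self_pow ha.ne' p)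
  have hU1 : Nat.card U ≤ p ^ a - 1 := Nat.le_of_dvd (by omega) hUa
  have hC1 : (Subgroup.centralizer (U : Set L)).index ≤ a := Nat.le_of_dvd ha hCa
  have hcL : Nat.card L = (Subgroup.centralizer (U : Set L)).index *
      Nat.card (Subgroup.centralizer (U : Set L)) := by
    rw [mul_comm]; exact (Subgroup.card_mul_index _).symm
  have hcC : Nat.card (Subgroup.centralizer (U : Set L)) =
      Nat.card U * U.relIndex (Subgroup.centralizer (U : Set L)) := by
    have h1 := Subgroup.relIndex_mul_relIndex ⊥ U (Subgroup.centralizer (U : Set L)) bot_le hUC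
    rw [Subgroup.relIndex_bot_left, Subgroup.relIndex_bot_left] at h1
    exact h1.symm
  rcases Nat.eq_zero_or_pos n with hn | hn
  · have h1 : Subgroup.centralizer (U : Set L) ≤ U := by
      intro x hx
      by_contra hxU
      have := hE.pos ⟨x, fun u hu => (Subgroup.mem_centralizer_iff.1 hx u hu).symm, hxU⟩
      omega
    have h2 : U.relIndex (Subgroup.centralizer (U : Set L)) = 1 := Subgroup.relIndex_eq_one.2 h1
    have h3 := (ob_num p a 1 hp ha one_pos (fun s hs1 hs2 => absurd (Nat.dvd_one.1 hs2) hs1.ne_one)).1 rfl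
    have h4 : (p ^ a) ^ 3 ≤ Nat.card W ^ 3 := by
      rw [hW]
      exact Nat.pow_le_pow_left (Nat.le_self_pow hd.ne' _) 3
    rw [hcL, hcC, h2, mul_one]
    exact (Nat.mul_le_mul_left 4 (Nat.mul_le_mul hC1 hU1)).trans (h3.trans h4)
  · have hEC : E ≤ Subgroup.centralizer (U : Set L) := by
      intro x hx
      rw [Subgroup.mem_centralizer_iff]
      intro u hu
      exact (hE.cU x hx u hu).symm
    have hrel : U.relIndex (Subgroup.centralizer (U : Set L)) =
        U.relIndex E * E.relIndex (Subgroup.centralizer (U : Set L)) :=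
      (Subgroup.relIndex_mul_relIndex _ _ _ hE.UE hEC).symm
    obtain ⟨e, he, hUE, hes⟩ := sq_ex (U := U) (E := E) ⟨hcyc, hE.UE, hE.cU, hE.com, hE.cen⟩
    have he2 : 2 ≤ e := by
      by_contra hlt
      have he1 : e = 1 := by omega
      rw [he1, one_pow, Subgroup.relIndex_eq_one] at hUE
      exact absurd (hE.mU ⟨0, hn⟩) (not_lt_of_ge ((hE.mE _).trans hUE))
    have h3 := (ob_num p a e hp ha he (fun s hs1 hs2 => (hes s hs1 hs2).trans hUa)).2 he2
    have h4 := qp_dim h hE e hUE
    rw [hAA] at h4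
    have h5 : 4 * E.relIndex (Subgroup.centralizer (U : Set L)) ≤ U.relIndex E ^ 3 :=
      cs_ob hs h.ab.nor hE hn (Nat.card W - 1) hob (by rw [hUE]; omega)
    rw [hUE] at h5
    have h6 : 4 * Nat.card L ≤ a * (p ^ a - 1) * e ^ 8 := by
      calc 4 * Nat.card L = (Subgroup.centralizer (U : Set L)).index * Nat.card U * (e ^ 2) *
            (4 * E.relIndex (Subgroup.centralizer (U : Set L))) := by
            rw [hcL, hcC, hrel, hUE]; ring
        _ ≤ a * (p ^ a - 1) * e ^ 2 * (e ^ 2) ^ 3 :=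
            Nat.mul_le_mul (Nat.mul_le_mul_right _ (Nat.mul_le_mul hC1 hU1)) h5
        _ = a * (p ^ a - 1) * e ^ 8 := by ring
    exact h6.trans (h3.1.trans (Nat.pow_le_pow_left h4 3))
-- END ob8

-- BEGIN ob9
private theorem ob9_mono {M N : ℕ} (h : OBd N) (hMN : M ≤ N) : OBd M :=
  fun p hp X S i1 i2 i3 i4 i5 i6 ρ h1 h2 h3 h4 => h p hp X S i1 i2 i3 i4 i5 i6 ρ h1 h2 h3 (h4.trans hMN)

private theorem ob9_J {p : ℕ} {X S J : Type} [Group X] [AddCommGroup S]
    [Module (ZMod p) S] [Finite S] [Finite J] {ρ : Representation (ZMod p) X S}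
    {W : J → Submodule (ZMod p) S} {UU : J → Subgroup X} (hB : BS ρ W UU) :
    Nat.card J + 1 ≤ Nat.card S := by
  classical
  have h1 : ∀ j, ∃ w ∈ W j, w ≠ 0 := fun j => (Submodule.ne_bot_iff _).1 (hB.ne j)
  choose w hw hw0 using h1
  have h2 : Function.Injective (fun o : Option J => o.elim 0 w) := by
    rintro (_ | i) (_ | j) h
    · rfl
    · exact absurd h.symm (hw0 j)
    · exact absurd h (hw0 i)
    · by_contra hne
      have hij : i ≠ j := fun h' => hne (by rw [h'])
      have h3 := hB.ind.pairwiseDisjoint hij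
      have h4 : w i = w j := h
      exact hw0 i (Submodule.disjoint_def.1 h3 _ (hw i) (h4 ▸ hw j))
  have h3 := Nat.card_le_card_of_injective _ h2
  rwa [Finite.card_option] at h3

/-- (ob9, size 3) PROOF. Induction on `N`: `bs_ex`, `ob_imp` with `hL` from `ob_prim` (`bs_qp` gives the faithful group of
the block and `QP`; a second group `L` with the same properties has the same order, being isomorphic to
`Nm ρ (W j)` modulo the kernel) and `OBd (card (W j) - 1)`; `PBd (card J)` by `pb_of`: `card J < card S` as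
`2 ^ card J ≤ card S`. -/
theorem ob (N : ℕ) : OBd N := by
  induction N with
  | zero =>
    intro p hp X S i1 i2 i3 i4 i5 i6 ρ hs hf hirr hc
    have := Finite.one_lt_card (α := S)
    omega
  | succ N ih =>
    intro p hp X S i1 i2 i3 i4 i5 i6 ρ hs hf hirr hc
    rcases Nat.lt_or_ge (Nat.card S) (N + 1) with h | h
    · exact ih p hp X S i1 i2 i3 i4 i5 i6 ρ hs hf hirr (Nat.lt_succ_iff.1 h)
    obtain ⟨J, iJ, W, UU, hB⟩ := bs_ex (ρ := ρ) hirr
    have hJ := ob9_J hB
    have hJne : Nonempty J := by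
      by_contra hne
      rw [not_nonempty_iff] at hne
      have h1 := hB.sup
      rw [iSup_of_empty] at h1
      obtain ⟨x, hx⟩ := exists_ne (0 : S)
      have : x ∈ (⊥ : Submodule (ZMod p) S) := by rw [h1]; trivial
      exact hx ((Submodule.mem_bot _).1 this)
    refine ob_imp hB hs hf (pb_of _ (ob9_mono ih (by omega))) ?_
    intro j L iL iL2 ρL π hπ hπ2 hfai
    obtain ⟨L', iL', iLf', ρL', π', U', hπ', hπ2', hQP, -⟩ := bs_qp hB j
    have hker : π.ker = π'.ker := by
      ext g
      rw [MonoidHom.mem_ker, MonoidHom.mem_ker]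
      constructor
      · intro hg
        refine hQP.fai _ fun w => Subtype.ext ?_
        rw [hπ2', ← hπ2, hg, map_one]
        rfl
      · intro hg
        refine hfai _ fun w => Subtype.ext ?_
        rw [hπ2, ← hπ2', hg, map_one]
        rfl
    have hcard : Nat.card L = Nat.card L' := by
      have h1 := Subgroup.index_ker π
      have h2 := Subgroup.index_ker π'
      rw [MonoidHom.range_eq_top.2 hπ, Subgroup.card_top] at h1
      rw [MonoidHom.range_eq_top.2 hπ', Subgroup.card_top] at h2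
      rw [← h1, ← h2, hker]
    have hWnt : Nontrivial (W j) := Submodule.nontrivial_iff_ne_bot.2 (hB.ne j)
    have hsX : Group.IsSolvable X := hs
    have hsL : Group.IsSolvable L' := by
      exact Group.isSolvable_of_surjective hπ'
    have hWS : Nat.card (W j) ≤ Nat.card S := Nat.card_le_card_of_injective _ Subtype.val_injective
    rw [hcard]
    exact ob_prim hQP hsL (ob9_mono ih (by omega))
-- END ob9

end Pool.Agent.Nas
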