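import Pool.Agent.Nas.Defs

/-! The commutator pairing of `E / U`. -/

set_option autoImplicit false

namespace Pool.Agent.Nas

open Pool.Agent.Nan

section
variable {L : Type} [Group L] [Finite L] {U E : Subgroup L} {n : ℕ} {M : Fin n → Subgroup L}

/-- The part of `SE` which is needed for the pairing: `x, y ↦ [x, y]` is a nondegenerate alternating
pairing of `E / U` with values in the cyclic group `U`. -/
structure Prg (U E : Subgroup L) : Prop where
  cyc : IsCyclic U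
  UE : U ≤ E
  cU : ∀ x ∈ E, ∀ u ∈ U, x * u = u * x
  com : ∀ x ∈ E, ∀ y ∈ E, x * y * x⁻¹ * y⁻¹ ∈ U
  cen : ∀ x ∈ E, (∀ y ∈ E, x * y = y * x) → x ∈ U

-- BEGIN sq1
/-- A finite cyclic group embeds in the multiplicative group of the complex numbers. -/
theorem sq1_emb (C : Type) [Group C] [IsCyclic C] [Finite C] :
    ∃ ι : C →* ℂˣ, Function.Injective ι := by
  obtain ⟨g, hg⟩ := IsCyclic.exists_generator (α := C)
  have hn : orderOf g ≠ 0 := (isOfFinOrder_of_finite g).orderOf_pos.ne'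
  have hζ := Complex.isPrimitiveRoot_exp (orderOf g) hn
  have hu : IsPrimitiveRoot (hζ.isUnit hn).unit (orderOf g) := hζ.isUnit_unit hn
  refine ⟨monoidHomOfForallMemZpowers hg (g' := (hζ.isUnit hn).unit) hu.eq_orderOf.symm.dvd, ?_⟩
  rw [injective_iff_map_eq_one]
  intro x hx
  obtain ⟨k, rfl⟩ := Subgroup.mem_zpowers_iff.1 (hg x)
  rw [map_zpow, monoidHomOfForallMemZpowers_apply_gen] at hx
  exact orderOf_dvd_iff_zpow_eq_one.1 ((hu.zpow_eq_one_iff_dvd k).1 hx)

/-- There are at most `card A` homomorphisms from the abelian group `A` to a cyclic group. -/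
theorem sq1_card (A C : Type) [CommGroup A] [Finite A] [Group C] [IsCyclic C] [Finite C] :
    Nat.card (A →* C) ≤ Nat.card A := by
  obtain ⟨ι, hι⟩ := sq1_emb C
  have h1 : Nat.card (A →* ℂˣ) = Nat.card A := CommGroup.card_monoidHom_of_hasEnoughRootsOfUnity A ℂ
  have h2 : Finite (A →* ℂˣ) := Nat.finite_of_card_ne_zero (by rw [h1]; exact Nat.card_pos.ne')
  rw [← h1]
  refine Nat.card_le_card_of_injective (fun f : A →* C => ι.comp f) fun f g h => ?_
  ext a
  exact hι (DFunLike.congr_fun h a)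

/-- (sq1, size 3) Duality. PROOF. The homomorphisms `E / U → U` (`E / U` is abelian, `U` cyclic): the map
`x ↦ (y ↦ [x, y])` is an injective homomorphism from `E / U` to `Hom(E / U, U)`, and
`card Hom(A, C) ≤ card A` for a finite abelian group `A` and a finite cyclic group `C` (embed `C` in `ℂˣ`,
`card Hom(A, ℂˣ) = card A`: Mathlib `CommGroup.monoidHom_mulEquiv..` or `AddChar`), so it is
bijective. -/
theorem nd_rep (h : Prg U E) (f : E →* U) (hf : ∀ u (hu : u ∈ U), f ⟨u, h.UE hu⟩ = 1) :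
    ∃ x ∈ E, ∀ y : E, x * y * x⁻¹ * (y : L)⁻¹ = f y := by
  haveI := h.cyc
  have hcm : ∀ x ∈ E, ∀ u ∈ U, x * u * x⁻¹ = u := fun x hx u hu => by
    rw [h.cU x hx u hu, mul_inv_cancel_right]
  haveI hN : (U.subgroupOf E).Normal := ⟨fun u hu x => by
    rw [Subgroup.mem_subgroupOf] at hu ⊢
    show (x : L) * u * (x : L)⁻¹ ∈ U
    rw [hcm x x.2 u hu]
    exact hu⟩
  letI : CommGroup (E ⧸ U.subgroupOf E) := { (inferInstance : Group (E ⧸ U.subgroupOf E)) with
    mul_comm := fun a b => by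
      obtain ⟨x, rfl⟩ := QuotientGroup.mk_surjective a
      obtain ⟨y, rfl⟩ := QuotientGroup.mk_surjective b
      refine QuotientGroup.eq.2 ?_
      rw [Subgroup.mem_subgroupOf]
      have h1 := h.com _ (E.inv_mem y.2) _ (E.inv_mem x.2)
      show ((x : L) * y)⁻¹ * ((y : L) * x) ∈ U
      rwa [mul_inv_rev, ← mul_assoc, ← inv_inv (y : L), ← inv_inv (x : L), inv_inv (y : L)⁻¹,
        inv_inv (x : L)⁻¹] }
  have hm1 : ∀ x ∈ E, ∀ y ∈ E, ∀ y' ∈ E, x * (y * y') * x⁻¹ * (y * y')⁻¹ =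
      (x * y * x⁻¹ * y⁻¹) * (x * y' * x⁻¹ * y'⁻¹) := fun x hx y hy y' hy' => by
    have h1 := hcm y hy _ (h.com x hx y' hy')
    calc x * (y * y') * x⁻¹ * (y * y')⁻¹ =
        (x * y * x⁻¹ * y⁻¹) * (y * (x * y' * x⁻¹ * y'⁻¹) * y⁻¹) := by group
      _ = _ := by rw [h1]
  have hm2 : ∀ x ∈ E, ∀ x' ∈ E, ∀ y ∈ E, x * x' * y * (x * x')⁻¹ * y⁻¹ =
      (x * y * x⁻¹ * y⁻¹) * (x' * y * x'⁻¹ * y⁻¹) := fun x hx x' hx' y hy => by
    have h1 := hcm x hx _ (h.com x' hx' y hy)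
    have h2 : ∀ c ∈ U, c * (x * y * x⁻¹ * y⁻¹) = (x * y * x⁻¹ * y⁻¹) * c := fun c hc =>
      (h.cU _ (h.UE (h.com x hx y hy)) c hc).symm
    calc x * x' * y * (x * x')⁻¹ * y⁻¹ =
        (x * (x' * y * x'⁻¹ * y⁻¹) * x⁻¹) * (x * y * x⁻¹ * y⁻¹) := by group
      _ = _ := by rw [h1, h2 _ (h.com x' hx' y hy)]
  -- the pairing
  let φ : E → (E →* U) := fun x => MonoidHom.mk' (fun y => ⟨x * y * (x : L)⁻¹ * (y : L)⁻¹,
    h.com x x.2 y y.2⟩) fun y y' => Subtype.ext (hm1 x x.2 y y.2 y' y'.2)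
  have hφ : ∀ x y : E, ((φ x y : U) : L) = x * y * (x : L)⁻¹ * (y : L)⁻¹ := fun _ _ => rfl
  have hφU : ∀ x : E, U.subgroupOf E ≤ (φ x).ker := fun x y hy => by
    rw [Subgroup.mem_subgroupOf] at hy
    rw [MonoidHom.mem_ker]
    refine Subtype.ext ?_
    rw [hφ, hcm x x.2 y hy, mul_inv_cancel]
    rfl
  let Φ : E → ((E ⧸ U.subgroupOf E) →* U) := fun x => QuotientGroup.lift _ (φ x) (hφU x)
  have hΦ : ∀ x y : E, Φ x (QuotientGroup.mk y) = φ x y := fun _ _ => rfl
  have hfU : U.subgroupOf E ≤ f.ker := fun y hy => by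
    rw [Subgroup.mem_subgroupOf] at hy
    exact hf y hy
  have hinj : Function.Injective fun a : E ⧸ U.subgroupOf E => Φ (Quotient.out a) := by
    intro a b hab
    have h1 : (a : E ⧸ U.subgroupOf E) = QuotientGroup.mk (Quotient.out a) :=
      (QuotientGroup.out_eq' a).symm
    have h2 : (b : E ⧸ U.subgroupOf E) = QuotientGroup.mk (Quotient.out b) :=
      (QuotientGroup.out_eq' b).symm
    rw [h1, h2]
    refine QuotientGroup.eq.2 ?_
    rw [Subgroup.mem_subgroupOf]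
    have hab' : Φ (Quotient.out a) = Φ (Quotient.out b) := hab
    generalize (Quotient.out a : E) = x at hab'
    generalize (Quotient.out b : E) = x' at hab'
    refine h.cen _ (E.mul_mem (E.inv_mem x.2) x'.2) fun y hy => ?_
    have h3 : (x : L) * y * (x : L)⁻¹ * y⁻¹ = (x' : L) * y * (x' : L)⁻¹ * y⁻¹ := by
      have h4 := DFunLike.congr_fun hab' (QuotientGroup.mk ⟨y, hy⟩)
      exact congrArg Subtype.val h4
    have h5 : (x : L) * y * (x : L)⁻¹ = (x' : L) * y * (x' : L)⁻¹ := mul_right_cancel h3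
    show (x : L)⁻¹ * x' * y = y * ((x : L)⁻¹ * x')
    calc (x : L)⁻¹ * x' * y = (x : L)⁻¹ * ((x' : L) * y * (x' : L)⁻¹) * x' := by group
      _ = (x : L)⁻¹ * ((x : L) * y * (x : L)⁻¹) * x' := by rw [h5]
      _ = y * ((x : L)⁻¹ * x') := by group
  haveI hfin : Finite ((E ⧸ U.subgroupOf E) →* U) := DFunLike.finite _
  have hbij := hinj.bijective_of_nat_card_le (sq1_card (E ⧸ U.subgroupOf E) U)
  obtain ⟨a, ha⟩ := hbij.2 (QuotientGroup.lift _ f hfU)
  refine ⟨((Quotient.out a : E) : L), (Quotient.out a : E).2, fun y => ?_⟩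
  have h1 := DFunLike.congr_fun ha (QuotientGroup.mk y)
  exact congrArg Subtype.val h1
-- END sq1

-- BEGIN sq2
/-- The pairing bound: if `A` and `C` commute and only the elements of `Z` commute with all of `B` then
`card (A / Z) ≤ card (B / C)`. -/
theorem sq2_le (h : Prg U E) (A B C Z : Subgroup L) (hA : A ≤ E) (hB : B ≤ E) (hCB : C ≤ B)
    (hUC : U ≤ C) (hAC : ∀ a ∈ A, ∀ c ∈ C, a * c = c * a)
    (hZ : ∀ a ∈ A, (∀ b ∈ B, a * b = b * a) → a ∈ Z) : Z.relIndex A ≤ C.relIndex B := by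
  haveI := h.cyc
  have hcm : ∀ x ∈ E, ∀ u ∈ U, x * u * x⁻¹ = u := fun x hx u hu => by
    rw [h.cU x hx u hu, mul_inv_cancel_right]
  haveI hN : (C.subgroupOf B).Normal := ⟨fun c hc b => by
    rw [Subgroup.mem_subgroupOf] at hc ⊢
    show (b : L) * c * (b : L)⁻¹ ∈ C
    have h1 : (b : L) * c * (b : L)⁻¹ * (c : L)⁻¹ ∈ C := hUC (h.com _ (hB b.2) _ (hB c.2))
    have h2 := C.mul_mem h1 hc
    rwa [inv_mul_cancel_right] at h2⟩
  letI : CommGroup (B ⧸ C.subgroupOf B) := { (inferInstance : Group (B ⧸ C.subgroupOf B)) with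
    mul_comm := fun a b => by
      obtain ⟨x, rfl⟩ := QuotientGroup.mk_surjective a
      obtain ⟨y, rfl⟩ := QuotientGroup.mk_surjective b
      refine QuotientGroup.eq.2 ?_
      rw [Subgroup.mem_subgroupOf]
      have h1 := hUC (h.com _ (E.inv_mem (hB y.2)) _ (E.inv_mem (hB x.2)))
      show ((x : L) * y)⁻¹ * ((y : L) * x) ∈ C
      rwa [mul_inv_rev, ← mul_assoc, ← inv_inv (y : L), ← inv_inv (x : L), inv_inv (y : L)⁻¹,
        inv_inv (x : L)⁻¹] }
  have hm1 : ∀ x ∈ E, ∀ y ∈ E, ∀ y' ∈ E, x * (y * y') * x⁻¹ * (y * y')⁻¹ =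
      (x * y * x⁻¹ * y⁻¹) * (x * y' * x⁻¹ * y'⁻¹) := fun x hx y hy y' hy' => by
    have h1 := hcm y hy _ (h.com x hx y' hy')
    calc x * (y * y') * x⁻¹ * (y * y')⁻¹ =
        (x * y * x⁻¹ * y⁻¹) * (y * (x * y' * x⁻¹ * y'⁻¹) * y⁻¹) := by group
      _ = _ := by rw [h1]
  let φ : A → (B →* U) := fun x => MonoidHom.mk' (fun y => ⟨x * y * (x : L)⁻¹ * (y : L)⁻¹,
    h.com x (hA x.2) y (hB y.2)⟩) fun y y' =>
      Subtype.ext (hm1 x (hA x.2) y (hB y.2) y' (hB y'.2))
  have hφ : ∀ (x : A) (y : B), ((φ x y : U) : L) = x * y * (x : L)⁻¹ * (y : L)⁻¹ := fun _ _ => rfl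
  have hφC : ∀ x : A, C.subgroupOf B ≤ (φ x).ker := fun x y hy => by
    rw [Subgroup.mem_subgroupOf] at hy
    rw [MonoidHom.mem_ker]
    refine Subtype.ext ?_
    rw [hφ, hAC x x.2 y hy, mul_inv_cancel_right, mul_inv_cancel]
    rfl
  let Φ : A → ((B ⧸ C.subgroupOf B) →* U) := fun x => QuotientGroup.lift _ (φ x) (hφC x)
  have hΦ : ∀ (x : A) (y : B), Φ x (QuotientGroup.mk y) = φ x y := fun _ _ => rfl
  have hinj : Function.Injective fun a : A ⧸ Z.subgroupOf A => Φ (Quotient.out a) := by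
    intro a b hab
    have h1 : (a : A ⧸ Z.subgroupOf A) = QuotientGroup.mk (Quotient.out a) :=
      (QuotientGroup.out_eq' a).symm
    have h2 : (b : A ⧸ Z.subgroupOf A) = QuotientGroup.mk (Quotient.out b) :=
      (QuotientGroup.out_eq' b).symm
    rw [h1, h2]
    refine QuotientGroup.eq.2 ?_
    rw [Subgroup.mem_subgroupOf]
    have hab' : Φ (Quotient.out a) = Φ (Quotient.out b) := hab
    generalize (Quotient.out a : A) = x at hab'
    generalize (Quotient.out b : A) = x' at hab'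
    refine hZ _ (A.mul_mem (A.inv_mem x.2) x'.2) fun y hy => ?_
    have h3 : (x : L) * y * (x : L)⁻¹ * y⁻¹ = (x' : L) * y * (x' : L)⁻¹ * y⁻¹ := by
      have h4 := DFunLike.congr_fun hab' (QuotientGroup.mk ⟨y, hy⟩)
      exact congrArg Subtype.val h4
    have h5 : (x : L) * y * (x : L)⁻¹ = (x' : L) * y * (x' : L)⁻¹ := mul_right_cancel h3
    show (x : L)⁻¹ * x' * y = y * ((x : L)⁻¹ * x')
    calc (x : L)⁻¹ * x' * y = (x : L)⁻¹ * ((x' : L) * y * (x' : L)⁻¹) * x' := by group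
      _ = (x : L)⁻¹ * ((x : L) * y * (x : L)⁻¹) * x' := by rw [h5]
      _ = y * ((x : L)⁻¹ * x') := by group
  haveI hfin : Finite ((B ⧸ C.subgroupOf B) →* U) := DFunLike.finite _
  have h1 := Nat.card_le_card_of_injective _ hinj
  exact h1.trans (sq1_card (B ⧸ C.subgroupOf B) U)

/-- A maximal commutative subgroup between `U` and `E` is its own centralizer in `E`. -/
theorem sq2_max (h : Prg U E) : ∃ Y : Subgroup L, U ≤ Y ∧ Y ≤ E ∧
    (∀ a ∈ Y, ∀ b ∈ Y, a * b = b * a) ∧ ∀ x ∈ E, (∀ y ∈ Y, x * y = y * x) → x ∈ Y := by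
  obtain ⟨Y, hY⟩ := (Set.toFinite {Y : Subgroup L | U ≤ Y ∧ Y ≤ E ∧
    ∀ a ∈ Y, ∀ b ∈ Y, a * b = b * a}).exists_maximal
      ⟨U, le_rfl, h.UE, fun a ha b hb => h.cU a (h.UE ha) b hb⟩
  obtain ⟨⟨h1, h2, h3⟩, hmax⟩ := hY
  refine ⟨Y, h1, h2, h3, fun x hx hxY => ?_⟩
  have hk : ∀ a ∈ (Y : Set L) ∪ {x}, ∀ b ∈ (Y : Set L) ∪ {x}, a * b = b * a := by
    rintro a (ha | rfl) b (hb | rfl)
    · exact h3 a ha b hb
    · exact (hxY a ha).symm
    · exact hxY b hb
    · rfl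
  have hc1 : Subgroup.closure ((Y : Set L) ∪ {x}) ≤ Subgroup.centralizer ((Y : Set L) ∪ {x}) := by
    rw [Subgroup.closure_le]
    intro a ha
    exact Subgroup.mem_centralizer_iff.2 fun b hb => hk b hb a ha
  have hc2 : Subgroup.closure ((Y : Set L) ∪ {x}) ≤
      Subgroup.centralizer (Subgroup.closure ((Y : Set L) ∪ {x}) : Set L) := by
    rw [Subgroup.closure_le]
    intro a ha
    refine Subgroup.mem_centralizer_iff.2 fun b hb => ?_
    exact (Subgroup.mem_centralizer_iff.1 (hc1 hb) a ha).symm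
  have hYc : Y ≤ Subgroup.closure ((Y : Set L) ∪ {x}) := fun y hy =>
    Subgroup.subset_closure (Or.inl hy)
  have hle := hmax (y := Subgroup.closure ((Y : Set L) ∪ {x})) ⟨h1.trans hYc, by
    rw [Subgroup.closure_le]
    rintro a (ha | rfl)
    · exact h2 ha
    · exact hx, fun a ha b hb => Subgroup.mem_centralizer_iff.1 (hc2 hb) a ha⟩ hYc
  exact hle (Subgroup.subset_closure (Or.inr rfl))

/-- (sq2, size 4) `E / U` has square order. PROOF. Take `Y` with `U ≤ Y ≤ E`, `Y` commutative, of maximal order. An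
element `x ∈ E` which commutes with `Y` is in `Y` (maximality: `⟨Y, x⟩` is commutative). The map
`E / Y → Hom(Y / U, U)`, `x ↦ (y ↦ [x, y])`, is an injective homomorphism, so
`card (E / Y) ≤ card (Y / U)` (as in `nd_rep`). Also `Y / U → Hom(E / Y, U)`, `y ↦ (x ↦ [x, y])`, is injective
(`cen`), so `card (Y / U) ≤ card (E / Y)`. So `card (E / U) = card (Y / U) ^ 2`. A prime `s` which divides `e`
divides `card (Y / U)`, so there is a `y ∈ Y`, `y ∉ U`, `y ^ s ∈ U`; it does not commute with some `x ∈ E`, and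
`[x, y] ^ s = [x, y ^ s] = 1`, so `s` divides `card U`. -/
theorem sq_ex (h : Prg U E) :
    ∃ e : ℕ, 0 < e ∧ U.relIndex E = e ^ 2 ∧ ∀ s : ℕ, s.Prime → s ∣ e → s ∣ Nat.card U := by
  obtain ⟨Y, hUY, hYE, hYc, hYm⟩ := sq2_max h
  have h1 : Y.relIndex E ≤ U.relIndex Y := sq2_le h E Y U Y le_rfl hYE hUY le_rfl
    (fun a ha c hc => h.cU a ha c hc) hYm
  have h2 : U.relIndex Y ≤ Y.relIndex E := sq2_le h Y E Y U hYE le_rfl hYE hUY
    (fun a ha c hc => hYc a ha c hc) (fun a ha hb => h.cen a (hYE ha) hb)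
  have h3 : U.relIndex Y * Y.relIndex E = U.relIndex E := Subgroup.relIndex_mul_relIndex U Y E hUY hYE
  refine ⟨U.relIndex Y, ?_, ?_, ?_⟩
  · exact Nat.pos_of_ne_zero Subgroup.index_ne_zero_of_finite
  · rw [← h3, le_antisymm h1 h2, pow_two]
  · intro s hs hse
    haveI : Fact s.Prime := ⟨hs⟩
    haveI hN : (U.subgroupOf Y).Normal := ⟨fun u hu x => by
      rw [Subgroup.mem_subgroupOf] at hu ⊢
      show (x : L) * u * (x : L)⁻¹ ∈ U
      rw [hYc x x.2 u u.2, mul_inv_cancel_right]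
      exact hu⟩
    obtain ⟨a, ha⟩ := exists_prime_orderOf_dvd_card' (G := Y ⧸ U.subgroupOf Y) s hse
    obtain ⟨y, rfl⟩ := QuotientGroup.mk_surjective a
    have hyU : (y : L) ∉ U := fun hy => by
      have h4 : (QuotientGroup.mk y : Y ⧸ U.subgroupOf Y) = 1 :=
        (QuotientGroup.eq_one_iff y).2 (Subgroup.mem_subgroupOf.2 hy)
      rw [h4, orderOf_one] at ha
      exact hs.one_lt.ne ha
    have hys : (y : L) ^ s ∈ U := by
      have h4 : (QuotientGroup.mk (y ^ s) : Y ⧸ U.subgroupOf Y) = 1 := by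
        rw [QuotientGroup.mk_pow, ← ha, pow_orderOf_eq_one]
      have h5 := Subgroup.mem_subgroupOf.1 ((QuotientGroup.eq_one_iff (y ^ s)).1 h4)
      rwa [Subgroup.coe_pow] at h5
    have hyE : (y : L) ∈ E := hYE y.2
    have hex : ∃ x ∈ E, ¬ ((y : L) * x = x * y) := by
      by_contra hcon
      push Not at hcon
      exact hyU (h.cen y hyE hcon)
    obtain ⟨x, hx, hxy⟩ := hex
    set c : L := x * y * x⁻¹ * (y : L)⁻¹ with hc
    have hcU : c ∈ U := h.com x hx y hyE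
    have hc1 : c ≠ 1 := fun h4 => by
      apply hxy
      have h5 : x * y * x⁻¹ * (y : L)⁻¹ = 1 := hc ▸ h4
      have h6 := mul_inv_eq_one.1 h5
      have h7 := mul_inv_eq_iff_eq_mul.1 h6
      exact h7.symm
    have hcy : Commute c (y : L) := (h.cU y hyE c hcU).symm
    have hcs : c ^ s = 1 := by
      have h4 : c * y = x * y * x⁻¹ := by rw [hc, inv_mul_cancel_right]
      have h5 : (c * y) ^ s = (y : L) ^ s := by
        rw [h4, conj_pow, h.cU x hx _ hys, mul_inv_cancel_right]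
      rw [hcy.mul_pow] at h5
      exact mul_eq_right.1 h5
    have hord : orderOf (⟨c, hcU⟩ : U) = s := by
      refine orderOf_eq_prime (Subtype.ext hcs) fun h4 => hc1 (congrArg Subtype.val h4)
    rw [← hord]
    exact orderOf_dvd_natCard _
-- END sq2

-- BEGIN sq3
private def sq3_b (a b : L) : L := a * b * a⁻¹ * b⁻¹

omit [Finite L] in
private theorem sq3_b_one (a b : L) : sq3_b a b = 1 ↔ a * b = b * a := by
  unfold sq3_b
  rw [mul_inv_eq_one, mul_inv_eq_iff_eq_mul]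

omit [Finite L] in
private theorem sq3_b_anti (a b : L) : sq3_b a b = (sq3_b b a)⁻¹ := by
  unfold sq3_b
  group

omit [Finite L] in
private theorem sq3_b_left (hE : SE U E n M) {a b c : L} (ha : a ∈ E) (hb : b ∈ E) (hc : c ∈ E) :
    sq3_b (a * b) c = sq3_b a c * sq3_b b c := by
  have h1 : b * c * b⁻¹ * c⁻¹ ∈ U := hE.com b hb c hc
  have h2 : a * c * a⁻¹ * c⁻¹ ∈ U := hE.com a ha c hc
  have h3 := hE.cU a ha _ h1
  have h4 := hE.cU _ (hE.UE h2) _ h1
  unfold sq3_b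
  calc (a * b) * c * (a * b)⁻¹ * c⁻¹ = (a * (b * c * b⁻¹ * c⁻¹)) * (c * a⁻¹ * c⁻¹) := by group
    _ = (b * c * b⁻¹ * c⁻¹) * a * (c * a⁻¹ * c⁻¹) := by rw [h3]
    _ = (b * c * b⁻¹ * c⁻¹) * (a * c * a⁻¹ * c⁻¹) := by group
    _ = _ := h4.symm

omit [Finite L] in
private theorem sq3_b_right (hE : SE U E n M) {a b c : L} (ha : a ∈ E) (hb : b ∈ E) (hc : c ∈ E) :
    sq3_b a (b * c) = sq3_b a b * sq3_b a c := by
  have h1 := sq3_b_left hE hb hc ha
  rw [sq3_b_anti a (b * c), h1, mul_inv_rev, ← sq3_b_anti, ← sq3_b_anti]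
  have h2 : a * c * a⁻¹ * c⁻¹ ∈ U := hE.com a ha c hc
  have h3 : a * b * a⁻¹ * b⁻¹ ∈ U := hE.com a ha b hb
  exact (hE.cU _ (hE.UE h3) _ h2).symm

omit [Finite L] in
private theorem sq3_b_conj (hE : SE U E n M) {a c g : L} (ha : a ∈ E) (hc : c ∈ E)
    (hg : ∀ u ∈ U, g * u = u * g) : sq3_b (g * a * g⁻¹) (g * c * g⁻¹) = sq3_b a c := by
  have h1 : a * c * a⁻¹ * c⁻¹ ∈ U := hE.com a ha c hc
  have h2 := hg _ h1
  unfold sq3_b
  calc g * a * g⁻¹ * (g * c * g⁻¹) * (g * a * g⁻¹)⁻¹ * (g * c * g⁻¹)⁻¹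
      = g * (a * c * a⁻¹ * c⁻¹) * g⁻¹ := by group
    _ = _ := by rw [h2, mul_inv_cancel_right]

omit [Finite L] in
private theorem sq3_b_U (hE : SE U E n M) {a u : L} (ha : a ∈ E) (hu : u ∈ U) :
    sq3_b a u = 1 := (sq3_b_one a u).2 (hE.cU a ha u hu)

omit [Finite L] in
private theorem sq3_b_pow (hE : SE U E n M) {a c : L} (ha : a ∈ E) (hc : c ∈ E) (m : ℕ) :
    sq3_b (a ^ m) c = sq3_b a c ^ m := by
  induction m with
  | zero => unfold sq3_b; simp
  | succ m ih => rw [pow_succ, sq3_b_left hE (E.pow_mem ha m) ha hc, ih, pow_succ]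

omit [Finite L] in
private theorem sq3_b_inv (hE : SE U E n M) {a c : L} (ha : a ∈ E) (hc : c ∈ E) :
    sq3_b a⁻¹ c = (sq3_b a c)⁻¹ := by
  rw [eq_inv_iff_mul_eq_one, ← sq3_b_left hE (E.inv_mem ha) ha hc, inv_mul_cancel]
  unfold sq3_b
  group

omit [Finite L] in
private theorem sq3_nor (hE : SE U E n M) : U.Normal := by
  refine ⟨fun u hu g => ?_⟩
  haveI := hE.nor
  refine hE.cen _ (hE.nor.conj_mem u (hE.UE hu) g) fun y hy => ?_
  have h1 : g⁻¹ * y * g ∈ E := by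
    have := hE.nor.conj_mem y hy g⁻¹
    rwa [inv_inv] at this
  have h2 := hE.cU _ h1 u hu
  calc g * u * g⁻¹ * y = g * (u * (g⁻¹ * y * g)) * g⁻¹ := by group
    _ = g * ((g⁻¹ * y * g) * u) * g⁻¹ := by rw [h2]
    _ = y * (g * u * g⁻¹) := by group

omit [Finite L] in
private theorem sq3_perp (hE : SE U E n M) {g c v : L} (hg : ∀ u ∈ U, g * u = u * g)
    (hc : c ∈ E) (hgc : g⁻¹ * c * g * c⁻¹ ∈ U) (hv : v ∈ E) :
    c * (v * g * v⁻¹ * g⁻¹) = (v * g * v⁻¹ * g⁻¹) * c := by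
  haveI := hE.nor
  have h1 : g * v⁻¹ * g⁻¹ ∈ E := hE.nor.conj_mem _ (E.inv_mem hv) g
  have h2 : g⁻¹ * c * g ∈ E := by
    have := hE.nor.conj_mem c hc g⁻¹
    rwa [inv_inv] at this
  have h3 : sq3_b (v * (g * v⁻¹ * g⁻¹)) c = 1 := by
    rw [sq3_b_left hE hv h1 hc]
    have h4 : c = g * (g⁻¹ * c * g) * g⁻¹ := by group
    have h5 : sq3_b (g * v⁻¹ * g⁻¹) c = sq3_b v⁻¹ (g⁻¹ * c * g) := by
      conv_lhs => rw [h4]
      exact sq3_b_conj hE (E.inv_mem hv) h2 hg
    have h6 : g⁻¹ * c * g = (g⁻¹ * c * g * c⁻¹) * c := by group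
    have h7 : sq3_b v⁻¹ (g⁻¹ * c * g) = sq3_b v⁻¹ c := by
      rw [h6, sq3_b_right hE (E.inv_mem hv) (hE.UE hgc) hc,
        sq3_b_U hE (E.inv_mem hv) hgc, one_mul]
    rw [h5, h7, ← sq3_b_left hE hv (E.inv_mem hv) hc, mul_inv_cancel]
    unfold sq3_b
    group
  have h4 := (sq3_b_one _ _).1 h3
  have h5 : v * g * v⁻¹ * g⁻¹ = v * (g * v⁻¹ * g⁻¹) := by group
  rw [h5, h4]

open scoped commutatorElement in
private theorem sq3_setup (hE : SE U E n M) (l : ℕ) (hl : l.Prime) (hle : ¬ l ∣ U.relIndex E)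
    (x : L) (hx : ∀ u ∈ U, x * u = u * x) (hxl : x ^ l = 1) :
    ∃ D : Subgroup L, U ≤ D ∧ D ≤ E ∧
      (∀ y ∈ E, ∃ c ∈ E, x * c * x⁻¹ * c⁻¹ ∈ U ∧ ∃ d ∈ D, y = c * d) ∧
      (∀ d ∈ D, x * d * x⁻¹ * d⁻¹ ∈ U → d ∈ U) ∧
      (∀ c ∈ E, x * c * x⁻¹ * c⁻¹ ∈ U → ∀ d ∈ D, c * d = d * c) ∧
      (∀ d ∈ D, x * d * x⁻¹ ∈ D) ∧ (∀ y ∈ E, x * y * x⁻¹ * y⁻¹ ∈ D) := by
  haveI := sq3_nor hE
  haveI := hE.nor
  set f : L →* L ⧸ U := QuotientGroup.mk' U with hf
  have hker : f.ker = U := QuotientGroup.ker_mk' U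
  have hfs : Function.Surjective f := QuotientGroup.mk'_surjective U
  have f1 : ∀ a, f a = 1 ↔ a ∈ U := fun a => by rw [← MonoidHom.mem_ker, hker]
  set A : Subgroup (L ⧸ U) := E.map f with hA
  have hAb : Ab A := by
    refine ⟨Subgroup.Normal.map hE.nor f hfs, ?_⟩
    rintro _ ⟨a, ha, rfl⟩ _ ⟨b, hb, rfl⟩
    have h1 := (f1 _).2 (hE.com a ha b hb)
    rw [map_mul, map_mul, map_mul, map_inv, map_inv, mul_inv_eq_one,
      mul_inv_eq_iff_eq_mul] at h1
    exact h1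
  set K : Subgroup (L ⧸ U) := Subgroup.zpowers (f x) with hK
  have hcard : Nat.card A = U.relIndex E := by
    rw [hA, ← Subgroup.relIndex_ker, hker]
  have hcop : (Nat.card K).Coprime (Nat.card A) := by
    rw [hcard, hK, Nat.card_zpowers]
    have h1 : orderOf (f x) ∣ l := orderOf_dvd_of_pow_eq_one (by rw [← map_pow, hxl, map_one])
    exact Nat.Coprime.coprime_dvd_left h1 ((hl.coprime_iff_not_dvd).2 hle)
  have hcomm : ∀ c : L, x * c * x⁻¹ * c⁻¹ ∈ U ↔ Commute (f x) (f c) := by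
    intro c
    rw [← f1, map_mul, map_mul, map_mul, map_inv, map_inv, mul_inv_eq_one,
      mul_inv_eq_iff_eq_mul]
    exact Iff.rfl
  have hKc : ∀ c : L, Commute (f x) (f c) → ∀ s ∈ K, s * f c * s⁻¹ = f c := by
    rintro c hc _ ⟨j, rfl⟩
    have h1 : Commute (f x ^ j) (f c) := hc.zpow_left j
    show f x ^ j * f c * (f x ^ j)⁻¹ = f c
    rw [h1.eq, mul_inv_cancel_right]
  set D : Subgroup L := (⁅A, K⁆ : Subgroup (L ⧸ U)).comap f with hD
  haveI : A.Normal := hAb.nor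
  have hDA : ⁅A, K⁆ ≤ A := Subgroup.commutator_le_left A K
  have hUD : U ≤ D := by
    intro u hu
    show f u ∈ ⁅A, K⁆
    rw [(f1 u).2 hu]
    exact Subgroup.one_mem _
  have hDE : D ≤ E := by
    intro d hd
    obtain ⟨e, he, hed⟩ := hDA (show f d ∈ ⁅A, K⁆ from hd)
    have h1 : e⁻¹ * d ∈ U := by
      rw [← f1, map_mul, map_inv, hed, inv_mul_cancel]
    have h2 := E.mul_mem he (hE.UE h1)
    rwa [mul_inv_cancel_left] at h2
  have hD6 : ∀ y ∈ E, x * y * x⁻¹ * y⁻¹ ∈ D := by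
    intro y hy
    show f _ ∈ ⁅A, K⁆
    have h1 : ⁅f y, f x⁆ ∈ ⁅A, K⁆ :=
      Subgroup.commutator_mem_commutator ⟨y, hy, rfl⟩ (Subgroup.mem_zpowers _)
    have h2 := Subgroup.inv_mem _ h1
    rw [commutatorElement_inv, commutatorElement_def, ← map_inv, ← map_inv, ← map_mul,
      ← map_mul, ← map_mul] at h2
    exact h2
  have hD3 : ∀ d ∈ D, x * d * x⁻¹ * d⁻¹ ∈ U → d ∈ U := by
    intro d hd h
    rw [← f1]
    exact cp_fix hAb K hcop (f d) hd (hKc d ((hcomm d).1 h))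
  have hD4 : ∀ c ∈ E, x * c * x⁻¹ * c⁻¹ ∈ U → ∀ d ∈ D, c * d = d * c := by
    intro c hc hxc d hd
    have h1 : ⁅A, K⁆ ≤ (E ⊓ Subgroup.centralizer {c}).map f := by
      rw [Subgroup.commutator_le]
      rintro _ ⟨v, hv, rfl⟩ _ ⟨j, rfl⟩
      have hgU : ∀ u ∈ U, x ^ j * u = u * x ^ j := by
        intro u hu
        have : Commute x u := hx u hu
        exact (this.zpow_left j).eq
      have hgc : (x ^ j)⁻¹ * c * x ^ j * c⁻¹ ∈ U := by
        rw [← f1, map_mul, map_mul, map_mul, map_inv, map_inv, map_zpow]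
        have h2 : Commute (f x ^ j) (f c) := ((hcomm c).1 hxc).zpow_left j
        have h3 : Commute ((f x ^ j)⁻¹) (f c) := h2.inv_left
        rw [h3.eq, inv_mul_cancel_right, mul_inv_cancel]
      have h2 := sq3_perp hE hgU hc hgc hv
      refine ⟨v * x ^ j * v⁻¹ * (x ^ j)⁻¹, ⟨?_, ?_⟩, ?_⟩
      · have h3 : x ^ j * v⁻¹ * (x ^ j)⁻¹ ∈ E := hE.nor.conj_mem _ (E.inv_mem hv) _
        have h4 := E.mul_mem hv h3
        have h5 : v * (x ^ j * v⁻¹ * (x ^ j)⁻¹) = v * x ^ j * v⁻¹ * (x ^ j)⁻¹ := by group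
        rwa [h5] at h4
      · refine Subgroup.mem_centralizer_iff.2 fun y hy => ?_
        rw [Set.mem_singleton_iff.1 hy]
        exact h2
      · rw [commutatorElement_def, map_mul, map_mul, map_mul, map_inv, map_inv, map_zpow]
    obtain ⟨y, ⟨hyE, hyc⟩, hyd⟩ := h1 (show f d ∈ ⁅A, K⁆ from hd)
    have h2 : y⁻¹ * d ∈ U := by
      rw [← f1, map_mul, map_inv, hyd, inv_mul_cancel]
    have h3 := hE.cU c hc _ h2
    have h4 : c * y = y * c := (Subgroup.mem_centralizer_iff.1 hyc) c rfl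
    calc c * d = (c * y) * (y⁻¹ * d) := by group
      _ = y * (c * (y⁻¹ * d)) := by rw [h4]; group
      _ = y * ((y⁻¹ * d) * c) := by rw [h3]
      _ = d * c := by group
  refine ⟨D, hUD, hDE, ?_, hD3, hD4, ?_, hD6⟩
  · intro y hy
    obtain ⟨c', hc', b', hb', hyc, hcf⟩ := cp_dec hAb K hcop (f y) ⟨y, hy, rfl⟩
    obtain ⟨c, hc, rfl⟩ := hc'
    refine ⟨c, hc, ?_, c⁻¹ * y, ?_, by rw [mul_inv_cancel_left]⟩
    · rw [hcomm]
      have h1 := hcf (f x) (Subgroup.mem_zpowers _)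
      rw [mul_inv_eq_iff_eq_mul] at h1
      exact h1
    · show f (c⁻¹ * y) ∈ ⁅A, K⁆
      rw [map_mul, map_inv, hyc, inv_mul_cancel_left]
      exact hb'
  · intro d hd
    have h1 := D.mul_mem (hD6 d (hDE hd)) hd
    rwa [inv_mul_cancel_right] at h1

/-- (sq3, size 5) The primes of the action. PROOF. `x` acts by conjugation on `E`, fixes `U`
elementwise, and the pairing is invariant. `Ē = E / U` is an abelian group of order `e ^ 2`, prime to `l`,
so `Ē = C × D`, `C` = fixed points of `x`, `D = [Ē, x]`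
(coprime action, `cp_split` / `cp_dec` of Nan/Cp.lean). `D ≠ 1`: if `x` is trivial on `E / U` then for `y ∈ E`
`[x, y] ∈ U`, and `x ∈ E` by `big`. `D` and `C` are orthogonal: for `d = [x, v]`, `c ∈ C`: `([x, v], c) = (x v x⁻¹, c)
(v, c)⁻¹ = (v, x⁻¹ c x) (v, c)⁻¹ = 1`. So the pairing is nondegenerate on `D`. Let `s` be a prime
divisor of `card D` and `D_s` its Sylow subgroup: it is `x`-invariant, the pairing on `D_s` is nondegenerate
(`D_s` is orthogonal to the elements of order prime to `s`), so `card D_s = s ^ (2 k)`: apply `sq_ex` to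
the preimage of `D_s` in `E` in the role of `E` (and `U`). `x` has no fixed points on `D_s` except 1, so
`l ∣ card D_s - 1` (orbits of length `l`). `s ^ (2k)` divides `e ^ 2`, so `s ^ k ∣ e`. -/
theorem prm_act (hc : IsCyclic U) (hE : SE U E n M) (e : ℕ) (he : U.relIndex E = e ^ 2) (l : ℕ)
    (hl : l.Prime) (hle : ¬ l ∣ e) (x : L) (hx : ∀ u ∈ U, x * u = u * x)
    (hxl : x ^ l = 1) (hxE : x ∉ E) :
    ∃ s k : ℕ, s.Prime ∧ 0 < k ∧ s ^ k ∣ e ∧ l ∣ s ^ (2 * k) - 1 := by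
  classical
  haveI := sq3_nor hE
  haveI : Fact l.Prime := ⟨hl⟩
  have hle' : ¬ l ∣ U.relIndex E := by
    rw [he]
    exact fun h => hle (hl.dvd_of_dvd_pow h)
  obtain ⟨D, hUD, hDE, h2, h3, h4, h5, h6⟩ := sq3_setup hE l hl hle' x hx hxl
  set f : L →* L ⧸ U := QuotientGroup.mk' U with hf
  have hker : f.ker = U := QuotientGroup.ker_mk' U
  have f1 : ∀ a, f a = 1 ↔ a ∈ U := fun a => by rw [← MonoidHom.mem_ker, hker]
  have hcomE : ∀ a ∈ E, ∀ b ∈ E, Commute (f a) (f b) := by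
    intro a ha b hb
    have h1 := (f1 _).2 (hE.com a ha b hb)
    rw [map_mul, map_mul, map_mul, map_inv, map_inv, mul_inv_eq_one,
      mul_inv_eq_iff_eq_mul] at h1
    exact h1
  have hcard : ∀ P : Subgroup L, Nat.card (P.map f) = U.relIndex P := by
    intro P
    rw [← Subgroup.relIndex_ker, hker]
  set m : ℕ := U.relIndex D with hm
  have hm1 : m ≠ 1 := by
    intro h
    have h7 : D ≤ U := Subgroup.relIndex_eq_one.1 h
    exact hxE (hE.big x hx fun y hy => h7 (h6 y hy))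
  have hm0 : m ≠ 0 := by
    rw [hm, ← hcard]
    exact Nat.card_pos.ne'
  obtain ⟨s, hs, hsm⟩ := Nat.exists_prime_and_dvd hm1
  haveI : Fact s.Prime := ⟨hs⟩
  -- the preimage of the Sylow subgroup
  let P : Subgroup L :=
    { carrier := {y | y ∈ D ∧ ∃ a : ℕ, y ^ s ^ a ∈ U}
      one_mem' := ⟨D.one_mem, 0, by simp [U.one_mem]⟩
      mul_mem' := by
        rintro y z ⟨hy, a, hya⟩ ⟨hz, b, hzb⟩
        refine ⟨D.mul_mem hy hz, a + b, ?_⟩
        have e1 : f y ^ s ^ (a + b) = 1 := by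
          rw [pow_add, pow_mul, ← map_pow, (f1 _).2 hya, one_pow]
        have e2 : f z ^ s ^ (a + b) = 1 := by
          rw [add_comm, pow_add, pow_mul, ← map_pow, (f1 _).2 hzb, one_pow]
        rw [← f1, map_pow, map_mul, (hcomE y (hDE hy) z (hDE hz)).mul_pow, e1, e2, one_mul]
      inv_mem' := by
        rintro y ⟨hy, a, hya⟩
        refine ⟨D.inv_mem hy, a, ?_⟩
        rw [inv_pow]
        exact U.inv_mem hya }
  have hPD : P ≤ D := fun y hy => hy.1
  have hUP : U ≤ P := fun u hu => ⟨hUD hu, 0, by simpa using hu⟩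
  have hPE : P ≤ E := hPD.trans hDE
  have hDm : ∀ d ∈ D, d ^ m ∈ U := by
    intro d hd
    have h7 : (⟨f d, d, hd, rfl⟩ : D.map f) ^ Nat.card (D.map f) = 1 := pow_card_eq_one'
    rw [hcard] at h7
    have h8 := congrArg Subtype.val h7
    rw [← f1, map_pow]
    simpa using h8
  obtain ⟨v, m', hm', hmv⟩ := Nat.exists_eq_pow_mul_and_not_dvd hm0 s hs.ne_one
  have hPg : Prg U P := by
    refine ⟨hc, hUP, fun y hy u hu => hE.cU y (hPE hy) u hu,
      fun y hy z hz => hE.com y (hPE hy) z (hPE hz), fun y hy hcen => ?_⟩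
    refine hE.cen y (hPE hy) fun w hw => ?_
    obtain ⟨c, hcE, hcU, d, hd, rfl⟩ := h2 w hw
    have h7 : c * y = y * c := h4 c hcE hcU y (hPD hy)
    have h8 : sq3_b y d = 1 := by
      obtain ⟨a, hya⟩ := hy.2
      have e1 : sq3_b y d ^ s ^ a = 1 := by
        rw [← sq3_b_pow hE (hPE hy) (hDE hd), sq3_b_anti,
          sq3_b_U hE (hDE hd) hya, inv_one]
      have e2 : sq3_b y d ^ m' = 1 := by
        have h9 : d ^ m' ∈ P := by
          refine ⟨D.pow_mem hd m', v, ?_⟩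
          rw [← pow_mul, mul_comm m', ← hmv]
          exact hDm d hd
        have h10 : sq3_b (d ^ m') y = 1 := (sq3_b_one _ _).2 (hcen _ h9).symm
        rw [sq3_b_pow hE (hDE hd) (hPE hy)] at h10
        rw [sq3_b_anti, inv_pow, h10, inv_one]
      have h9 : Nat.Coprime (s ^ a) m' :=
        Nat.Coprime.pow_left a ((hs.coprime_iff_not_dvd).2 hm')
      have h10 := pow_gcd_eq_one.2 ⟨e1, e2⟩
      rwa [h9.gcd_eq_one, pow_one] at h10
    have h9 := (sq3_b_one _ _).1 h8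
    calc y * (c * d) = (y * c) * d := by group
      _ = c * (y * d) := by rw [← h7]; group
      _ = c * d * y := by rw [h9]; group
  obtain ⟨e', he'0, he', -⟩ := sq_ex hPg
  have hPs : IsPGroup s (P.map f) := by
    rintro ⟨_, y, ⟨hy, a, hya⟩, rfl⟩
    refine ⟨a, Subtype.ext ?_⟩
    show f y ^ s ^ a = 1
    rw [← map_pow]
    exact (f1 _).2 hya
  obtain ⟨j, hj⟩ := IsPGroup.iff_card.1 hPs
  rw [hcard, he'] at hj
  obtain ⟨k, -, hk⟩ := (Nat.dvd_prime_pow hs).1 (hj ▸ dvd_pow_self e' two_ne_zero)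
  have hk0 : 0 < k := by
    rcases Nat.eq_zero_or_pos k with h | h
    · exfalso
      rw [h, pow_zero] at hk
      rw [hk, one_pow] at he'
      have h7 : P ≤ U := Subgroup.relIndex_eq_one.1 he'
      have h8 : s ∣ Nat.card (D.map f) := by rw [hcard]; exact hsm
      obtain ⟨⟨_, y, hy, rfl⟩, hys⟩ := exists_prime_orderOf_dvd_card' (G := D.map f) s h8
      have h9 : y ∈ P := by
        refine ⟨hy, 1, ?_⟩
        rw [pow_one, ← f1, map_pow]
        have h10 := pow_orderOf_eq_one (⟨f y, y, hy, rfl⟩ : D.map f)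
        rw [hys] at h10
        have h11 := congrArg Subtype.val h10
        simpa using h11
      have h10 : f y = 1 := (f1 _).2 (h7 h9)
      have h11 : (⟨f y, y, hy, rfl⟩ : D.map f) = 1 := Subtype.ext h10
      rw [h11, orderOf_one] at hys
      exact hs.one_lt.ne hys
    · exact h
  refine ⟨s, k, hs, hk0, ?_, ?_⟩
  · have h7 : U.relIndex P ∣ U.relIndex E := Dvd.intro _ (Subgroup.relIndex_mul_relIndex U P E hUP hPE)
    rw [he', he, hk] at h7
    exact (Nat.pow_dvd_pow_iff two_ne_zero).1 h7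
  · -- the orbits of the conjugation with `x`
    have hxP : ∀ z ∈ P.map f, f x * z * (f x)⁻¹ ∈ P.map f := by
      rintro _ ⟨y, ⟨hy, a, hya⟩, rfl⟩
      refine ⟨x * y * x⁻¹, ⟨h5 y hy, a, ?_⟩, by rw [map_mul, map_mul, map_inv]⟩
      rw [conj_pow]
      exact (sq3_nor hE).conj_mem _ hya x
    haveI : Fintype (P.map f) := Fintype.ofFinite _
    let F : Function.End (P.map f) := fun z => ⟨f x * z * (f x)⁻¹, hxP z z.2⟩
    have hF : ∀ (i : ℕ) (z : P.map f), (((F ^ i) z : P.map f) : L ⧸ U) =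
        f x ^ i * z * (f x ^ i)⁻¹ := by
      intro i
      induction i with
      | zero => intro z; simp [Function.End.one_def]
      | succ i ih =>
        intro z
        rw [pow_succ]
        show (((F ^ i) (F z) : P.map f) : L ⧸ U) = _
        rw [ih]
        show f x ^ i * (f x * z * (f x)⁻¹) * (f x ^ i)⁻¹ = _
        rw [pow_succ]
        group
    have hFl : F ^ l ^ 1 = 1 := by
      funext z
      apply Subtype.ext
      rw [hF, pow_one, ← map_pow, hxl, map_one]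
      simp [Function.End.one_def]
    have hmod := Equiv.Perm.card_fixedPoints_modEq hFl
    have hfix : Fintype.card (Function.fixedPoints F) = 1 := by
      rw [Fintype.card_eq_one_iff]
      refine ⟨⟨1, ?_⟩, ?_⟩
      · apply Subtype.ext
        show f x * 1 * (f x)⁻¹ = 1
        rw [mul_one, mul_inv_cancel]
      · rintro ⟨⟨_, y, hy, rfl⟩, hyF⟩
        apply Subtype.ext
        apply Subtype.ext
        show f y = 1
        have h7 := congrArg Subtype.val hyF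
        change f x * f y * (f x)⁻¹ = f y at h7
        rw [f1]
        refine h3 y (hPD hy) ?_
        rw [← f1, map_mul, map_mul, map_mul, map_inv, map_inv, h7, mul_inv_cancel]
    rw [hfix, ← Nat.card_eq_fintype_card, hcard, he', hk, ← pow_mul, mul_comm k 2] at hmod
    exact (Nat.modEq_iff_dvd' (Nat.one_le_pow _ _ hs.pos)).1 hmod.symm
-- END sq3

-- BEGIN sq4
/-- (sq4, size 5) There is `g ∈ E` such that `z = [x, g] = x g x⁻¹ g⁻¹` does not commute with `x z x⁻¹`. PROOF. In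
the notation of `prm_act`, write `Ē` additively with the form `ω` (values in `U`). Suppose
`ω((x-1)g, x(x-1)g) = 0` for all `g ∈ Ē`. Polarization: `ω(u, x v) + ω(v, x u) = 0` for `u, v ∈ D = (x-1)Ē`; as
`ω(v, x u) = - ω(x u, v) = - ω(u, x⁻¹ v)`: `ω(u, (x - x⁻¹) v) = 0` for all `u, v ∈ D`, so `x v = x⁻¹ v` on `D`
(nondegenerate on `D`), `x ^ 2` is trivial on `D`, so `x` is trivial on `D` (`l` odd), so `D = 0` (`D ⊓ C = 0`):
contradiction as in `prm_act`. -/
theorem gen_act (hc : IsCyclic U) (hE : SE U E n M) (l : ℕ) (hl : l.Prime) (hl2 : l ≠ 2)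
    (hlU : ¬ l ∣ Nat.card U) (x : L) (hx : ∀ u ∈ U, x * u = u * x) (hxl : x ^ l = 1)
    (hxE : x ∉ E) :
    ∃ g ∈ E, ∀ z : L, z = x * g * x⁻¹ * g⁻¹ → z * (x * z * x⁻¹) ≠ (x * z * x⁻¹) * z := by
  classical
  haveI := sq3_nor hE
  haveI := hE.nor
  have hPg : Prg U E := ⟨hc, hE.UE, hE.cU, hE.com, hE.cen⟩
  obtain ⟨e, he0, he, hes⟩ := sq_ex hPg
  have hle' : ¬ l ∣ U.relIndex E := by
    rw [he]
    exact fun h => hlU (hes l hl (hl.dvd_of_dvd_pow h))
  obtain ⟨D, hUD, hDE, -, h3, -, h5, h6⟩ := sq3_setup hE l hl hle' x hx hxl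
  by_contra hcon
  push Not at hcon
  have hcon' : ∀ g ∈ E, (x * g * x⁻¹ * g⁻¹) * (x * (x * g * x⁻¹ * g⁻¹) * x⁻¹) =
      (x * (x * g * x⁻¹ * g⁻¹) * x⁻¹) * (x * g * x⁻¹ * g⁻¹) := by
    intro g hg
    obtain ⟨z, rfl, hz⟩ := hcon g hg
    exact hz
  set f : L →* L ⧸ U := QuotientGroup.mk' U with hf
  have hker : f.ker = U := QuotientGroup.ker_mk' U
  have f1 : ∀ a, f a = 1 ↔ a ∈ U := fun a => by rw [← MonoidHom.mem_ker, hker]
  have hcomE : ∀ a ∈ E, ∀ b ∈ E, Commute (f a) (f b) := by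
    intro a ha b hb
    have h1 := (f1 _).2 (hE.com a ha b hb)
    rw [map_mul, map_mul, map_mul, map_inv, map_inv, mul_inv_eq_one,
      mul_inv_eq_iff_eq_mul] at h1
    exact h1
  have hxE' : ∀ y ∈ E, x * y * x⁻¹ ∈ E := fun y hy => hE.nor.conj_mem y hy x
  have hxE'' : ∀ y ∈ E, x⁻¹ * y * x ∈ E := by
    intro y hy
    have := hE.nor.conj_mem y hy x⁻¹
    rwa [inv_inv] at this
  obtain ⟨T, hT⟩ : ∃ T : L → L, ∀ g, T g = x * g * x⁻¹ * g⁻¹ := ⟨_, fun _ => rfl⟩
  have hTD : ∀ g ∈ E, T g ∈ D := by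
    intro g hg
    rw [hT]
    exact h6 g hg
  have hTE : ∀ g ∈ E, T g ∈ E := fun g hg => hDE (hTD g hg)
  have hTc : ∀ g ∈ E, sq3_b (T g) (x * T g * x⁻¹) = 1 := by
    intro g hg
    rw [sq3_b_one, hT]
    exact hcon' g hg
  -- the values of the pairing are central
  have hbU : ∀ a ∈ E, ∀ b ∈ E, sq3_b a b ∈ U := fun a ha b hb => hE.com a ha b hb
  have hTm : ∀ g ∈ E, ∀ h ∈ E, ∃ u ∈ U, T (g * h) = T g * T h * u := by
    intro g hg h hh
    refine ⟨(T g * T h)⁻¹ * T (g * h), ?_, by rw [mul_inv_cancel_left]⟩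
    rw [← f1, map_mul, map_inv, inv_mul_eq_one]
    have e1 : T (g * h) = T g * (g * T h * g⁻¹) := by
      rw [hT, hT, hT]; group
    have e2 : Commute (f g) (f (T h)) := hcomE g hg _ (hTE h hh)
    rw [e1, map_mul, map_mul, map_mul, map_mul, map_inv, e2.eq, mul_inv_cancel_right]
  have hpol : ∀ g ∈ E, ∀ h ∈ E,
      sq3_b (T g) (x * T h * x⁻¹) * sq3_b (T h) (x * T g * x⁻¹) = 1 := by
    intro g hg h hh
    have k1 := hTc (g * h) (E.mul_mem hg hh)
    obtain ⟨u, hu, hgh⟩ := hTm g hg h hh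
    have a1 := hTE g hg
    have a2 := hTE h hh
    have a3 := E.mul_mem a1 a2
    have b1 := hxE' _ a1
    have b2 := hxE' _ a2
    have e1 : x * (T g * T h * u) * x⁻¹ = (x * T g * x⁻¹) * (x * T h * x⁻¹) * u := by
      have := hx u hu
      calc x * (T g * T h * u) * x⁻¹ = x * T g * T h * (u * x⁻¹) := by group
        _ = x * T g * T h * (x⁻¹ * u) := by
            congr 1
            rw [eq_inv_mul_iff_mul_eq, ← mul_assoc, this, mul_inv_cancel_right]
        _ = _ := by group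
    have uE := hE.UE hu
    rw [hgh, e1, sq3_b_left hE a3 uE (E.mul_mem (E.mul_mem b1 b2) uE),
      sq3_b_anti u, sq3_b_U hE (E.mul_mem (E.mul_mem b1 b2) uE) hu, inv_one, mul_one,
      sq3_b_right hE a3 (E.mul_mem b1 b2) uE, sq3_b_U hE a3 hu, mul_one,
      sq3_b_left hE a1 a2 (E.mul_mem b1 b2), sq3_b_right hE a1 b1 b2,
      sq3_b_right hE a2 b1 b2, hTc g hg, hTc h hh, one_mul, mul_one] at k1
    exact k1
  -- the element `w` is fixed by `x` modulo `U`
  have hw : ∀ h ∈ E, (x * T h * x⁻¹) * (x⁻¹ * T h * x)⁻¹ ∈ U := by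
    intro h hh
    have a2 := hTE h hh
    have a2D : T h ∈ D := hTD h hh
    have i1 : x⁻¹ * T h * x ∈ D := by
      -- the conjugates of `T h` under the powers of `x` are in `D`
      have hpow : ∀ i : ℕ, x ^ i * T h * (x ^ i)⁻¹ ∈ D := by
        intro i
        induction i with
        | zero => simpa using a2D
        | succ i ih =>
          have := h5 _ ih
          have e1 : x ^ (i + 1) * T h * (x ^ (i + 1))⁻¹ = x * (x ^ i * T h * (x ^ i)⁻¹) * x⁻¹ := by
            rw [pow_succ']; group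
          rw [e1]
          exact this
      have h7 := hpow (l - 1)
      have e2 : x ^ (l - 1) = x⁻¹ := by
        rw [eq_inv_iff_mul_eq_one, ← pow_succ, Nat.sub_add_cancel hl.one_lt.le, hxl]
      rwa [e2, inv_inv] at h7
    set w : L := (x * T h * x⁻¹) * (x⁻¹ * T h * x)⁻¹ with hwdef
    have wD : w ∈ D := D.mul_mem (h5 _ a2D) (D.inv_mem i1)
    have wE : w ∈ E := hDE wD
    have c1 : ∀ g ∈ E, sq3_b (T g) w = 1 := by
      intro g hg
      have a1 := hTE g hg
      have k1 := hpol g hg h hh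
      have k2 : sq3_b (T h) (x * T g * x⁻¹) = (sq3_b (T g) (x⁻¹ * T h * x))⁻¹ := by
        rw [sq3_b_anti]
        congr 1
        have e3 : T h = x * (x⁻¹ * T h * x) * x⁻¹ := by group
        conv_lhs => rw [e3]
        exact sq3_b_conj hE a1 (hDE i1) hx
      have k3 : sq3_b (T g) ((x⁻¹ * T h * x)⁻¹) = (sq3_b (T g) (x⁻¹ * T h * x))⁻¹ := by
        rw [eq_inv_iff_mul_eq_one, ← sq3_b_right hE a1 (E.inv_mem (hDE i1)) (hDE i1),
          inv_mul_cancel]
        unfold sq3_b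
        group
      rw [hwdef, sq3_b_right hE a1 (hxE' _ a2) (E.inv_mem (hDE i1)), k3, ← k2]
      exact k1
    refine h3 w wD ?_
    refine hE.cen _ (E.mul_mem (hxE' _ wE) (E.inv_mem wE)) fun g hg => ?_
    rw [← sq3_b_one]
    -- use `c1` for `x⁻¹ g x`
    have a4 := hxE'' g hg
    have k4 := c1 (x⁻¹ * g * x) a4
    have e4 : T (x⁻¹ * g * x) = g * (x⁻¹ * g * x)⁻¹ := by
      rw [hT]; group
    rw [e4, sq3_b_left hE hg (E.inv_mem a4) wE, sq3_b_inv hE a4 wE] at k4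
    have e5 : sq3_b (x⁻¹ * g * x) w = sq3_b g (x * w * x⁻¹) := by
      have e6 : g = x * (x⁻¹ * g * x) * x⁻¹ := by group
      conv_rhs => rw [e6]
      exact (sq3_b_conj hE a4 wE hx).symm
    have e7 := hxE' _ wE
    rw [sq3_b_left hE e7 (E.inv_mem wE) hg, sq3_b_inv hE wE hg, sq3_b_anti _ g,
      sq3_b_anti w g, inv_inv, ← e5]
    rw [mul_inv_eq_one] at k4
    rw [k4, inv_mul_cancel]
  have hfin : ∀ h ∈ E, T h ∈ U := by
    intro h hh
    have k1 := (f1 _).2 (hw h hh)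
    have k2 : Commute (f x ^ 2) (f (T h)) := by
      rw [map_mul, map_inv, mul_inv_eq_one, map_mul, map_mul, map_mul, map_mul, map_inv] at k1
      show f x ^ 2 * f (T h) = f (T h) * f x ^ 2
      rw [pow_two]
      calc f x * f x * f (T h) = f x * (f x * f (T h) * (f x)⁻¹) * f x := by group
        _ = f x * ((f x)⁻¹ * f (T h) * f x) * f x := by rw [k1]
        _ = f (T h) * (f x * f x) := by group
    have hodd : Odd l := hl.odd_of_ne_two hl2
    obtain ⟨i, hi⟩ := hodd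
    have k3 : Commute ((f x ^ 2) ^ (i + 1)) (f (T h)) := k2.pow_left _
    have k4 : (f x ^ 2) ^ (i + 1) = f x := by
      rw [← pow_mul]
      have : 2 * (i + 1) = l + 1 := by omega
      rw [this, pow_succ, ← map_pow, hxl, map_one, one_mul]
    rw [k4] at k3
    refine h3 _ (hTD h hh) ?_
    have k5 := k3.eq
    rw [← f1, map_mul, map_mul, map_mul, map_inv, map_inv, mul_inv_eq_one, mul_inv_eq_iff_eq_mul]
    exact k5
  refine hxE (hE.big x hx fun y hy => ?_)
  rw [← hT]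
  exact hfin y hy
-- END sq4

-- BEGIN sq5
private theorem sq5_one {l : ℕ} (hl : l.Prime) (hE : ¬ l ∣ Nat.card E) {z : L} (hz : z ∈ E)
    (hzl : z ^ l = 1) : z = 1 := by
  have h1 : orderOf z ∣ l := orderOf_dvd_of_pow_eq_one hzl
  rcases (Nat.dvd_prime hl).1 h1 with h2 | h2
  · exact orderOf_eq_one_iff.1 h2
  · exfalso
    apply hE
    have h3 : orderOf (⟨z, hz⟩ : E) ∣ Nat.card E := orderOf_dvd_natCard _
    rw [Subgroup.orderOf_mk, h2] at h3
    exact h3

private theorem sq5_conj {l : ℕ} (hl : l.Prime) [hn : E.Normal] (hE : ¬ l ∣ Nat.card E) {x y : L}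
    (hxl : x ^ l = 1) (hyl : y ^ l = 1) (hxy : x⁻¹ * y ∈ E) : ∃ g ∈ E, y = g * x * g⁻¹ := by
  classical
  haveI : Fact l.Prime := ⟨hl⟩
  by_cases hxE : x ∈ E
  · have hyE : y ∈ E := by
      have h1 := mul_mem hxE hxy
      rwa [mul_inv_cancel_left] at h1
    refine ⟨1, one_mem _, ?_⟩
    rw [sq5_one hl hE hxE hxl, sq5_one hl hE hyE hyl]
    simp
  · have hyE : y ∉ E := by
      intro h1
      apply hxE
      have h2 := mul_mem h1 (inv_mem hxy)
      have h3 : y * (x⁻¹ * y)⁻¹ = x := by group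
      rwa [h3] at h2
    have hx1 : x ≠ 1 := fun h => hxE (h ▸ one_mem E)
    have hy1 : y ≠ 1 := fun h => hyE (h ▸ one_mem E)
    have hox : orderOf x = l := orderOf_eq_prime hxl hx1
    have hoy : orderOf y = l := orderOf_eq_prime hyl hy1
    set G : Subgroup L := E ⊔ Subgroup.zpowers x with hG
    have hxG : x ∈ G := (le_sup_right : Subgroup.zpowers x ≤ G) (Subgroup.mem_zpowers x)
    have hyG : y ∈ G := by
      have h1 : x⁻¹ * y ∈ G := (le_sup_left : E ≤ G) hxy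
      have h2 := mul_mem hxG h1
      rwa [mul_inv_cancel_left] at h2
    have hbot : E ⊓ Subgroup.zpowers x = ⊥ := by
      rw [eq_bot_iff]
      rintro z ⟨h1, h2⟩
      obtain ⟨i, rfl⟩ := Subgroup.mem_zpowers_iff.1 h2
      rw [Subgroup.mem_bot]
      refine sq5_one hl hE h1 ?_
      rw [← zpow_natCast, ← zpow_mul, mul_comm, zpow_mul, zpow_natCast, hxl, one_zpow]
    have hcG : Nat.card G = l * Nat.card E := by
      have h1 : E.relIndex G = l := by
        rw [hG, Subgroup.relIndex_sup_left, ← Subgroup.inf_relIndex_right, hbot,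
          Subgroup.relIndex_bot_left, Nat.card_zpowers, hox]
      have h2 := Subgroup.relIndex_mul_relIndex ⊥ E G bot_le le_sup_left
      rw [h1, Subgroup.relIndex_bot_left, Subgroup.relIndex_bot_left] at h2
      rw [← h2, mul_comm]
    have hfac : (Nat.card G).factorization l = 1 := by
      rw [hcG, Nat.factorization_mul hl.ne_zero Nat.card_pos.ne', Finsupp.add_apply,
        hl.factorization_self, Nat.factorization_eq_zero_of_not_dvd hE]
    have hP : Nat.card ((Subgroup.zpowers x).subgroupOf G) = l ^ (Nat.card G).factorization l := by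
      rw [hfac, pow_one, Nat.card_congr (Subgroup.subgroupOfEquivOfLe
        (show Subgroup.zpowers x ≤ G from le_sup_right)).toEquiv, Nat.card_zpowers, hox]
    have hQ : Nat.card ((Subgroup.zpowers y).subgroupOf G) = l ^ (Nat.card G).factorization l := by
      rw [hfac, pow_one, Nat.card_congr (Subgroup.subgroupOfEquivOfLe
        (show Subgroup.zpowers y ≤ G from (Subgroup.zpowers_le.2 hyG))).toEquiv, Nat.card_zpowers, hoy]
    obtain ⟨g, hg⟩ := MulAction.exists_smul_eq G (Sylow.ofCard _ hP) (Sylow.ofCard _ hQ)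
    have h1 : (⟨y, hyG⟩ : G) ∈ ((Sylow.ofCard _ hQ : Sylow l G) : Subgroup G) := by
      change (⟨y, hyG⟩ : G) ∈ (Subgroup.zpowers y).subgroupOf G
      rw [Subgroup.mem_subgroupOf]
      exact Subgroup.mem_zpowers y
    rw [← hg, Sylow.coe_subgroup_smul, Subgroup.mem_pointwise_smul_iff_inv_smul_mem] at h1
    change _ ∈ (Subgroup.zpowers x).subgroupOf G at h1
    rw [Subgroup.mem_subgroupOf] at h1
    obtain ⟨i, hi⟩ := Subgroup.mem_zpowers_iff.1 h1
    have h2 : x ^ i = (g : L)⁻¹ * y * g := by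
      rw [hi, ← map_inv, MulAut.smul_def, MulAut.conj_apply]
      simp
    obtain ⟨e, he, z, hz, hez⟩ := (Subgroup.mem_sup_of_normal_left (s := E)).1 g.2
    obtain ⟨j, rfl⟩ := Subgroup.mem_zpowers_iff.1 hz
    have h3 : y = e * x ^ i * e⁻¹ := by
      have h4 : y = (g : L) * x ^ i * (g : L)⁻¹ := by
        rw [h2]
        group
      rw [h4, ← hez]
      group
    have h5 : x ^ (i - 1) ∈ E := by
      have h6 : x⁻¹ * e * x ∈ E := by
        have := hn.conj_mem e he x⁻¹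
        rwa [inv_inv] at this
      have h7 := mul_mem (mul_mem (inv_mem h6) hxy) he
      have h8 : (x⁻¹ * e * x)⁻¹ * (x⁻¹ * y) * e = x ^ (i - 1) := by
        rw [h3]
        group
      rwa [h8] at h7
    have h9 : x ^ (i - 1) = 1 := by
      refine sq5_one hl hE h5 ?_
      rw [← zpow_natCast, ← zpow_mul, mul_comm, zpow_mul, zpow_natCast, hxl, one_zpow]
    have h10 : x ^ i = x := by
      have h11 : x ^ i = x ^ (i - 1) * x := by
        rw [← zpow_add_one]
        congr 1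
        ring
      rw [h11, h9, one_mul]
    rw [h10] at h3
    exact ⟨e, he, h3⟩

/-- (sq5, size 4) The number of elements of order `l` in a coset of `E`. PROOF. If there is one, `x`: every `y` in the
set is `x f`, `f ∈ E`; `⟨x⟩` and `⟨y⟩` are Sylow `l`-subgroups of `E ⟨x⟩` (`l` does not divide `card E`: a prime divisor of
`card (E / U)` divides `card U`), so `y = g x ^ i g⁻¹` with `g ∈ E` (every element of `E⟨x⟩` is in
`E ⟨x⟩`, move the power of `x` away), and `y ≡ x` mod `E` gives `x ^ i ∈ x E`, `x ^ (i-1) ∈ E`, so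
`x ^ i = x` (`l` prime to `card E`). So the set is the image of `E` under `g ↦ g x g⁻¹`, and this
is constant on the cosets of `U`. -/
theorem cos_cnt (hc : IsCyclic U) (hE : SE U E n M) (l : ℕ) (hl : l.Prime)
    (hlU : ¬ l ∣ Nat.card U) (x₀ : L) :
    Nat.card {x : L // (∀ u ∈ U, x * u = u * x) ∧ x ^ l = 1 ∧ x₀⁻¹ * x ∈ E} ≤ U.relIndex E := by
  classical
  haveI := hE.nor
  rcases isEmpty_or_nonempty {x : L // (∀ u ∈ U, x * u = u * x) ∧ x ^ l = 1 ∧ x₀⁻¹ * x ∈ E} with h | h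
  · rw [Nat.card_of_isEmpty]
    exact Nat.zero_le _
  · obtain ⟨⟨x, hxU, hxl, hx0⟩⟩ := h
    have hcE : ¬ l ∣ Nat.card E := by
      obtain ⟨e, he, h1, h2⟩ := sq_ex (U := U) (E := E) ⟨hc, hE.UE, hE.cU, hE.com, hE.cen⟩
      have h5 := Subgroup.relIndex_mul_relIndex ⊥ U E bot_le hE.UE
      rw [Subgroup.relIndex_bot_left, Subgroup.relIndex_bot_left, h1, mul_comm] at h5
      rw [← h5]
      intro h3
      rcases (Nat.Prime.dvd_mul hl).1 h3 with h4 | h4
      · exact hlU (h2 l hl (hl.dvd_of_dvd_pow h4))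
      · exact hlU h4
    have key : ∀ y : {x : L // (∀ u ∈ U, x * u = u * x) ∧ x ^ l = 1 ∧ x₀⁻¹ * x ∈ E},
        ∃ g : E, (y : L) = g * x * (g : L)⁻¹ := by
      rintro ⟨y, hyU, hyl, hy0⟩
      have h1 : x⁻¹ * y ∈ E := by
        have h2 := mul_mem (inv_mem hx0) hy0
        have h3 : (x₀⁻¹ * x)⁻¹ * (x₀⁻¹ * y) = x⁻¹ * y := by group
        rwa [h3] at h2
      obtain ⟨g, hg, h2⟩ := sq5_conj hl hcE hxl hyl h1
      exact ⟨⟨g, hg⟩, h2⟩
    choose g hg using key
    have hinj : Function.Injective (fun y => (QuotientGroup.mk (g y) : E ⧸ U.subgroupOf E)) := by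
      intro y z hyz
      have h1 : (g y)⁻¹ * g z ∈ U.subgroupOf E := QuotientGroup.eq.1 hyz
      rw [Subgroup.mem_subgroupOf] at h1
      apply Subtype.ext
      rw [hg y, hg z]
      have h2 := hxU _ h1
      have h3 : (g z : L) = g y * (((g y)⁻¹ * g z : E) : L) := by
        push_cast
        group
      rw [h3]
      have h4 : (g y : L) * (((g y)⁻¹ * g z : E) : L) * x * ((g y : L) * (((g y)⁻¹ * g z : E) : L))⁻¹ =
          g y * ((((g y)⁻¹ * g z : E) : L) * x * (((g y)⁻¹ * g z : E) : L)⁻¹) * (g y : L)⁻¹ := by group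
      rw [h4, ← h2]
      group
    have := Nat.card_le_card_of_injective _ hinj
    exact this
-- END sq5

end

end Pool.Agent.Nas
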